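import Pool.Agent.W_3283e1_v3.Defs
import Pool.Agent.W_3283e1_lw.Cos
import Pool.Agent.W_3283e1_lw.Uni

set_option autoImplicit false

namespace W3283v

open MeasureTheory Filter Topology

/-- Uniqueness for complex functions: apply `W3283l.lap_unique` to the real and imaginary parts
(the transform of `conj g` at `s` is the conjugate of that of `g` at `conj s`). -/
theorem lap_uniqueC (g : ℝ → ℂ) (hg : ContinuousOn g (Set.Ici 0)) (a C : ℝ)
    (hb : ∀ u : ℝ, 0 ≤ u → ‖g u‖ ≤ C * Real.exp (a * u))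
    (hyp : ∀ s : ℂ, a < s.re → ∫ u in Set.Ioi (0 : ℝ), g u * Complex.exp (-(s * u)) = 0)
    (u : ℝ) (hu : 0 ≤ u) : g u = 0 := by
  have hI : ∀ s : ℂ, a < s.re → Integrable (fun u : ℝ => g u * Complex.exp (-(s * u)))
      (volume.restrict (Set.Ioi 0)) := by
    intro s hs
    have hC : 0 ≤ C := by
      have := hb 0 le_rfl
      simp only [mul_zero, Real.exp_zero, mul_one] at this
      exact le_trans (norm_nonneg _) this
    have h1 : IntegrableOn (fun u : ℝ => C * Real.exp ((a - s.re) * u)) (Set.Ioi 0) :=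
      (integrableOn_exp_mul_Ioi (by linarith) 0).const_mul C
    have hcont : ContinuousOn (fun u : ℝ => g u * Complex.exp (-(s * u))) (Set.Ioi 0) := by
      refine ContinuousOn.mul (hg.mono Set.Ioi_subset_Ici_self) ?_
      exact Continuous.continuousOn (by fun_prop)
    refine h1.mono' (hcont.aestronglyMeasurable measurableSet_Ioi) ?_
    refine (ae_restrict_iff' measurableSet_Ioi).2 (Filter.Eventually.of_forall ?_)
    intro u hu
    have hu' : (0 : ℝ) < u := hu
    rw [norm_mul, Complex.norm_exp]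
    have e1 : (-(s * u)).re = -(s.re * u) := by simp
    rw [e1]
    calc ‖g u‖ * Real.exp (-(s.re * u)) ≤ (C * Real.exp (a * u)) * Real.exp (-(s.re * u)) :=
          mul_le_mul_of_nonneg_right (hb u hu'.le) (Real.exp_pos _).le
      _ = C * Real.exp ((a - s.re) * u) := by
          rw [mul_assoc, ← Real.exp_add]; congr 2; ring
  have hconj : ∀ s : ℂ, a < s.re →
      Integrable (fun u : ℝ => (starRingEnd ℂ) (g u) * Complex.exp (-(s * u)))
        (volume.restrict (Set.Ioi 0)) ∧
      ∫ u in Set.Ioi (0 : ℝ), (starRingEnd ℂ) (g u) * Complex.exp (-(s * u)) = 0 := by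
    intro s hs
    have hs' : a < ((starRingEnd ℂ) s).re := by simpa using hs
    have e : ∀ u : ℝ, (starRingEnd ℂ) (g u) * Complex.exp (-(s * u)) =
        (starRingEnd ℂ) (g u * Complex.exp (-((starRingEnd ℂ) s * u))) := by
      intro u
      rw [map_mul, ← Complex.exp_conj]
      simp
    simp_rw [e]
    refine ⟨?_, ?_⟩
    · exact (Complex.conjLIE.toContinuousLinearEquiv.toContinuousLinearMap.integrable_comp
        (hI _ hs'))
    · rw [integral_conj, hyp _ hs', map_zero]
  have hre : ∀ u : ℝ, 0 ≤ u → (g u).re = 0 := by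
    intro u hu
    refine W3283l.lap_unique (fun u => (g u).re)
      (Complex.continuous_re.comp_continuousOn hg) a C ?_ ?_ u hu
    · intro u hu
      exact (Complex.abs_re_le_norm _).trans (hb u hu)
    · intro s hs
      have e : ∀ u : ℝ, (((g u).re : ℝ) : ℂ) * Complex.exp (-(s * u)) =
          (1 / 2 : ℂ) * (g u * Complex.exp (-(s * u)) +
            (starRingEnd ℂ) (g u) * Complex.exp (-(s * u))) := by
        intro u
        rw [Complex.re_eq_add_conj]
        ring
      simp_rw [e]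
      rw [integral_const_mul, integral_add (hI s hs) (hconj s hs).1, hyp s hs, (hconj s hs).2]
      simp
  have him : ∀ u : ℝ, 0 ≤ u → (g u).im = 0 := by
    intro u hu
    refine W3283l.lap_unique (fun u => (g u).im)
      (Complex.continuous_im.comp_continuousOn hg) a C ?_ ?_ u hu
    · intro u hu
      exact (Complex.abs_im_le_norm _).trans (hb u hu)
    · intro s hs
      have e : ∀ u : ℝ, (((g u).im : ℝ) : ℂ) * Complex.exp (-(s * u)) =
          (1 / (2 * Complex.I) : ℂ) * (g u * Complex.exp (-(s * u)) -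
            (starRingEnd ℂ) (g u) * Complex.exp (-(s * u))) := by
        intro u
        rw [Complex.im_eq_sub_conj]
        ring
      simp_rw [e]
      rw [integral_const_mul, integral_sub (hI s hs) (hconj s hs).1, hyp s hs, (hconj s hs).2]
      simp
  exact Complex.ext (hre u hu) (him u hu)

theorem Csh_norm {l : ℂ} (h0 : 0 ≤ l.re) (h1 : l.re ≤ 1 / 2) {u : ℝ} (hu : 0 ≤ u) :
    ‖Complex.cosh (l * u) - 1‖ ≤ 2 * Real.exp (u / 2) := by
  have e1 : ‖Complex.exp (l * u)‖ ≤ Real.exp (u / 2) := by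
    rw [Complex.norm_exp]
    apply Real.exp_le_exp.2
    have : (l * u).re = l.re * u := by simp
    rw [this]
    nlinarith
  have e2 : ‖Complex.exp (-(l * u))‖ ≤ Real.exp (u / 2) := by
    rw [Complex.norm_exp]
    apply Real.exp_le_exp.2
    have : (-(l * u)).re = -(l.re * u) := by simp
    rw [this]
    nlinarith
  have e3 : 1 ≤ Real.exp (u / 2) := Real.one_le_exp (by linarith)
  have e4 : Complex.cosh (l * u) - 1 =
      (Complex.exp (l * u) + Complex.exp (-(l * u))) / 2 - 1 := rfl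
  rw [e4]
  have e5 : ‖(Complex.exp (l * u) + Complex.exp (-(l * u))) / 2‖ ≤ Real.exp (u / 2) := by
    rw [norm_div]
    have : ‖(2 : ℂ)‖ = 2 := by simp
    rw [this]
    have := norm_add_le (Complex.exp (l * u)) (Complex.exp (-(l * u)))
    linarith
  have e6 := norm_sub_le ((Complex.exp (l * u) + Complex.exp (-(l * u))) / 2) 1
  rw [norm_one] at e6
  linarith

theorem Csh_int {l s : ℂ} (h0 : 0 ≤ l.re) (h1 : l.re ≤ 1 / 2) (hs : 1 / 2 < s.re) :
    IntegrableOn (fun u : ℝ => (Complex.cosh (l * u) - 1) * Complex.exp (-(s * u)))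
      (Set.Ioi 0) ∧
    ∫ u in Set.Ioi (0 : ℝ), (Complex.cosh (l * u) - 1) * Complex.exp (-(s * u)) =
      l ^ 2 / (s * (s ^ 2 - l ^ 2)) := by
  have e : ∀ u : ℝ, (Complex.cosh (l * u) - 1) * Complex.exp (-(s * u)) =
      (1 / 2) * Complex.exp ((-s + l) * u) + (1 / 2) * Complex.exp ((-s - l) * u) -
        Complex.exp ((-s) * u) := by
    intro u
    have h1 : Complex.cosh (l * u) = (Complex.exp (l * u) + Complex.exp (-(l * u))) / 2 := rfl
    have h2 : Complex.exp ((-s + l) * u) = Complex.exp (l * u) * Complex.exp (-(s * u)) := by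
      rw [← Complex.exp_add]
      congr 1
      ring
    have h3 : Complex.exp ((-s - l) * u) = Complex.exp (-(l * u)) * Complex.exp (-(s * u)) := by
      rw [← Complex.exp_add]
      congr 1
      ring
    have h4 : Complex.exp ((-s) * u) = Complex.exp (-(s * u)) := by
      congr 1
      ring
    rw [h1, h2, h3, h4]
    ring
  have r1 : (-s).re < 0 := by
    rw [Complex.neg_re]
    linarith
  have r2 : (-s + l).re < 0 := by
    rw [Complex.add_re, Complex.neg_re]
    linarith
  have r3 : (-s - l).re < 0 := by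
    rw [Complex.sub_re, Complex.neg_re]
    linarith
  have i1 := integrableOn_exp_mul_complex_Ioi r1 0
  have i2 := (integrableOn_exp_mul_complex_Ioi r2 0).const_mul (1 / 2 : ℂ)
  have i3 := (integrableOn_exp_mul_complex_Ioi r3 0).const_mul (1 / 2 : ℂ)
  simp_rw [e]
  refine ⟨(i2.add i3).sub i1, ?_⟩
  have i12 : Integrable (fun u : ℝ => (1 / 2) * Complex.exp ((-s + l) * u) +
      (1 / 2) * Complex.exp ((-s - l) * u)) (volume.restrict (Set.Ioi 0)) := i2.add i3
  rw [integral_sub i12 i1, integral_add i2 i3, integral_const_mul, integral_const_mul,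
    integral_exp_mul_complex_Ioi r1, integral_exp_mul_complex_Ioi r2,
    integral_exp_mul_complex_Ioi r3]
  have n1 : s ≠ 0 := by
    rintro rfl
    simp at hs
    linarith
  have n2 : -s + l ≠ 0 := by
    intro h
    rw [h] at r2
    simp at r2
  have n3 : -s - l ≠ 0 := by
    intro h
    rw [h] at r3
    simp at r3
  have n4 : s ^ 2 - l ^ 2 = (-s + l) * (-s - l) := by ring
  have n5 : s ^ 2 - l ^ 2 ≠ 0 := by
    rw [n4]
    exact mul_ne_zero n2 n3
  simp only [Complex.ofReal_zero, mul_zero, Complex.exp_zero]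
  have q2 : -1 / (-s + l) = (s + l) / (s ^ 2 - l ^ 2) := by
    rw [n4]
    field_simp
    ring
  have q3 : -1 / (-s - l) = (s - l) / (s ^ 2 - l ^ 2) := by
    rw [n4]
    field_simp
    ring
  rw [q2, q3]
  field_simp
  ring

/-- The transform of `Σ 2m/λ² (cosh λu - 1)` is `Σ 2m/(s (s²-λ²))` for `Re s > 1/2`, and the function is
continuous and at most `C e^{u/2}` on `u ≥ 0` (as `W3283l.cos_lap`; `‖cosh λu - 1‖ ≤ 2 e^{u/2}`). -/
theorem csh_lap {ι : Type} (lam : ι → ℂ) (m : ι → ℝ) (h : ZC lam m) :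
    ContinuousOn (fun u : ℝ => ∑' i, 2 * (m i : ℂ) / (lam i) ^ 2 * (Complex.cosh (lam i * u) - 1))
      (Set.Ici 0) ∧
    (∃ C : ℝ, ∀ u : ℝ, 0 ≤ u →
      ‖∑' i, 2 * (m i : ℂ) / (lam i) ^ 2 * (Complex.cosh (lam i * u) - 1)‖ ≤
        C * Real.exp (u / 2)) ∧
    ∀ s : ℂ, 1 / 2 < s.re →
      s * ∫ u in Set.Ioi (0 : ℝ), (∑' i, 2 * (m i : ℂ) / (lam i) ^ 2 *
        (Complex.cosh (lam i * u) - 1)) * Complex.exp (-(s * u)) =
          ∑' i, 2 * (m i : ℂ) / (s ^ 2 - (lam i) ^ 2) := by
  have hpos : ∀ i, 0 < ‖lam i‖ := fun i => norm_pos_iff.2 (h.ne i)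
  have hm : ∀ i, 0 < m i := fun i => by
    have := h.zd.one i
    linarith
  have hcs : Summable (fun i => 2 * (2 * m i / ‖lam i‖ ^ 2)) := by
    have := (h.zd.sm.mul_left 2).mul_left 2
    refine this.congr ?_
    intro i
    ring
  have hc0 : ∀ i, 0 ≤ 2 * m i / ‖lam i‖ ^ 2 := fun i => by
    have := hm i
    have := hpos i
    positivity
  have hcn : ∀ i, ‖2 * (m i : ℂ) / (lam i) ^ 2‖ = 2 * m i / ‖lam i‖ ^ 2 := by
    intro i
    rw [norm_div, norm_mul, norm_pow, Complex.norm_real, Real.norm_of_nonneg (hm i).le]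
    simp
  have hb : ∀ i (u : ℝ), 0 ≤ u →
      ‖2 * (m i : ℂ) / (lam i) ^ 2 * (Complex.cosh (lam i * u) - 1)‖ ≤
        2 * (2 * m i / ‖lam i‖ ^ 2) * Real.exp (u / 2) := by
    intro i u hu
    rw [norm_mul, hcn]
    calc 2 * m i / ‖lam i‖ ^ 2 * ‖Complex.cosh (lam i * u) - 1‖
        ≤ 2 * m i / ‖lam i‖ ^ 2 * (2 * Real.exp (u / 2)) :=
          mul_le_mul_of_nonneg_left (Csh_norm (h.re0 i) (h.re1 i) hu) (hc0 i)
      _ = 2 * (2 * m i / ‖lam i‖ ^ 2) * Real.exp (u / 2) := by ring
  refine ⟨?_, ⟨∑' i, 2 * (2 * m i / ‖lam i‖ ^ 2), fun u hu => ?_⟩, ?_⟩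
  · have e1 : ∀ u : ℝ, (∑' i, 2 * (m i : ℂ) / (lam i) ^ 2 * (Complex.cosh (lam i * u) - 1)) =
        (∑' i, 2 * (m i : ℂ) / (lam i) ^ 2 * (Complex.cosh (lam i * u) - 1) *
          Complex.exp (-(u / 2 : ℂ))) * Complex.exp ((u / 2 : ℂ)) := by
      intro u
      rw [tsum_mul_right, mul_assoc, ← Complex.exp_add]
      simp
    have e2 : ContinuousOn (fun u : ℝ =>
        (∑' i, 2 * (m i : ℂ) / (lam i) ^ 2 * (Complex.cosh (lam i * u) - 1) *
          Complex.exp (-(u / 2 : ℂ)))) (Set.Ici 0) := by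
      refine continuousOn_tsum (fun i => Continuous.continuousOn ?_) hcs ?_
      · have : Continuous fun u : ℝ => Complex.cosh (lam i * u) :=
          Complex.continuous_cosh.comp (by fun_prop)
        fun_prop
      · intro i u hu
        have hu' : (0 : ℝ) ≤ u := hu
        rw [norm_mul, Complex.norm_exp]
        have e3 : (-(u / 2 : ℂ)).re = -(u / 2) := by
          have : (-(u / 2 : ℂ)) = ((-(u / 2) : ℝ) : ℂ) := by push_cast; ring
          rw [this, Complex.ofReal_re]
        rw [e3]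
        calc _ ≤ 2 * (2 * m i / ‖lam i‖ ^ 2) * Real.exp (u / 2) * Real.exp (-(u / 2)) :=
              mul_le_mul_of_nonneg_right (hb i u hu') (Real.exp_pos _).le
          _ = 2 * (2 * m i / ‖lam i‖ ^ 2) := by
              rw [mul_assoc, ← Real.exp_add]
              simp
    refine (e2.mul (Continuous.continuousOn (f := fun u : ℝ => Complex.exp ((u / 2 : ℂ)))
      (by fun_prop))).congr ?_
    intro u _
    exact e1 u
  · refine (tsum_of_norm_bounded (hcs.mul_right (Real.exp (u / 2))).hasSum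
      (fun i => hb i u hu)).trans ?_
    rw [tsum_mul_right]
  intro s hs
  have : Countable ι := by
    have h1 := h.zd.sm.countable_support
    have h2 : Function.support (fun i => m i / ‖lam i‖ ^ 2) = Set.univ := by
      ext i
      simp only [Function.mem_support, Set.mem_univ, iff_true]
      have := hm i
      have := hpos i
      positivity
    rw [h2] at h1
    exact Set.countable_univ_iff.mp h1
  have hsn : s ≠ 0 := by
    rintro rfl
    simp at hs
    linarith
  set G : ι → ℝ → ℂ := fun i u => (2 * (m i : ℂ) / (lam i) ^ 2) *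
    ((Complex.cosh (lam i * u) - 1) * Complex.exp (-(s * u))) with hG
  have hGi : ∀ i, Integrable (G i) (volume.restrict (Set.Ioi 0)) := fun i =>
    ((Csh_int (h.re0 i) (h.re1 i) hs).1).const_mul _
  have hdom : IntegrableOn (fun u : ℝ => Real.exp ((1 / 2 - s.re) * u)) (Set.Ioi 0) :=
    integrableOn_exp_mul_Ioi (by linarith) 0
  have hGn : ∀ i (u : ℝ), 0 < u →
      ‖G i u‖ ≤ 2 * (2 * m i / ‖lam i‖ ^ 2) * Real.exp ((1 / 2 - s.re) * u) := by
    intro i u hu
    have h1 : G i u = (2 * (m i : ℂ) / (lam i) ^ 2 * (Complex.cosh (lam i * u) - 1)) *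
        Complex.exp (-(s * u)) := by
      simp only [hG]
      ring
    rw [h1, norm_mul, Complex.norm_exp]
    have h2 : (-(s * u)).re = -s.re * u := by
      simp
    rw [h2]
    calc _ ≤ 2 * (2 * m i / ‖lam i‖ ^ 2) * Real.exp (u / 2) * Real.exp (-s.re * u) :=
          mul_le_mul_of_nonneg_right (hb i u hu.le) (Real.exp_pos _).le
      _ = 2 * (2 * m i / ‖lam i‖ ^ 2) * Real.exp ((1 / 2 - s.re) * u) := by
          rw [mul_assoc, ← Real.exp_add]
          congr 2
          ring
  have hGs : Summable (fun i => ∫ u in Set.Ioi (0 : ℝ), ‖G i u‖) := by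
    refine Summable.of_nonneg_of_le (fun i => integral_nonneg (fun u => norm_nonneg _))
      (fun i => ?_) (hcs.mul_right (∫ u in Set.Ioi (0 : ℝ), Real.exp ((1 / 2 - s.re) * u)))
    rw [← integral_const_mul]
    refine integral_mono_ae (hGi i).norm (hdom.const_mul _) ?_
    exact (ae_restrict_iff' measurableSet_Ioi).2 (Filter.Eventually.of_forall
      (fun u hu => hGn i u hu))
  have hsum := hasSum_integral_of_summable_integral_norm hGi hGs
  have e1 : ∀ u : ℝ, (∑' i, 2 * (m i : ℂ) / (lam i) ^ 2 * (Complex.cosh (lam i * u) - 1)) *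
      Complex.exp (-(s * u)) = ∑' i, G i u := by
    intro u
    rw [← tsum_mul_right]
    refine tsum_congr (fun i => ?_)
    simp only [hG]
    ring
  simp_rw [e1]
  rw [← hsum.tsum_eq, ← tsum_mul_left]
  refine tsum_congr (fun i => ?_)
  have e2 : ∫ u in Set.Ioi (0 : ℝ), G i u = (2 * (m i : ℂ) / (lam i) ^ 2) *
      ((lam i) ^ 2 / (s * (s ^ 2 - (lam i) ^ 2))) := by
    simp only [hG]
    rw [integral_const_mul, (Csh_int (h.re0 i) (h.re1 i) hs).2]
  rw [e2]
  have hγ : lam i ≠ 0 := h.ne i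
  by_cases hz : s ^ 2 - (lam i) ^ 2 = 0
  · rw [hz]
    simp
  · field_simp

end W3283v
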