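import Pool.Agent.W_3283e1_lw.Cnt

set_option autoImplicit false

namespace W3283v

open MeasureTheory

variable {ι : Type}

/-- The dyadic block of a value `≥ 1`. -/
theorem ZdP_block {g mm ε : ℝ} (hg : 1 ≤ g) (hm : 0 ≤ mm) (hε : 0 < ε) : ∃ j : ℕ,
    mm / g ^ (1 + ε) ≤ 2 * (((2 : ℝ) ^ (-ε)) ^ j * (2 * mm * 2 ^ j / ((2 ^ j) ^ 2 + g ^ 2))) := by
  obtain ⟨j, hj1, hj2⟩ := exists_nat_pow_near hg (by norm_num : (1 : ℝ) < 2)
  refine ⟨j, ?_⟩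
  have hg0 : 0 < g := by linarith
  have hz : (0 : ℝ) < 2 ^ j := by positivity
  have h1 : g ^ (-ε) ≤ ((2 : ℝ) ^ (-ε)) ^ j := by
    have h2 : ((2 : ℝ) ^ (-ε)) ^ j = ((2 : ℝ) ^ j) ^ (-ε) := by
      rw [← Real.rpow_natCast, ← Real.rpow_mul (by norm_num), ← Real.rpow_natCast (2 : ℝ) j,
        ← Real.rpow_mul (by norm_num), mul_comm]
    rw [h2]
    exact Real.rpow_le_rpow_of_nonpos hz hj1 (by linarith)
  have h3 : mm / g ≤ 2 * (2 * mm * 2 ^ j / ((2 ^ j) ^ 2 + g ^ 2)) := by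
    rw [← mul_div_assoc, div_le_div_iff₀ hg0 (by positivity)]
    have h4 : (2 : ℝ) ^ (j + 1) = 2 * 2 ^ j := by ring
    rw [h4] at hj2
    have h5 : ((2 : ℝ) ^ j) ^ 2 + g ^ 2 ≤ 4 * 2 ^ j * g := by nlinarith
    nlinarith [mul_le_mul_of_nonneg_left h5 hm]
  have h6 : mm / g ^ (1 + ε) = g ^ (-ε) * (mm / g) := by
    rw [Real.rpow_add hg0, Real.rpow_one, Real.rpow_neg hg0.le]
    field_simp
  rw [h6]
  have h7 : (0 : ℝ) ≤ mm / g := by positivity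
  calc g ^ (-ε) * (mm / g) ≤ ((2 : ℝ) ^ (-ε)) ^ j * (mm / g) := mul_le_mul_of_nonneg_right h1 h7
    _ ≤ ((2 : ℝ) ^ (-ε)) ^ j * (2 * (2 * mm * 2 ^ j / ((2 ^ j) ^ 2 + g ^ 2))) :=
        mul_le_mul_of_nonneg_left h3 (by positivity)
    _ = _ := by ring

/-- `Σ m/γ^{1+ε} < ∞`.  Finitely many `i` have `γ i ≤ 1` (`W3283l.cnt_fin`).  For a finite set `s` of
indices with `1 ≤ γ i`: `∫_1^∞ z^{-ε} Σ_{i∈s} 2 m_i/(z²+γ_i²) dz ≤ ∫_1^∞ z^{-1-ε} (log z + C) dz` by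
`ZD.asy`, and `∫_1^∞ z^{-ε} 2/(z²+γ²) dz ≥ ∫_γ^{2γ} ≥ (2/5) (2γ)^{-ε}/γ`.  (Or dyadic blocks and `cnt`:
`Σ_{2^j ≤ γ < 2^{j+1}} m/γ^{1+ε} ≤ 2^{-j(1+ε)} 2^{j+1} (log 2^{j+1} + C)`.) -/
theorem zd_pow {γ m : ι → ℝ} (h : W3283l.ZD γ m) (ε : ℝ) (hε : 0 < ε) :
    Summable (fun i => m i / (γ i) ^ (1 + ε)) := by
  classical
  obtain ⟨C, hC⟩ := h.asy
  obtain ⟨r, hr⟩ : ∃ r : ℝ, r = (2 : ℝ) ^ (-ε) := ⟨_, rfl⟩
  have hr0 : 0 < r := by rw [hr]; positivity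
  have hr1 : r < 1 := by
    rw [hr]
    exact Real.rpow_lt_one_of_one_lt_of_neg (by norm_num) (by linarith)
  have hm : ∀ i, 0 ≤ m i := fun i => by linarith [h.one i]
  obtain ⟨A, hA⟩ : ∃ A : ℕ → ι → ℝ, A = fun j i =>
      r ^ j * (2 * m i * 2 ^ j / ((2 ^ j) ^ 2 + (γ i) ^ 2)) := ⟨_, rfl⟩
  have hA0 : ∀ j i, 0 ≤ A j i := fun j i => by
    have h1 := hm i
    rw [hA]
    positivity
  have hAs : ∀ i, Summable fun j => A j i := by
    intro i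
    refine Summable.of_nonneg_of_le (fun j => hA0 j i) (fun j => ?_)
      ((summable_geometric_of_lt_one hr0.le hr1).mul_left (2 * m i))
    have h1 := hm i
    have h2 : 2 * m i * 2 ^ j / ((2 ^ j) ^ 2 + (γ i) ^ 2) ≤ 2 * m i := by
      rw [div_le_iff₀ (by positivity)]
      have h3 : (1 : ℝ) ≤ 2 ^ j := one_le_pow₀ (by norm_num)
      have h4 : (2 : ℝ) ^ j ≤ (2 ^ j) ^ 2 + γ i ^ 2 := by nlinarith [sq_nonneg (γ i)]
      exact mul_le_mul_of_nonneg_left h4 (by positivity)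
    rw [hA]
    show r ^ j * (2 * m i * 2 ^ j / ((2 ^ j) ^ 2 + (γ i) ^ 2)) ≤ 2 * m i * r ^ j
    rw [mul_comm]
    exact mul_le_mul_of_nonneg_right h2 (by positivity)
  have hB : Summable fun j : ℕ => r ^ j * (j * Real.log 2 + C) := by
    have h1 := (summable_pow_mul_geometric_of_norm_lt_one 1
      (by rw [Real.norm_eq_abs, abs_of_pos hr0]; exact hr1 : ‖r‖ < 1)).mul_left (Real.log 2)
    have h2 := (summable_geometric_of_lt_one hr0.le hr1).mul_left C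
    refine (h1.add h2).congr fun j => ?_
    rw [pow_one]
    ring
  have hcol : ∀ (s : Finset ι) (j : ℕ), ∑ i ∈ s, A j i ≤ r ^ j * (j * Real.log 2 + C) := by
    intro s j
    rw [hA]
    show ∑ i ∈ s, r ^ j * (2 * m i * 2 ^ j / ((2 ^ j) ^ 2 + (γ i) ^ 2)) ≤ _
    rw [← Finset.mul_sum]
    refine mul_le_mul_of_nonneg_left ?_ (by positivity)
    have h3 : (1 : ℝ) ≤ 2 ^ j := one_le_pow₀ (by norm_num)
    have h4 := (abs_le.1 (hC (2 ^ j) h3)).2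
    rw [Real.log_pow] at h4
    have h5 : Summable fun i => 2 * m i * 2 ^ j / (((2 : ℝ) ^ j) ^ 2 + (γ i) ^ 2) := by
      refine ((W3283l.zd_summable h (2 ^ j)).mul_left (2 * 2 ^ j)).congr fun i => ?_
      ring
    have h6 := h5.sum_le_tsum s fun i _ => by
      have h1 := hm i
      positivity
    linarith
  have hbig : ∀ s : Finset ι, (∀ i ∈ s, 1 ≤ γ i) → ∑ i ∈ s, m i / (γ i) ^ (1 + ε) ≤
      2 * ∑' j : ℕ, r ^ j * (j * Real.log 2 + C) := by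
    intro s hs
    have h1 : ∑ i ∈ s, m i / (γ i) ^ (1 + ε) ≤ ∑ i ∈ s, 2 * ∑' j, A j i := by
      refine Finset.sum_le_sum fun i hi => ?_
      obtain ⟨j, hj⟩ := ZdP_block (hs i hi) (hm i) hε
      refine hj.trans ?_
      refine mul_le_mul_of_nonneg_left ?_ (by norm_num)
      have h2 := (hAs i).le_tsum j fun j' _ => hA0 j' i
      rw [hA, hr] at h2
      rw [hA, hr]
      exact h2
    refine h1.trans ?_
    rw [← Finset.mul_sum]
    refine mul_le_mul_of_nonneg_left ?_ (by norm_num)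
    rw [← Summable.tsum_finsetSum fun i _ => hAs i]
    refine Summable.tsum_le_tsum (fun j => hcol s j) ?_ hB
    exact summable_sum fun i _ => hAs i
  have hF := W3283l.cnt_fin h 1
  have hf0 : ∀ i, 0 ≤ m i / (γ i) ^ (1 + ε) := fun i =>
    div_nonneg (hm i) (Real.rpow_nonneg (h.pos i).le _)
  refine summable_of_sum_le (c := ∑ i ∈ hF.toFinset, m i / (γ i) ^ (1 + ε) +
    2 * ∑' j : ℕ, r ^ j * (j * Real.log 2 + C)) hf0 fun u => ?_
  rw [← Finset.sum_filter_add_sum_filter_not u (fun i => γ i ≤ 1)]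
  refine add_le_add ?_ ?_
  · refine Finset.sum_le_sum_of_subset_of_nonneg ?_ fun i _ _ => hf0 i
    intro i hi
    exact hF.mem_toFinset.2 (Finset.mem_filter.1 hi).2
  · refine hbig _ fun i hi => ?_
    exact (not_le.1 (Finset.mem_filter.1 hi).2).le

end W3283v
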