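import Pool.Agent.W_3283e1_v3.Ev
import Pool.Agent.W_3283e1_v3.ZdP
import Pool.Agent.W_3283e1_lw.Om

set_option autoImplicit false

namespace W3283v

open MeasureTheory

variable {ι : Type} {lam : ι → ℂ} {m : ι → ℝ}

theorem GrA_int (A : ℝ → ℝ) (hA : EFC lam m A) (a b : ℝ) (ha : 0 ≤ a) :
    IntegrableOn A (Set.Ioc a b) := by
  obtain ⟨C, hC⟩ := hA.bd
  have hb : IntegrableOn (fun u : ℝ => C * Real.exp (3 / 4 * u)) (Set.Ioc a b) := by
    apply Continuous.integrableOn_Ioc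
    fun_prop
  refine Integrable.mono' hb hA.meas.aestronglyMeasurable ?_
  refine (ae_restrict_iff' measurableSet_Ioc).2 (Filter.Eventually.of_forall fun u hu => ?_)
  rw [Real.norm_eq_abs]
  exact hC u (ha.trans hu.1.le)

theorem GrA_Ioc (f : ℝ → ℝ) (u t : ℝ) (hu : 0 ≤ u) (ht : 0 ≤ t)
    (h1 : IntegrableOn f (Set.Ioc 0 u)) (h2 : IntegrableOn f (Set.Ioc u (u + t))) :
    ∫ s in Set.Ioc u (u + t), f s =
      (∫ s in Set.Ioc 0 (u + t), f s) - ∫ s in Set.Ioc 0 u, f s := by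
  have h3 : Set.Ioc 0 (u + t) = Set.Ioc 0 u ∪ Set.Ioc u (u + t) :=
    (Set.Ioc_union_Ioc_eq_Ioc hu (by linarith)).symm
  rw [h3, setIntegral_union (Set.Ioc_disjoint_Ioc_of_le le_rfl) measurableSet_Ioc h1 h2]
  ring

theorem GrA_cosh (w : ℂ) (β : ℝ) (h0 : 0 ≤ w.re) (hw : w.re ≤ β) (s : ℝ) (hs : 0 ≤ s) :
    ‖Complex.cosh (w * s)‖ ≤ Real.exp (β * s) ∧ ‖Complex.sinh (w * s)‖ ≤ Real.exp (β * s) := by
  have e1 : ‖Complex.exp (w * s)‖ ≤ Real.exp (β * s) := by
    rw [Complex.norm_exp]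
    have e : (w * (s : ℂ)).re = w.re * s := by simp
    rw [e]
    exact Real.exp_le_exp.2 (mul_le_mul_of_nonneg_right hw hs)
  have e2 : ‖Complex.exp (-(w * s))‖ ≤ Real.exp (β * s) := by
    rw [Complex.norm_exp]
    have e : (-(w * (s : ℂ))).re = -(w.re * s) := by simp
    rw [e]
    refine Real.exp_le_exp.2 ?_
    have h1 : 0 ≤ w.re * s := mul_nonneg h0 hs
    have h2 : w.re * s ≤ β * s := mul_le_mul_of_nonneg_right hw hs
    linarith
  constructor
  · unfold Complex.cosh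
    rw [norm_div, Complex.norm_ofNat, div_le_iff₀ (by norm_num)]
    refine (norm_add_le _ _).trans ?_
    linarith
  · unfold Complex.sinh
    rw [norm_div, Complex.norm_ofNat, div_le_iff₀ (by norm_num)]
    refine (norm_sub_le _ _).trans ?_
    linarith

theorem GrA_diff (w : ℂ) (β : ℝ) (hβ : 0 ≤ β) (h0 : 0 ≤ w.re) (hw : w.re ≤ β) (ε : ℝ)
    (hε : 0 < ε) (hε1 : ε < 1) (u t : ℝ) (hu : 0 ≤ u) (ht : 0 < t) (ht1 : t ≤ 1) :
    ‖Complex.cosh (w * ((u + t : ℝ) : ℂ)) - Complex.cosh (w * (u : ℂ))‖ ≤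
      2 * Real.exp (β * (u + 1)) * (‖w‖ * t) ^ (1 - ε) := by
  have hx0 : 0 ≤ ‖w‖ * t := by positivity
  have hexp : ∀ s, s ≤ u + t → Real.exp (β * s) ≤ Real.exp (β * (u + 1)) := fun s hs =>
    Real.exp_le_exp.2 (mul_le_mul_of_nonneg_left (by linarith) hβ)
  rcases le_total (‖w‖ * t) 1 with hx | hx
  · have hd : ∀ s ∈ Set.Icc u (u + t), HasDerivWithinAt (fun s : ℝ => Complex.cosh (w * (s : ℂ)))
        (w * Complex.sinh (w * s)) (Set.Icc u (u + t)) s := by
      intro s _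
      have h1 : HasDerivAt (fun z : ℂ => Complex.cosh (w * z)) (w * Complex.sinh (w * s)) (s : ℂ) := by
        have h2 := (Complex.hasDerivAt_cosh (w * (s : ℂ))).comp (s : ℂ)
          ((hasDerivAt_id (s : ℂ)).const_mul w)
        have h3 : Complex.sinh (w * (s : ℂ)) * (w * 1) = w * Complex.sinh (w * s) := by ring
        rw [h3] at h2
        exact h2
      exact h1.comp_ofReal.hasDerivWithinAt
    have hb : ∀ s ∈ Set.Ico u (u + t), ‖w * Complex.sinh (w * s)‖ ≤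
        ‖w‖ * Real.exp (β * (u + 1)) := by
      intro s hs
      rw [norm_mul]
      refine mul_le_mul_of_nonneg_left ?_ (norm_nonneg _)
      exact (GrA_cosh w β h0 hw s (hu.trans hs.1)).2.trans (hexp s hs.2.le)
    have h1 := norm_image_sub_le_of_norm_deriv_le_segment' hd hb (u + t)
      ⟨by linarith, le_rfl⟩
    have h2 : ‖w‖ * t ≤ (‖w‖ * t) ^ (1 - ε) := by
      rcases eq_or_lt_of_le hx0 with h | h
      · rw [← h, Real.zero_rpow (by linarith)]
      · conv_lhs => rw [← Real.rpow_one (‖w‖ * t)]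
        exact Real.rpow_le_rpow_of_exponent_ge h hx (by linarith)
    have h3 : 0 < Real.exp (β * (u + 1)) := Real.exp_pos _
    refine h1.trans ?_
    have h4 : 0 ≤ (‖w‖ * t) ^ (1 - ε) := Real.rpow_nonneg hx0 _
    have h5 : ‖w‖ * Real.exp (β * (u + 1)) * (u + t - u) =
        Real.exp (β * (u + 1)) * (‖w‖ * t) := by ring
    rw [h5]
    nlinarith [mul_le_mul_of_nonneg_left h2 h3.le, mul_nonneg h3.le h4]
  · have h2 : 1 ≤ (‖w‖ * t) ^ (1 - ε) := Real.one_le_rpow hx (by linarith)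
    have h3 := (GrA_cosh w β h0 hw (u + t) (by linarith)).1.trans (hexp (u + t) le_rfl)
    have h4 := (GrA_cosh w β h0 hw u hu).1.trans (hexp u (by linarith))
    refine (norm_sub_le _ _).trans ?_
    have h5 : 0 < Real.exp (β * (u + 1)) := Real.exp_pos _
    nlinarith

theorem GrA_sum (hZ : ZC lam m) (u : ℝ) (hu : 0 ≤ u) :
    Summable (fun i => 2 * (m i : ℂ) / (lam i) ^ 2 * (Complex.cosh (lam i * u) - 1)) := by
  refine Summable.of_norm_bounded
    (g := fun i => 2 * (Real.exp (1 / 2 * u) + 1) * (m i / ‖lam i‖ ^ 2))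
    (hZ.zd.sm.mul_left _) fun i => ?_
  have h1 := hZ.zd.one i
  have h2 := (GrA_cosh (lam i) (1 / 2) (hZ.re0 i) (hZ.re1 i) u hu).1
  have h3 : ‖Complex.cosh (lam i * u) - 1‖ ≤ Real.exp (1 / 2 * u) + 1 := by
    refine (norm_sub_le _ _).trans ?_
    rw [norm_one]
    linarith
  rw [norm_mul, norm_div, norm_mul, norm_pow, Complex.norm_ofNat, Complex.norm_real,
    Real.norm_eq_abs, abs_of_pos (by linarith)]
  have h4 : 0 ≤ 2 * m i / ‖lam i‖ ^ 2 := by positivity
  calc 2 * m i / ‖lam i‖ ^ 2 * ‖Complex.cosh (lam i * u) - 1‖ ≤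
      2 * m i / ‖lam i‖ ^ 2 * (Real.exp (1 / 2 * u) + 1) := mul_le_mul_of_nonneg_left h3 h4
    _ = 2 * (Real.exp (1 / 2 * u) + 1) * (m i / ‖lam i‖ ^ 2) := by ring

/-- Means over short intervals: if `Re λ ≤ β` for all zeros then
`|∫_u^{u+t} A| ≤ C t^{1-ε} e^{βu}` for `0 < t ≤ 1`: the difference of the explicit formula at
`u + t` and `u` is `Σ 2m/λ² (cosh λ(u+t) - cosh λu) + c3 t - ∫_u^{u+t} om`,
`‖cosh λ(u+t) - cosh λu‖ ≤ e^{β(u+1)} min(‖λ‖ t, 2) ≤ 2 e^{β(u+1)} (‖λ‖ t)^{1-ε}`, and `zd_pow`;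
`0 ≤ ∫_u^{u+t} om ≤ C t^{1-ε}` (for `u ≥ 0`: `om` is decreasing, `∫_0^t om ≤ ∫_0^t log(2/s) ds`). -/
theorem mean_bd (hZ : ZC lam m) (A : ℝ → ℝ) (hA : EFC lam m A) (β : ℝ) (hβ : 0 ≤ β)
    (hre : ∀ i, (lam i).re ≤ β) (ε : ℝ) (hε : 0 < ε) (hε1 : ε < 1) :
    ∃ C : ℝ, 0 ≤ C ∧ ∀ u t : ℝ, 1 ≤ u → 0 < t → t ≤ 1 →
      |∫ s in Set.Ioc u (u + t), A s| ≤ C * t ^ (1 - ε) * Real.exp (β * u) := by
  obtain ⟨c3, hex⟩ := hA.ex
  have hS := zd_pow hZ.zd ε hε
  have hS0 : 0 ≤ ∑' i, m i / ‖lam i‖ ^ (1 + ε) := tsum_nonneg fun i => by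
    have h1 := hZ.zd.one i
    have h2 := hZ.zd.pos i
    positivity
  have hom1 : 0 ≤ W3283l.om 1 := W3283l.om_nonneg 1 one_pos
  refine ⟨4 * Real.exp β * (∑' i, m i / ‖lam i‖ ^ (1 + ε)) + |c3| + W3283l.om 1, by positivity,
    fun u t hu ht ht1 => ?_⟩
  have hu0 : 0 ≤ u := by linarith
  have htp : 0 < t ^ (1 - ε) := Real.rpow_pos_of_pos ht _
  have htt : t ≤ t ^ (1 - ε) := by
    conv_lhs => rw [← Real.rpow_one t]
    exact Real.rpow_le_rpow_of_exponent_ge ht ht1 (by linarith)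
  have hE1 : 1 ≤ Real.exp (β * u) := Real.one_le_exp (by positivity)
  have hmono : ∀ a b : ℝ, 0 ≤ a → IntegrableOn W3283l.om (Set.Ioc a b) := fun a b ha =>
    W3283l.om_int.mono_set fun s hs => lt_of_le_of_lt ha hs.1
  -- the integral of om
  have hO1 : Om1 (u + t) - Om1 u = ∫ s in Set.Ioc u (u + t), W3283l.om s := by
    rw [GrA_Ioc W3283l.om u t hu0 ht.le (hmono 0 u le_rfl) (hmono u (u + t) hu0)]
    rfl
  have hO2 : 0 ≤ Om1 (u + t) - Om1 u := by
    rw [hO1]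
    exact setIntegral_nonneg measurableSet_Ioc fun s hs =>
      W3283l.om_nonneg s (lt_of_le_of_lt hu0 hs.1)
  have hO3 : Om1 (u + t) - Om1 u ≤ W3283l.om 1 * t := by
    rw [hO1]
    have h1 : ∫ s in Set.Ioc u (u + t), W3283l.om s ≤
        ∫ s in Set.Ioc u (u + t), W3283l.om 1 := by
      refine setIntegral_mono_on (hmono u (u + t) hu0) (integrableOn_const (by simp))
        measurableSet_Ioc fun s hs => ?_
      exact W3283l.om_anti 1 s one_pos (by linarith [hs.1])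
    refine h1.trans (le_of_eq ?_)
    rw [setIntegral_const]
    simp [measureReal_def, ht.le]
    ring
  -- the sum
  have hs1 := GrA_sum hZ (u + t) (by linarith)
  have hs0 := GrA_sum hZ u hu0
  have hD : ‖(∑' i, 2 * (m i : ℂ) / (lam i) ^ 2 * (Complex.cosh (lam i * ((u + t : ℝ) : ℂ)) - 1)) -
      ∑' i, 2 * (m i : ℂ) / (lam i) ^ 2 * (Complex.cosh (lam i * u) - 1)‖ ≤
      4 * Real.exp (β * (u + 1)) * t ^ (1 - ε) * ∑' i, m i / ‖lam i‖ ^ (1 + ε) := by
    rw [← hs1.tsum_sub hs0, ← tsum_mul_left]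
    refine tsum_of_norm_bounded (hS.mul_left _).hasSum fun i => ?_
    have h1 := hZ.zd.one i
    have h2 := hZ.zd.pos i
    have h3 := GrA_diff (lam i) β hβ (hZ.re0 i) (hre i) ε hε hε1 u t hu0 ht ht1
    have h4 : 2 * (m i : ℂ) / (lam i) ^ 2 * (Complex.cosh (lam i * ((u + t : ℝ) : ℂ)) - 1) -
        2 * (m i : ℂ) / (lam i) ^ 2 * (Complex.cosh (lam i * u) - 1) =
        2 * (m i : ℂ) / (lam i) ^ 2 * (Complex.cosh (lam i * ((u + t : ℝ) : ℂ)) -
          Complex.cosh (lam i * u)) := by ring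
    rw [h4, norm_mul, norm_div, norm_mul, norm_pow, Complex.norm_ofNat, Complex.norm_real,
      Real.norm_eq_abs, abs_of_pos (by linarith)]
    have h5 : 0 ≤ 2 * m i / ‖lam i‖ ^ 2 := by positivity
    refine (mul_le_mul_of_nonneg_left h3 h5).trans (le_of_eq ?_)
    rw [Real.mul_rpow h2.le ht.le, Real.rpow_add h2, Real.rpow_sub h2, Real.rpow_one]
    have h6 : ‖lam i‖ ^ ε ≠ 0 := (Real.rpow_pos_of_pos h2 _).ne'
    have h7 : ‖lam i‖ ≠ 0 := h2.ne'
    field_simp
    ring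
  -- the formula
  have hF : ((∫ s in Set.Ioc u (u + t), A s : ℝ) : ℂ) =
      ((∑' i, 2 * (m i : ℂ) / (lam i) ^ 2 * (Complex.cosh (lam i * ((u + t : ℝ) : ℂ)) - 1)) -
      ∑' i, 2 * (m i : ℂ) / (lam i) ^ 2 * (Complex.cosh (lam i * u) - 1)) +
      (((c3 * t - (Om1 (u + t) - Om1 u) : ℝ)) : ℂ) := by
    rw [GrA_Ioc A u t hu0 ht.le (GrA_int A hA 0 u le_rfl) (GrA_int A hA u (u + t) hu0)]
    push_cast
    have h1 := hex (u + t) (by linarith)
    have h2 := hex u hu0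
    push_cast at h1 h2
    rw [h1, h2]
    ring
  have hN : |∫ s in Set.Ioc u (u + t), A s| = ‖((∫ s in Set.Ioc u (u + t), A s : ℝ) : ℂ)‖ := by
    rw [Complex.norm_real, Real.norm_eq_abs]
  rw [hN, hF]
  refine (norm_add_le _ _).trans ?_
  rw [Complex.norm_real, Real.norm_eq_abs]
  have h8 : |c3 * t - (Om1 (u + t) - Om1 u)| ≤ |c3| * t ^ (1 - ε) + W3283l.om 1 * t ^ (1 - ε) := by
    refine (abs_sub _ _).trans ?_
    rw [abs_mul, abs_of_pos ht, abs_of_nonneg hO2]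
    have h9 := mul_le_mul_of_nonneg_left htt (abs_nonneg c3)
    have h10 := mul_le_mul_of_nonneg_left htt hom1
    linarith
  have h11 : Real.exp (β * (u + 1)) = Real.exp β * Real.exp (β * u) := by
    rw [← Real.exp_add]
    congr 1
    ring
  rw [h11] at hD
  refine (add_le_add hD h8).trans ?_
  have h12 : 0 ≤ (|c3| + W3283l.om 1) * t ^ (1 - ε) := by positivity
  have h13 := mul_le_mul_of_nonneg_left hE1 h12
  nlinarith

/-- With the trivial bound for the variation in short intervals (`hvar`) and `t = e^{-u/2}`: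
`t |A u| ≤ |∫_u^{u+t} A| + ∫_u^{u+t} |A s - A u| ds ≤ C t^{1-ε} e^{βu} + t K (u+1) 2`. -/
theorem grA (hZ : ZC lam m) (A : ℝ → ℝ) (hA : EFC lam m A) (β : ℝ) (hβ : 0 ≤ β)
    (hre : ∀ i, (lam i).re ≤ β) (K : ℝ)
    (hvar : ∀ u t : ℝ, 0 ≤ u → 0 ≤ t → t ≤ 1 →
      |A (u + t) - A u| ≤ K * (u + 1) * (1 + t * Real.exp (u / 2))) (ε : ℝ) (hε : 0 < ε) :
    ∃ C : ℝ, 0 ≤ C ∧ ∀ u : ℝ, 0 ≤ u → |A u| ≤ C * Real.exp ((β + ε) * u) := by
  have hK : 0 ≤ K := by
    have h := hvar 0 0 le_rfl le_rfl zero_le_one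
    simpa using h
  obtain ⟨e, he0, he1, heε⟩ : ∃ e : ℝ, 0 < e ∧ e < 1 ∧ e ≤ ε :=
    ⟨min ε (1 / 2), lt_min hε (by norm_num), lt_of_le_of_lt (min_le_right _ _) (by norm_num),
      min_le_left _ _⟩
  obtain ⟨C1, hC1, hm⟩ := mean_bd hZ A hA β hβ hre e he0 he1
  obtain ⟨C0, hC0⟩ := hA.bd
  have hC00 : 0 ≤ C0 := by
    have h := (abs_nonneg _).trans (hC0 0 le_rfl)
    simpa using h
  refine ⟨C1 + 2 * K * (1 + 1 / ε) + C0 * Real.exp (3 / 4), by positivity, fun u hu => ?_⟩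
  have hEp : 1 ≤ Real.exp ((β + ε) * u) := Real.one_le_exp (by positivity)
  rcases le_total u 1 with hu1 | hu1
  · have h1 : Real.exp (3 / 4 * u) ≤ Real.exp (3 / 4) := Real.exp_le_exp.2 (by linarith)
    have h2 : |A u| ≤ C0 * Real.exp (3 / 4) :=
      (hC0 u hu).trans (mul_le_mul_of_nonneg_left h1 hC00)
    have h3 : 0 ≤ C1 + 2 * K * (1 + 1 / ε) := by positivity
    have h4 : 0 ≤ C0 * Real.exp (3 / 4) := by positivity
    calc |A u| ≤ C0 * Real.exp (3 / 4) := h2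
      _ ≤ C1 + 2 * K * (1 + 1 / ε) + C0 * Real.exp (3 / 4) := by linarith
      _ ≤ (C1 + 2 * K * (1 + 1 / ε) + C0 * Real.exp (3 / 4)) * Real.exp ((β + ε) * u) :=
        le_mul_of_one_le_right (by linarith) hEp
  · obtain ⟨t, ht⟩ : ∃ t : ℝ, t = Real.exp (-(u / 2)) := ⟨_, rfl⟩
    have ht0 : 0 < t := by rw [ht]; exact Real.exp_pos _
    have ht1 : t ≤ 1 := by
      rw [ht]
      exact Real.exp_le_one_iff.2 (by linarith)
    have hte : t * Real.exp (u / 2) = 1 := by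
      rw [ht, ← Real.exp_add, neg_add_cancel, Real.exp_zero]
    have h1 := hm u t hu1 ht0 ht1
    -- the variation
    have hi1 := GrA_int A hA u (u + t) hu
    have hi2 : IntegrableOn (fun _ : ℝ => A u) (Set.Ioc u (u + t)) := integrableOn_const (by simp)
    have h2 : ∫ s in Set.Ioc u (u + t), A u = t * A u := by
      rw [setIntegral_const]
      simp [measureReal_def, ht0.le]
    have h3 : |(∫ s in Set.Ioc u (u + t), A s) - ∫ s in Set.Ioc u (u + t), A u| ≤
        2 * K * (u + 1) * t := by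
      rw [← integral_sub hi1 hi2, ← Real.norm_eq_abs]
      have h4 := norm_setIntegral_le_of_norm_le_const (μ := volume) (s := Set.Ioc u (u + t))
        (f := fun s => A s - A u) (C := 2 * K * (u + 1)) (by simp) (fun s hs => by
          rw [Real.norm_eq_abs]
          have h5 := hvar u (s - u) hu (by linarith [hs.1]) (by linarith [hs.2])
          have h6 : u + (s - u) = s := by ring
          rw [h6] at h5
          refine h5.trans ?_
          have h7 : (s - u) * Real.exp (u / 2) ≤ 1 := by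
            rw [← hte]
            exact mul_le_mul_of_nonneg_right (by linarith [hs.2]) (Real.exp_pos _).le
          have h8 : 0 ≤ K * (u + 1) := by positivity
          nlinarith)
      refine h4.trans (le_of_eq ?_)
      simp [measureReal_def, ht0.le]
    have h4 : t * |A u| ≤ C1 * t ^ (1 - e) * Real.exp (β * u) + 2 * K * (u + 1) * t := by
      have h5 : t * |A u| = |t * A u| := by rw [abs_mul, abs_of_pos ht0]
      rw [h5, ← h2]
      have h6 := abs_sub_abs_le_abs_sub (∫ s in Set.Ioc u (u + t), A u)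
        (∫ s in Set.Ioc u (u + t), A s)
      rw [abs_sub_comm] at h6
      linarith
    have h5 : t ^ (1 - e) = t * Real.exp (e * (u / 2)) := by
      rw [Real.rpow_sub ht0, Real.rpow_one, ht, ← Real.exp_mul, div_eq_mul_inv, ← Real.exp_neg]
      congr 2
      ring
    have h6 : |A u| ≤ C1 * Real.exp (e * (u / 2)) * Real.exp (β * u) + 2 * K * (u + 1) := by
      rw [h5] at h4
      have h7 : t * |A u| ≤ t * (C1 * Real.exp (e * (u / 2)) * Real.exp (β * u) +
          2 * K * (u + 1)) := by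
        refine h4.trans (le_of_eq ?_)
        ring
      exact le_of_mul_le_mul_left h7 ht0
    have h7 : Real.exp (e * (u / 2)) * Real.exp (β * u) ≤ Real.exp ((β + ε) * u) := by
      rw [← Real.exp_add]
      refine Real.exp_le_exp.2 ?_
      nlinarith
    have h8 : u + 1 ≤ (1 + 1 / ε) * Real.exp ((β + ε) * u) := by
      have h9 : ε * u + 1 ≤ Real.exp (ε * u) := Real.add_one_le_exp _
      have h10 : Real.exp (ε * u) ≤ Real.exp ((β + ε) * u) := by
        refine Real.exp_le_exp.2 ?_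
        have : 0 ≤ β * u := by positivity
        nlinarith
      have h11 : u + 1 ≤ (1 + 1 / ε) * (ε * u + 1) := by
        have h12 : (1 + 1 / ε) * (ε * u + 1) = u + 1 + (ε * u + 1 / ε) := by
          field_simp
          ring
        rw [h12]
        have : 0 ≤ ε * u + 1 / ε := by positivity
        linarith
      refine h11.trans (mul_le_mul_of_nonneg_left (by linarith) (by positivity))
    have h9 := mul_le_mul_of_nonneg_left h7 hC1
    have h10 := mul_le_mul_of_nonneg_left h8 (by positivity : (0 : ℝ) ≤ 2 * K)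
    have h11 : 0 ≤ C0 * Real.exp (3 / 4) * Real.exp ((β + ε) * u) := by positivity
    nlinarith

end W3283v
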