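import Mathlib

set_option autoImplicit false

namespace W3283v

/-- One factor of a B-spline: `‖(e^z - 1)/z‖ ≥ 1 - ‖z‖` for `0 < ‖z‖ ≤ 1`. -/
theorem fac_low (z : ℂ) (hz : z ≠ 0) (hz1 : ‖z‖ ≤ 1) : 1 - ‖z‖ ≤ ‖(Complex.exp z - 1) / z‖ := by
  have h1 := Complex.norm_exp_sub_one_sub_id_le hz1
  have h2 : ‖z‖ - ‖z‖ ^ 2 ≤ ‖Complex.exp z - 1‖ := by
    have h3 : ‖z‖ ≤ ‖Complex.exp z - 1‖ + ‖Complex.exp z - 1 - z‖ := by
      have h4 : z = (Complex.exp z - 1) - (Complex.exp z - 1 - z) := by ring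
      calc ‖z‖ = ‖(Complex.exp z - 1) - (Complex.exp z - 1 - z)‖ := by rw [← h4]
        _ ≤ _ := norm_sub_le _ _
    linarith
  have h3 : 0 < ‖z‖ := norm_pos_iff.2 hz
  rw [norm_div, le_div_iff₀ h3]
  calc (1 - ‖z‖) * ‖z‖ = ‖z‖ - ‖z‖ ^ 2 := by ring
    _ ≤ _ := h2

/-- `‖((e^{zh} - 1)/(zh))^n‖ ≥ e^{-2 ‖z‖ n h}` if `‖z‖ h ≤ 1/2` (`1 - x ≥ e^{-2x}` for
`0 ≤ x ≤ 1/2`). -/
theorem spl_low (z : ℂ) (hz : z ≠ 0) (h : ℝ) (hh : 0 < h) (n : ℕ) (hz1 : ‖z‖ * h ≤ 1 / 2) :
    Real.exp (-(2 * ‖z‖ * n * h)) ≤ ‖((Complex.exp (z * h) - 1) / (z * h)) ^ n‖ := by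
  have hw : z * h ≠ 0 := mul_ne_zero hz (by exact_mod_cast hh.ne')
  have hwn : ‖z * (h : ℂ)‖ = ‖z‖ * h := by
    rw [norm_mul, Complex.norm_real, Real.norm_of_nonneg hh.le]
  have h1 := fac_low (z * h) hw (by rw [hwn]; linarith)
  rw [hwn] at h1
  have h0 : 0 ≤ ‖z‖ * h := by positivity
  have h2 : Real.exp (-(2 * (‖z‖ * h))) ≤ 1 - ‖z‖ * h := by
    rw [Real.exp_neg, inv_le_iff_one_le_mul₀ (Real.exp_pos _)]
    have h3 := Real.add_one_le_exp (2 * (‖z‖ * h))
    nlinarith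
  have h3 : Real.exp (-(2 * ‖z‖ * n * h)) = Real.exp (-(2 * (‖z‖ * h))) ^ n := by
    rw [← Real.exp_nat_mul]
    congr 1
    ring
  rw [h3, norm_pow]
  exact pow_le_pow_left₀ (Real.exp_pos _).le (h2.trans h1) n

/-- `‖((e^{zh} - 1)/(zh))^n‖ ≤ (3/(‖z‖ h))^n` if `Re z · h ≤ 1/2` (`e^{1/2} + 1 ≤ 3`). -/
theorem spl_up (z : ℂ) (h : ℝ) (hh : 0 < h) (n : ℕ) (hz : z.re * h ≤ 1 / 2) :
    ‖((Complex.exp (z * h) - 1) / (z * h)) ^ n‖ ≤ (3 / (‖z‖ * h)) ^ n := by
  rw [norm_pow]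
  refine pow_le_pow_left₀ (norm_nonneg _) ?_ n
  rw [norm_div, norm_mul, Complex.norm_real, Real.norm_of_nonneg hh.le]
  refine div_le_div_of_nonneg_right ?_ (by positivity)
  have h1 : ‖Complex.exp (z * h)‖ ≤ 2 := by
    rw [Complex.norm_exp]
    have h2 : (z * (h : ℂ)).re = z.re * h := by simp
    rw [h2]
    have h3 : Real.exp (z.re * h) ≤ Real.exp (1 / 2) := Real.exp_le_exp.2 hz
    have h4 : Real.exp (1 / 2) ≤ 2 := by
      have h5 := Real.exp_one_lt_d9
      have h6 : Real.exp (1 / 2) ^ 2 = Real.exp 1 := by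
        rw [← Real.exp_nat_mul]
        norm_num
      nlinarith [Real.exp_pos (1 / 2 : ℝ)]
    exact h3.trans h4
  calc ‖Complex.exp (z * h) - 1‖ ≤ ‖Complex.exp (z * h)‖ + ‖(1 : ℂ)‖ := norm_sub_le _ _
    _ ≤ 3 := by
      rw [norm_one]
      linarith

/-- `‖e^a - e^b‖ ≥ ‖a - b‖/2` for `‖a‖, ‖b‖ ≤ 1/10` (`e^b (e^{a-b} - 1)`, `‖e^b‖ ≥ e^{-1/10} ≥ 9/10`,
`‖e^w - 1‖ ≥ ‖w‖ (1 - ‖w‖)`). -/
theorem exp_sep (a b : ℂ) (ha : ‖a‖ ≤ 1 / 10) (hb : ‖b‖ ≤ 1 / 10) :
    ‖a - b‖ / 2 ≤ ‖Complex.exp a - Complex.exp b‖ := by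
  have hab : ‖a - b‖ ≤ 1 / 5 := by
    have := norm_sub_le a b
    linarith
  have h1 := Complex.norm_exp_sub_one_sub_id_le (x := a - b) (by linarith)
  have h2 : ‖a - b‖ - ‖a - b‖ ^ 2 ≤ ‖Complex.exp (a - b) - 1‖ := by
    have h3 : ‖a - b‖ ≤ ‖Complex.exp (a - b) - 1‖ + ‖Complex.exp (a - b) - 1 - (a - b)‖ := by
      have h4 : a - b = (Complex.exp (a - b) - 1) - (Complex.exp (a - b) - 1 - (a - b)) := by ring
      calc ‖a - b‖ = ‖(Complex.exp (a - b) - 1) - (Complex.exp (a - b) - 1 - (a - b))‖ := by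
            rw [← h4]
        _ ≤ _ := norm_sub_le _ _
    linarith
  have h3 : 9 / 10 ≤ ‖Complex.exp b‖ := by
    rw [Complex.norm_exp]
    have h4 := Complex.abs_re_le_norm b
    have h5 := (abs_le.1 h4).1
    have h6 := Real.add_one_le_exp b.re
    linarith
  have h4 : Complex.exp a - Complex.exp b = Complex.exp b * (Complex.exp (a - b) - 1) := by
    rw [mul_sub, ← Complex.exp_add, mul_one]
    congr 2
    ring
  rw [h4, norm_mul]
  have h5 : 0 ≤ ‖a - b‖ := norm_nonneg _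
  have h6 : 4 / 5 * ‖a - b‖ ≤ ‖Complex.exp (a - b) - 1‖ := by nlinarith
  calc ‖a - b‖ / 2 ≤ 9 / 10 * (4 / 5 * ‖a - b‖) := by nlinarith
    _ ≤ ‖Complex.exp b‖ * ‖Complex.exp (a - b) - 1‖ :=
      mul_le_mul h3 h6 (by positivity) (norm_nonneg _)

/-- Polynomials are smaller than exponentials. -/
theorem ParA_poly (C : ℝ) (k : ℕ) {c : ℝ} (hc : 0 < c) :
    ∀ᶠ U in Filter.atTop, C * U ^ k ≤ Real.exp (c * U) := by
  have h1 := isLittleO_pow_exp_pos_mul_atTop k hc
  have h2 := h1.bound (c := (|C| + 1)⁻¹) (by positivity)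
  filter_upwards [h2, Filter.eventually_ge_atTop (0 : ℝ)] with U hU hU0
  rw [Real.norm_of_nonneg (by positivity), Real.norm_of_nonneg (Real.exp_pos _).le] at hU
  have h3 : 0 < |C| + 1 := by positivity
  rw [inv_mul_eq_div, le_div_iff₀ h3] at hU
  calc C * U ^ k ≤ (|C| + 1) * U ^ k := by
        have := le_abs_self C
        gcongr
        linarith
    _ = U ^ k * (|C| + 1) := mul_comm _ _
    _ ≤ _ := hU

/-- The growth conditions on the parameters, for large `U`: `n = ⌈U⌉`, `h = η/(2n)`, `H = 6 e² n/η`,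
`r = 1/(10 H)`.  With `ν = ε η/(10000)` and `M ≤ ν H + N` factors everything is at most `e^{εU}`. -/
theorem par_num (η : ℝ) (hη : 0 < η) (hη1 : η ≤ 1) (ε : ℝ) (hε : 0 < ε) (hε1 : ε ≤ 1) (N : ℕ)
    (B D : ℝ) (hB : 0 < B) (hD : 0 < D) :
    ∃ U0 : ℝ, 1 ≤ U0 ∧ ∀ U : ℝ, U0 ≤ U → ∀ (n M : ℕ) (h H r : ℝ), n = ⌈U⌉₊ → h = η / (2 * n) →
      H = 6 * Real.exp 2 * n / η → r = 1 / (10 * H) →
      (M : ℝ) ≤ ε * η / 10000 * H + N →
      0 < h ∧ 0 < r ∧ r ≤ 1 / 10 ∧ 1 ≤ n ∧ B * h ≤ 1 / 2 ∧ B ≤ H ∧ 3 / (H * h) = Real.exp (-2) ∧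
      n * h + (M + 2) * r ≤ η ∧
      4 * 3 ^ M / h ≤ Real.exp (ε * U) ∧
      9 * 3 ^ M * Real.exp (-(2 * n)) ≤ Real.exp (-U) ∧
      Real.exp (-(ε * U)) ≤ Real.exp (-(2 * B * n * h)) *
        ((max 1 (20 * H / D)) ^ N * Real.exp (ε * η / 10000 * (20 * H)))⁻¹ * (D * r / 2) ^ 2 := by
  have e1 := ParA_poly (16 / η * Real.exp (2 * N)) 1 (c := ε / 2) (by positivity)
  have e2 := ParA_poly (9 * Real.exp (2 * N)) 0 (c := 1 / 2) (by positivity)
  have e3 := ParA_poly (Real.exp (B * η) * (1 + 1800 / (η * D)) ^ N * (1800 / (D * η)) ^ 2)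
    (N + 2) (c := ε / 2) (by positivity)
  obtain ⟨U0, hU0⟩ := Filter.eventually_atTop.1 (((e1.and e2).and e3).and
    ((Filter.eventually_ge_atTop (1 : ℝ)).and ((Filter.eventually_ge_atTop B).and
      (Filter.eventually_ge_atTop ((N : ℝ) + 2)))))
  refine ⟨max 1 U0, le_max_left _ _, ?_⟩
  intro U hU n M h H r hn hh hH hr hM
  obtain ⟨⟨⟨e1, e2⟩, e3⟩, hU1, hUB, hUN⟩ := hU0 U ((le_max_right _ _).trans hU)
  have hnU : U ≤ n := by
    rw [hn]
    exact Nat.le_ceil U
  have hnU2 : (n : ℝ) ≤ 2 * U := by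
    rw [hn]
    have := Nat.ceil_lt_add_one (a := U) (by linarith)
    linarith
  have hn1 : (1 : ℝ) ≤ n := hU1.trans hnU
  have hn0 : (0 : ℝ) < n := by linarith
  have hexp2 : Real.exp 2 ≤ 37 / 5 := by
    have h5 := Real.exp_one_lt_d9
    have h6 : Real.exp 2 = Real.exp 1 ^ 2 := by
      rw [← Real.exp_nat_mul]
      norm_num
    rw [h6]
    nlinarith [Real.exp_pos (1 : ℝ)]
  have hexp3 : 3 ≤ Real.exp 2 := by
    have := Real.add_one_le_exp (2 : ℝ)
    linarith
  have hh0 : 0 < h := by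
    rw [hh]
    positivity
  have hHn : H * η = 6 * Real.exp 2 * n := by
    rw [hH]
    field_simp
  have hH18 : 18 * n ≤ H * η := by
    rw [hHn]
    have := mul_le_mul_of_nonneg_right hexp3 hn0.le
    linarith
  have hH0 : 0 < H := by
    rw [hH]
    positivity
  have hHle : H * η ≤ H := mul_le_of_le_one_right hH0.le hη1
  have hHU : H * η ≤ 90 * U := by
    rw [hHn]
    have := mul_le_mul_of_nonneg_right hexp2 hn0.le
    linarith
  have hHU' : H ≤ 90 * U / η := by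
    rw [le_div_iff₀ hη]
    exact hHU
  have hr0 : 0 < r := by
    rw [hr]
    positivity
  have hHh : H * h = 3 * Real.exp 2 := by
    rw [hH, hh]
    field_simp
    ring
  have hnh : n * h = η / 2 := by
    rw [hh]
    field_simp
  have hrH : r * H = 1 / 10 := by
    rw [hr]
    field_simp
  -- the bound for `M`
  have hM2 : (M : ℝ) ≤ ε * U * (9 / 1000) + N := by
    have h1 : ε * η / 10000 * H ≤ ε * U * (9 / 1000) := by
      have h2 : ε * η / 10000 * H = ε * (H * η) / 10000 := by ring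
      rw [h2]
      have h3 : ε * (H * η) ≤ ε * (90 * U) := mul_le_mul_of_nonneg_left hHU hε.le
      linarith
    linarith
  have h3M : (3 : ℝ) ^ M ≤ Real.exp (2 * N) * Real.exp (ε * U / 50) := by
    calc (3 : ℝ) ^ M ≤ Real.exp 2 ^ M := pow_le_pow_left₀ (by norm_num) hexp3 M
      _ = Real.exp (M * 2) := by rw [← Real.exp_nat_mul]
      _ ≤ Real.exp (2 * N + ε * U / 50) := by
        apply Real.exp_le_exp.2
        linarith [mul_pos hε (show 0 < U by linarith)]
      _ = _ := Real.exp_add _ _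
  have hεU : 0 < ε * U := mul_pos hε (by linarith)
  have hεU2 : ε * U ≤ U := mul_le_of_le_one_left (by linarith) hε1
  refine ⟨hh0, hr0, ?_, by exact_mod_cast hn1, ?_, ?_, ?_, ?_, ?_, ?_, ?_⟩
  · -- `r ≤ 1/10`
    have h1 : 1 ≤ H := by linarith
    have := mul_le_mul_of_nonneg_left h1 hr0.le
    linarith
  · -- `B h ≤ 1/2`
    rw [hh, mul_div_assoc', div_le_iff₀ (by positivity)]
    have := mul_le_of_le_one_right hB.le hη1
    linarith
  · -- `B ≤ H`
    linarith
  · -- `3/(H h) = e^{-2}`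
    rw [hHh, Real.exp_neg]
    field_simp
  · -- `n h + (M + 2) r ≤ η`
    rw [hnh]
    have h1 : ((M : ℝ) + 2) * r ≤ (ε * η / 10000 * H + N + 2) * r :=
      mul_le_mul_of_nonneg_right (by linarith) hr0.le
    have h2 : (ε * η / 10000 * H + N + 2) * r = ε * η / 10000 * (r * H) + (N + 2) * r := by ring
    rw [h2, hrH] at h1
    have h3 : ((N : ℝ) + 2) * r ≤ η / 10 := by
      have h4 : ((N : ℝ) + 2) * r ≤ n * r := mul_le_mul_of_nonneg_right (by linarith) hr0.le
      have h5 : 18 * (n * r) ≤ η / 10 := by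
        have h6 : 18 * n * r ≤ H * η * r := mul_le_mul_of_nonneg_right hH18 hr0.le
        have h7 : H * η * r = η * (r * H) := by ring
        rw [h7, hrH] at h6
        linarith
      have h8 : 0 ≤ n * r := by positivity
      linarith
    have h4 : ε * η ≤ η := mul_le_of_le_one_left hη.le hε1
    linarith
  · -- `4 · 3^M / h ≤ e^{εU}`
    have h1 : 4 * 3 ^ M / h = 8 * n / η * 3 ^ M := by
      rw [hh]
      field_simp
      ring
    rw [h1]
    have h2 : 8 * (n : ℝ) / η ≤ 16 / η * U := by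
      rw [div_mul_eq_mul_div]
      refine div_le_div_of_nonneg_right ?_ hη.le
      linarith
    calc 8 * (n : ℝ) / η * 3 ^ M ≤ (16 / η * U) * (Real.exp (2 * N) * Real.exp (ε * U / 50)) :=
          mul_le_mul h2 h3M (by positivity) (by positivity)
      _ = (16 / η * Real.exp (2 * N) * U ^ 1) * Real.exp (ε * U / 50) := by ring
      _ ≤ Real.exp (ε / 2 * U) * Real.exp (ε * U / 50) :=
          mul_le_mul_of_nonneg_right e1 (Real.exp_pos _).le
      _ = Real.exp (ε / 2 * U + ε * U / 50) := (Real.exp_add _ _).symm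
      _ ≤ _ := Real.exp_le_exp.2 (by linarith)
  · -- `9 · 3^M e^{-2n} ≤ e^{-U}`
    rw [pow_zero, mul_one] at e2
    calc 9 * 3 ^ M * Real.exp (-(2 * n))
        ≤ 9 * (Real.exp (2 * N) * Real.exp (ε * U / 50)) * Real.exp (-(2 * U)) := by
          have h1 : Real.exp (-(2 * (n : ℝ))) ≤ Real.exp (-(2 * U)) :=
            Real.exp_le_exp.2 (by linarith)
          gcongr
      _ = (9 * Real.exp (2 * N)) * (Real.exp (ε * U / 50) * Real.exp (-(2 * U))) := by ring
      _ ≤ Real.exp (1 / 2 * U) * (Real.exp (ε * U / 50) * Real.exp (-(2 * U))) :=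
          mul_le_mul_of_nonneg_right e2 (by positivity)
      _ = Real.exp (1 / 2 * U + (ε * U / 50 + -(2 * U))) := by
          rw [Real.exp_add, Real.exp_add]
      _ ≤ _ := Real.exp_le_exp.2 (by linarith)
  · -- the last inequality
    have hX : max 1 (20 * H / D) ≤ (1 + 1800 / (η * D)) * U := by
      refine max_le ?_ ?_
      · have h1 : 0 ≤ 1800 / (η * D) * U := by positivity
        linarith
      · have h1 : 20 * H / D ≤ 1800 / (η * D) * U := by
          rw [div_le_iff₀ hD]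
          have h2 : 1800 / (η * D) * U * D = 20 * (90 * U / η) := by
            field_simp
            ring
          rw [h2]
          linarith
        linarith
    have hX1 : 1 ≤ max 1 (20 * H / D) := le_max_left _ _
    have hQ : Real.exp (ε * η / 10000 * (20 * H)) ≤ Real.exp (ε * U / 5) := by
      apply Real.exp_le_exp.2
      have h2 : ε * η / 10000 * (20 * H) = ε * (H * η) * 20 / 10000 := by ring
      rw [h2]
      have h3 : ε * (H * η) ≤ ε * (90 * U) := mul_le_mul_of_nonneg_left hHU hε.le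
      linarith
    have hDr : D * η / 1800 / U ≤ D * r / 2 := by
      have h1 : η / (900 * U) ≤ r := by
        rw [hr, div_le_div_iff₀ (by linarith) (by positivity)]
        linarith
      have h2 : D * η / 1800 / U = D * (η / (900 * U)) / 2 := by
        field_simp
        ring
      rw [h2]
      gcongr
    have h2B : 2 * B * n * h = B * η := by
      have : 2 * B * n * h = 2 * B * (n * h) := by ring
      rw [this, hnh]
      ring
    rw [h2B]
    have hU0' : 0 < U := by linarith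
    calc Real.exp (-(ε * U)) ≤ Real.exp (-(B * η)) *
          ((((1 + 1800 / (η * D)) * U) ^ N * Real.exp (ε * U / 5))⁻¹) *
            (D * η / 1800 / U) ^ 2 := by
          have h1 : (D * η / 1800 / U) ^ 2 = ((1800 / (D * η)) ^ 2 * U ^ 2)⁻¹ := by
            field_simp
          rw [Real.exp_neg, Real.exp_neg, h1, ← mul_inv, ← mul_inv]
          refine inv_anti₀ (by positivity) ?_
          calc Real.exp (B * η) * (((1 + 1800 / (η * D)) * U) ^ N * Real.exp (ε * U / 5)) *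
              ((1800 / (D * η)) ^ 2 * U ^ 2)
              = (Real.exp (B * η) * (1 + 1800 / (η * D)) ^ N * (1800 / (D * η)) ^ 2 *
                  U ^ (N + 2)) * Real.exp (ε * U / 5) := by
                rw [mul_pow, pow_add]
                ring
            _ ≤ Real.exp (ε / 2 * U) * Real.exp (ε * U / 5) :=
                mul_le_mul_of_nonneg_right e3 (Real.exp_pos _).le
            _ = Real.exp (ε / 2 * U + ε * U / 5) := (Real.exp_add _ _).symm
            _ ≤ Real.exp (ε * U) := Real.exp_le_exp.2 (by linarith)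
      _ ≤ _ := by
          have h1 : (((1 + 1800 / (η * D)) * U) ^ N * Real.exp (ε * U / 5))⁻¹ ≤
              ((max 1 (20 * H / D)) ^ N * Real.exp (ε * η / 10000 * (20 * H)))⁻¹ := by
            refine inv_anti₀ (by positivity) ?_
            exact mul_le_mul (pow_le_pow_left₀ (by linarith) hX N) hQ (Real.exp_pos _).le
              (by positivity)
          have h2 : (D * η / 1800 / U) ^ 2 ≤ (D * r / 2) ^ 2 :=
            pow_le_pow_left₀ (by positivity) hDr 2
          exact mul_le_mul (mul_le_mul_of_nonneg_left h1 (Real.exp_pos _).le) h2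
            (by positivity) (by positivity)

end W3283v
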