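import Pool.Agent.W_3283e1_v3.Defs

set_option autoImplicit false

namespace W3283v

open MeasureTheory

/-- A bounded measurable function with bounded support is integrable, also after multiplication by
a continuous function. -/
theorem kb_int {q : ℝ → ℂ} {η Q : ℝ} (h : KB q η Q) (f : ℝ → ℂ) (hf : Continuous f) :
    Integrable (fun v => q v * f v) := by
  have hs : Function.support (fun v => q v * f v) ⊆ Set.Icc 0 η := by
    intro v hv
    rw [Function.mem_support] at hv
    constructor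
    · by_contra h0
      exact hv (by rw [h.neg v (not_le.1 h0), zero_mul])
    · by_contra h0
      exact hv (by rw [h.pos v (not_le.1 h0), zero_mul])
  rw [← integrableOn_iff_integrable_of_support_subset hs]
  have h1 : IntegrableOn f (Set.Icc 0 η) := hf.continuousOn.integrableOn_Icc
  exact Integrable.bdd_mul h1 h.meas.aestronglyMeasurable (c := Q)
    (Filter.Eventually.of_forall h.bd)

theorem Ker_shift {q : ℝ → ℂ} (f : ℝ → ℂ) (r : ℝ) :
    ∫ v : ℝ, q (v - r) * f v = ∫ v : ℝ, q v * f (v + r) := by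
  have h := integral_sub_right_eq_self (μ := (volume : Measure ℝ)) (fun v => q v * f (v + r)) r
  rw [← h]
  simp only [sub_add_cancel]

theorem Ker_shift_int {q : ℝ → ℂ} {η Q : ℝ} (h : KB q η Q) (f : ℝ → ℂ) (hf : Continuous f)
    (r : ℝ) : Integrable (fun v => q (v - r) * f v) := by
  have h1 := (kb_int h (fun v => f (v + r)) (by fun_prop)).comp_sub_right r
  simpa only [sub_add_cancel] using h1

theorem Ker_hat_shift {q : ℝ → ℂ} (w : ℂ) (r : ℝ) :
    ∫ v : ℝ, q (v - r) * Complex.exp (w * v) = Complex.exp (w * r) * hat q w := by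
  rw [Ker_shift (fun v : ℝ => Complex.exp (w * v)) r]
  unfold hat
  rw [← integral_const_mul]
  refine integral_congr_ae (Filter.Eventually.of_forall fun v => ?_)
  simp only
  rw [Complex.ofReal_add, mul_add, Complex.exp_add]
  ring

theorem Ker_avg_hat {q : ℝ → ℂ} {η Q : ℝ} (hq : KB q η Q) (h : ℝ) (w : ℂ) :
    hat (fun v => ((1 / h : ℝ) : ℂ) * ∫ t in Set.Ioc 0 h, q (v - t)) w =
      ((1 / h : ℝ) : ℂ) * ((∫ t in Set.Ioc 0 h, Complex.exp (w * (t : ℝ))) * hat q w) := by
  have hQ : 0 ≤ Q := (norm_nonneg _).trans (hq.bd 0)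
  have h1 : ∀ v : ℝ, (((1 / h : ℝ) : ℂ) * ∫ t in Set.Ioc 0 h, q (v - t)) * Complex.exp (w * v) =
      ((1 / h : ℝ) : ℂ) * ∫ t in Set.Ioc 0 h, q (v - t) * Complex.exp (w * v) := by
    intro v
    rw [integral_mul_const, mul_assoc]
  have hint : Integrable (Function.uncurry fun (v t : ℝ) => q (v - t) * Complex.exp (w * v))
      ((volume : Measure ℝ).prod (volume.restrict (Set.Ioc 0 h))) := by
    have hm : Measurable (Function.uncurry fun (v t : ℝ) => q (v - t) * Complex.exp (w * v)) := by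
      have hq1 := hq.meas
      unfold Function.uncurry
      fun_prop
    have hg1 : Integrable (fun v : ℝ => Q * ‖(Set.Icc 0 (η + h)).indicator
        (fun v : ℝ => Complex.exp (w * v)) v‖) := by
      refine Integrable.const_mul (Integrable.norm ?_) Q
      rw [integrable_indicator_iff measurableSet_Icc]
      exact Continuous.integrableOn_Icc (by fun_prop)
    have hg2 : Integrable (fun _ : ℝ => (1 : ℝ)) (volume.restrict (Set.Ioc 0 h)) :=
      integrable_const _
    refine Integrable.mono' (hg1.mul_prod hg2) hm.aestronglyMeasurable ?_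
    have hr : (volume : Measure ℝ).prod (volume.restrict (Set.Ioc 0 h)) =
        ((volume : Measure ℝ).prod volume).restrict (Set.univ ×ˢ Set.Ioc 0 h) := by
      rw [← Measure.prod_restrict, Measure.restrict_univ]
    rw [hr]
    refine ae_restrict_of_forall_mem (MeasurableSet.univ.prod measurableSet_Ioc) ?_
    rintro ⟨v, t⟩ ⟨-, ht⟩
    have ht1 : 0 < t := ht.1
    have ht2 : t ≤ h := ht.2
    change ‖q (v - t) * Complex.exp (w * v)‖ ≤ Q * ‖(Set.Icc 0 (η + h)).indicator
        (fun v : ℝ => Complex.exp (w * v)) v‖ * 1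
    rw [mul_one, norm_mul]
    by_cases hv : v ∈ Set.Icc 0 (η + h)
    · rw [Set.indicator_of_mem hv]
      exact mul_le_mul_of_nonneg_right (hq.bd _) (norm_nonneg _)
    · have h0 : q (v - t) = 0 := by
        rw [Set.mem_Icc, not_and_or] at hv
        rcases hv with hv | hv
        · exact hq.neg _ (by linarith)
        · exact hq.pos _ (by linarith)
      rw [h0, norm_zero, zero_mul]
      exact mul_nonneg hQ (norm_nonneg _)
  unfold hat
  simp only [h1]
  rw [integral_const_mul, integral_integral_swap hint]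
  congr 1
  rw [← integral_mul_const]
  refine integral_congr_ae (Filter.Eventually.of_forall fun t => ?_)
  exact Ker_hat_shift w t

/-- Averaging: if `q` is supported in `[0, η]` then `q' v = h⁻¹ ∫_0^h q (v - t) dt` is supported in
`[0, η + h]`, has the same bound, and `hat q' w = (e^{wh} - 1)/(w h) · hat q w` (Fubini; for `w = 0`
the factor is `1`). -/
theorem ker_avg {q : ℝ → ℂ} {η Q : ℝ} (hq : KB q η Q) (h : ℝ) (hh : 0 < h) :
    ∃ q' : ℝ → ℂ, KB q' (η + h) Q ∧ hat q' 0 = hat q 0 ∧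
      ∀ w : ℂ, w ≠ 0 → hat q' w = (Complex.exp (w * h) - 1) / (w * h) * hat q w := by
  have hQ : 0 ≤ Q := (norm_nonneg _).trans (hq.bd 0)
  have hc : (h : ℂ) ≠ 0 := by exact_mod_cast hh.ne'
  refine ⟨fun v => ((1 / h : ℝ) : ℂ) * ∫ t in Set.Ioc 0 h, q (v - t), ⟨?_, ?_, ?_, ?_⟩, ?_, ?_⟩
  · have hm : Measurable (Function.uncurry fun (v t : ℝ) => q (v - t)) := by
      have hq1 := hq.meas
      unfold Function.uncurry
      fun_prop
    have h1 : StronglyMeasurable fun v => ∫ t in Set.Ioc 0 h, q (v - t) :=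
      hm.stronglyMeasurable.integral_prod_right
    exact h1.measurable.const_mul _
  · intro v hv
    have h0 : ∫ t in Set.Ioc 0 h, q (v - t) = 0 := by
      refine setIntegral_eq_zero_of_forall_eq_zero fun t ht => ?_
      have ht1 : 0 < t := ht.1
      exact hq.neg _ (by linarith)
    simp only [h0, mul_zero]
  · intro v hv
    have h0 : ∫ t in Set.Ioc 0 h, q (v - t) = 0 := by
      refine setIntegral_eq_zero_of_forall_eq_zero fun t ht => ?_
      have ht2 : t ≤ h := ht.2
      exact hq.pos _ (by linarith)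
    simp only [h0, mul_zero]
  · intro v
    have h1 : ‖∫ t in Set.Ioc 0 h, q (v - t)‖ ≤ Q * volume.real (Set.Ioc 0 h) :=
      norm_setIntegral_le_of_norm_le_const (by simp) (fun t _ => hq.bd _)
    have h2 : volume.real (Set.Ioc 0 h) = h := by
      rw [Real.volume_real_Ioc_of_le hh.le, sub_zero]
    rw [h2] at h1
    rw [norm_mul, Complex.norm_real, Real.norm_of_nonneg (by positivity)]
    calc 1 / h * ‖∫ t in Set.Ioc 0 h, q (v - t)‖ ≤ 1 / h * (Q * h) :=
          mul_le_mul_of_nonneg_left h1 (by positivity)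
      _ = Q := by field_simp
  · rw [Ker_avg_hat hq h 0]
    have h1 : ∫ t in Set.Ioc 0 h, Complex.exp (0 * (t : ℝ)) = (h : ℂ) := by
      simp only [zero_mul, Complex.exp_zero]
      rw [setIntegral_const, Real.volume_real_Ioc_of_le hh.le, sub_zero]
      simp
    rw [h1]
    push_cast
    field_simp
  · intro w hw
    rw [Ker_avg_hat hq h w, ← intervalIntegral.integral_of_le hh.le, integral_exp_mul_complex hw]
    push_cast
    rw [mul_zero, Complex.exp_zero]
    field_simp

theorem Ker_dif_kb {q : ℝ → ℂ} {η Q : ℝ} (hq : KB q η Q) (r : ℝ) (hr : 0 ≤ r) (c : ℂ) :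
    KB (fun v => q (v - r) - c * q v) (η + r) ((1 + ‖c‖) * Q) := by
  refine ⟨?_, ?_, ?_, ?_⟩
  · have hq1 := hq.meas
    fun_prop
  · intro v hv
    rw [hq.neg v hv, hq.neg (v - r) (by linarith), mul_zero, sub_zero]
  · intro v hv
    rw [hq.pos v (by linarith), hq.pos (v - r) (by linarith), mul_zero, sub_zero]
  · intro v
    calc ‖q (v - r) - c * q v‖ ≤ ‖q (v - r)‖ + ‖c * q v‖ := norm_sub_le _ _
      _ ≤ Q + ‖c‖ * Q := by
          rw [norm_mul]
          exact add_le_add (hq.bd _) (mul_le_mul_of_nonneg_left (hq.bd _) (norm_nonneg _))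
      _ = (1 + ‖c‖) * Q := by ring

theorem Ker_dif_hat {q : ℝ → ℂ} {η Q : ℝ} (hq : KB q η Q) (r : ℝ) (c w : ℂ) :
    hat (fun v => q (v - r) - c * q v) w = (Complex.exp (w * r) - c) * hat q w := by
  have h1 : ∀ v : ℝ, (q (v - r) - c * q v) * Complex.exp (w * v) =
      q (v - r) * Complex.exp (w * v) - c * (q v * Complex.exp (w * v)) := by
    intro v
    ring
  have h2 : hat (fun v => q (v - r) - c * q v) w = ∫ v : ℝ, (q (v - r) * Complex.exp (w * v) -
      c * (q v * Complex.exp (w * v))) := by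
    unfold hat
    simp only [h1]
  rw [h2, integral_sub (Ker_shift_int hq (fun v : ℝ => Complex.exp (w * v)) (by fun_prop) r)
    ((kb_int hq (fun v : ℝ => Complex.exp (w * v)) (by fun_prop)).const_mul c),
    Ker_hat_shift, integral_const_mul]
  unfold hat
  ring

/-- Difference: `q' v = q (v - r) - c q v` has `hat q' w = (e^{wr} - c) hat q w`. -/
theorem ker_dif {q : ℝ → ℂ} {η Q : ℝ} (hq : KB q η Q) (r : ℝ) (hr : 0 ≤ r) (hη : 0 ≤ η) (c : ℂ) :
    ∃ q' : ℝ → ℂ, KB q' (η + r) ((1 + ‖c‖) * Q) ∧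
      ∀ w : ℂ, hat q' w = (Complex.exp (w * r) - c) * hat q w :=
  ⟨_, Ker_dif_kb hq r hr c, fun w => Ker_dif_hat hq r c w⟩

theorem Ker_int_eq_hat (q : ℝ → ℂ) : ∫ v : ℝ, q v = hat q 0 := by
  unfold hat
  simp

/-- The second difference `q (v - 2r) - 2 q (v - r) + q v`: its integral and its first moment
vanish (translation invariance of the integral). -/
theorem ker_two {q : ℝ → ℂ} {η Q : ℝ} (hq : KB q η Q) (r : ℝ) (hr : 0 ≤ r) (hη : 0 ≤ η) :
    ∃ q' : ℝ → ℂ, KB q' (η + 2 * r) (4 * Q) ∧ ∫ v : ℝ, q' v = 0 ∧ ∫ v : ℝ, q' v * v = 0 ∧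
      ∀ w : ℂ, hat q' w = (Complex.exp (w * r) - 1) ^ 2 * hat q w := by
  obtain ⟨q1, hq1⟩ : ∃ q1 : ℝ → ℂ, q1 = fun v => q (v - r) - 1 * q v := ⟨_, rfl⟩
  have hk1 : KB q1 (η + r) ((1 + ‖(1 : ℂ)‖) * Q) := by
    rw [hq1]
    exact Ker_dif_kb hq r hr 1
  have hh1 : ∀ w : ℂ, hat q1 w = (Complex.exp (w * r) - 1) * hat q w := by
    intro w
    rw [hq1]
    exact Ker_dif_hat hq r 1 w
  have hk2 := Ker_dif_kb hk1 r hr 1
  have hh2 := fun w : ℂ => Ker_dif_hat hk1 r 1 w
  have h10 : ∫ v : ℝ, q1 v = 0 := by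
    rw [Ker_int_eq_hat, hh1, zero_mul, Complex.exp_zero, sub_self, zero_mul]
  refine ⟨fun v => q1 (v - r) - 1 * q1 v, ?_, ?_, ?_, ?_⟩
  · have e1 : η + r + r = η + 2 * r := by ring
    have e2 : (1 + ‖(1 : ℂ)‖) * ((1 + ‖(1 : ℂ)‖) * Q) = 4 * Q := by
      rw [norm_one]
      ring
    rw [e1, e2] at hk2
    exact hk2
  · rw [Ker_int_eq_hat, hh2, zero_mul, Complex.exp_zero, sub_self, zero_mul]
  · have h1 : ∀ v : ℝ, (q1 (v - r) - 1 * q1 v) * (v : ℂ) =
        q1 (v - r) * (v : ℂ) - q1 v * (v : ℂ) := by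
      intro v
      ring
    simp only [h1]
    have i0 : Integrable (fun v : ℝ => q1 v * (v : ℂ)) :=
      kb_int hk1 (fun v : ℝ => (v : ℂ)) (by fun_prop)
    have i1 : Integrable (fun v : ℝ => q1 v * (r : ℂ)) :=
      kb_int hk1 (fun _ : ℝ => (r : ℂ)) (by fun_prop)
    rw [integral_sub (Ker_shift_int hk1 (fun v : ℝ => (v : ℂ)) (by fun_prop) r) i0,
      Ker_shift (fun v : ℝ => (v : ℂ)) r]
    have h2 : ∀ v : ℝ, q1 v * ((v + r : ℝ) : ℂ) = q1 v * (v : ℂ) + q1 v * (r : ℂ) := by
      intro v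
      push_cast
      ring
    simp only [h2]
    rw [integral_add i0 i1, integral_mul_const, h10, zero_mul, add_zero, sub_self]
  · intro w
    rw [hh2, hh1]
    ring

end W3283v
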