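import Pool.Agent.W_3283e1_lw.Defs

set_option autoImplicit false

/-! Local theory of the BSD product without the Riemann hypothesis.  `lam i` are the zeros `λ` of the
completed L-function at the centre `0`, one from each pair `±λ`, with `Re λ ≥ 0`, `m i` the
multiplicities. -/

namespace W3283v

open MeasureTheory

/-- The zeros: distinct, nonzero, `0 ≤ Re λ ≤ 1/2`, and the absolute values have the counting
properties `W3283l.ZD` (so `W3283l.cnt` applies to them). -/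
structure ZC {ι : Type} (lam : ι → ℂ) (m : ι → ℝ) : Prop where
  inj : Function.Injective lam
  re0 : ∀ i, 0 ≤ (lam i).re
  re1 : ∀ i, (lam i).re ≤ 1 / 2
  ne : ∀ i, lam i ≠ 0
  zd : W3283l.ZD (fun i => ‖lam i‖) m

/-- The primitive of `om`. -/
noncomputable def Om1 (u : ℝ) : ℝ := ∫ t in Set.Ioc 0 u, W3283l.om t

/-- A function with an explicit formula. -/
structure EFC {ι : Type} (lam : ι → ℂ) (m : ι → ℝ) (A : ℝ → ℝ) : Prop where
  meas : Measurable A
  bd : ∃ C : ℝ, ∀ u : ℝ, 0 ≤ u → |A u| ≤ C * Real.exp (3 / 4 * u)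
  ex : ∃ c3 : ℝ, ∀ u : ℝ, 0 ≤ u → ((∫ t in Set.Ioc 0 u, A t : ℝ) : ℂ) =
    (∑' i, 2 * (m i : ℂ) / (lam i) ^ 2 * (Complex.cosh (lam i * u) - 1)) + c3 * u - (Om1 u : ℂ)

/-- The transform of a kernel. -/
noncomputable def hat (q : ℝ → ℂ) (w : ℂ) : ℂ := ∫ v : ℝ, q v * Complex.exp (w * v)

/-- `q` is a bounded measurable kernel supported in `[0, η]`. -/
structure KB (q : ℝ → ℂ) (η Q : ℝ) : Prop where
  meas : Measurable q
  neg : ∀ v : ℝ, v < 0 → q v = 0
  pos : ∀ v : ℝ, η < v → q v = 0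
  bd : ∀ v : ℝ, ‖q v‖ ≤ Q

end W3283v
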