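import Pool.Agent.W_3283e1_v3.HadG
import Pool.Agent.W_3283e1_v3.Defs
import Pool.Agent.W_3283e1_lw.Fam

set_option autoImplicit false

namespace W3283v

open Complex W3283e1 W3283f W3283l MeasureTheory Filter Topology

/-- The zeros of the completed L-function of the family in the half-plane and their multiplicities. -/
noncomputable def laF (n j : ℕ) (i : ZH (fF' n j)) : ℂ := (i : ℂ)

noncomputable def meF (n j : ℕ) (i : ZH (fF' n j)) : ℝ := analyticOrderNatAt (fF' n j) (i : ℂ)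

/-- No zeros beyond `1/2`: `LG_exp` (`LG (1+s) = exp (...) ≠ 0` for `Re s > 1/2`) with `LamG_fac_eq`, and the
functional equation. -/
theorem fam_re (n j : ℕ) (hj : j = 0 ∨ j = 1) (hn : Odd n) (hs : Squarefree n) (s : ℂ)
    (h : fF' n j s = 0) : |s.re| ≤ 1 / 2 := by
  have hT := thData_fam n j hj hn hs
  have key : ∀ z : ℂ, fF' n j z = 0 → ¬ 1 / 2 < z.re := by
    intro z hz hpos
    have h1 := LamG_zero _ _ _ hT z (by linarith) hz
    rw [LG_exp n j hj hn hs z hpos] at h1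
    exact Complex.exp_ne_zero _ h1
  have h1 := key s h
  have h2 : fF' n j (-s) = 0 := by
    unfold fF'
    rw [(LamG_basic _ _ _ hT).2.1 s]
    unfold fF' at h
    rw [h, mul_zero]
  have h3 := key (-s) h2
  rw [Complex.neg_re] at h3
  rw [abs_le]
  constructor <;> linarith

/-- Zeros of `fF'` and of `LLF`: for `Re s > 0` (indeed `Re s > -1/4`), `fF' n j s = 0 ↔ LLF n j (1+s) = 0`
(`LamG_zero`, `LamG_fac_eq`, `LamG_fac_ne`, `uF_good`; see `fF_re` in `W_3283e1_lw/Fam.lean`). -/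
theorem fam_zero (n j : ℕ) (hj : j = 0 ∨ j = 1) (hn : Odd n) (hs : Squarefree n) (s : ℂ)
    (h : 0 < s.re) : fF' n j s = 0 ↔ LLF n j (1 + s) = 0 := by
  have hT := thData_fam n j hj hn hs
  have hu := (uF_good n j hn (1 + s) (by
    rw [Complex.add_re, Complex.one_re]
    linarith)).2
  have hfac := LamG_fac_ne (kF n j) hT.κpos s (by linarith)
  unfold LLF
  rw [LamG_fac_eq, mul_assoc, mul_eq_zero, mul_eq_zero]
  constructor
  · intro h0
    exact Or.inr (Or.inl h0)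
  · rintro (h0 | h0 | h0)
    · exact absurd h0 hfac
    · exact h0
    · exact absurd h0 hu

theorem FamG_ne (n j : ℕ) (hj : j = 0 ∨ j = 1) (hn : Odd n) (hs : Squarefree n) :
    ∃ z, fF' n j z ≠ 0 := by
  refine ⟨1, fun h => ?_⟩
  have := (abs_le.1 (fam_re n j hj hn hs 1 h)).2
  rw [Complex.one_re] at this
  linarith

/-- As `W3283l.log_id`, with `hadG` in place of `had`. -/
theorem log_idG (n j : ℕ) (hj : j = 0 ∨ j = 1) (hn : Odd n) (hs : Squarefree n) (s : ℂ)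
    (h : 1 / 2 < s.re) :
    Summable (fun i => 2 * (meF n j i : ℂ) * s / (s ^ 2 - (laF n j i) ^ 2)) ∧
    -ES (fun i => vL i * cA (aL n j) i) vL s =
      Real.log (Real.pi * kF n j) - Complex.digamma (1 + s) +
        (analyticOrderNatAt (fF' n j) 0 : ℂ) / s +
        ∑' i, 2 * (meF n j i : ℂ) * s / (s ^ 2 - (laF n j i) ^ 2) := by
  have hT := thData_fam n j hj hn hs
  obtain ⟨hd, hsym, C, hgr⟩ := LamG_basic _ _ _ hT
  have hne := FamG_ne n j hj hn hs
  have hs0 : 0 < s.re := by linarith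
  have hhad := (hadG (fF' n j) hd hne (eF n j : ℂ) (by
    rcases hT.eps with h1 | h1
    · left; rw [h1]; simp
    · right; rw [h1]; simp) hsym C hgr (fun z hz => fam_re n j hj hn hs z hz)).2 s h
  have hmu : ∀ i : ZH (fF' n j), ((meF n j i : ℝ) : ℂ) =
      (analyticOrderNatAt (fF' n j) (i : ℂ) : ℂ) := by
    intro i
    unfold meF
    exact Complex.ofReal_natCast _
  have hga : ∀ i : ZH (fF' n j), laF n j i = (i : ℂ) := fun i => rfl
  simp only [hmu, hga]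
  refine ⟨hhad.1, ?_⟩
  have hLam : LamG (aFam n j) (kF n j) s ≠ 0 := by
    intro h0
    have := (abs_le.1 (fam_re n j hj hn hs s h0)).2
    linarith
  have hfac := LamG_fac_ne (kF n j) hT.κpos s (by linarith)
  have hDS := ds_cA (aL n j) (1 / 2) (by norm_num) (by norm_num) (aL_bd n j)
  have hES : HasDerivAt (ES (cA (aL n j)) vL) (-ES (fun i => vL i * cA (aL n j) i) vL s) s :=
    es_deriv hDS s (by linarith)
  -- logarithmic derivative of the product
  have h1 : logDeriv (fun z => LamG_fac (kF n j) z * LamG (aFam n j) (kF n j) z) s =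
      logDeriv (LamG_fac (kF n j)) s + logDeriv (LamG (aFam n j) (kF n j)) s :=
    logDeriv_mul s hfac hLam (LamG_fac_diff _ hT.κpos s) (hd s)
  have h2 : (fun z => LamG_fac (kF n j) z * LamG (aFam n j) (kF n j) z) =ᶠ[𝓝 s]
      fun z => Complex.exp (ES (cA (aL n j)) vL z) := by
    have ho : {z : ℂ | 1 / 2 < z.re} ∈ 𝓝 s :=
      (isOpen_lt continuous_const Complex.continuous_re).mem_nhds h
    filter_upwards [ho] with z hz
    rw [← LamG_fac_eq]
    exact LG_exp n j hj hn hs z hz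
  have h3 : logDeriv (fun z => LamG_fac (kF n j) z * LamG (aFam n j) (kF n j) z) s =
      -ES (fun i => vL i * cA (aL n j) i) vL s := by
    have h2' : LamG_fac (kF n j) s * LamG (aFam n j) (kF n j) s =
        Complex.exp (ES (cA (aL n j)) vL s) := h2.self_of_nhds
    rw [logDeriv_apply, h2.deriv_eq, h2', hES.cexp.deriv]
    rw [mul_comm, mul_div_assoc, div_self (Complex.exp_ne_zero _), mul_one]
  have h4 : logDeriv (LamG_fac (kF n j)) s =
      Real.log (Real.pi * kF n j) - Complex.digamma (1 + s) := by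
    have hpk := LG_pk_pos (kF n j) hT.κpos
    have hpkn := LG_pk_ne (kF n j) hT.κpos
    have hG : Complex.Gamma (1 + s) ≠ 0 := Complex.Gamma_ne_zero_of_re_pos (by
      rw [Complex.add_re, Complex.one_re]
      linarith)
    have hGd : DifferentiableAt ℂ Complex.Gamma (1 + s) :=
      Complex.differentiableAt_Gamma _ (fun m hm => by
        have := congrArg Complex.re hm
        rw [Complex.add_re, Complex.one_re, Complex.neg_re, Complex.natCast_re] at this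
        have h5 : (0 : ℝ) ≤ m := Nat.cast_nonneg m
        linarith)
    have e1 : logDeriv (fun z : ℂ => ((Real.pi * kF n j : ℝ) : ℂ) ^ (1 + z)) s =
        Real.log (Real.pi * kF n j) := by
      rw [logDeriv_apply]
      have h6 : HasDerivAt (fun z : ℂ => ((Real.pi * kF n j : ℝ) : ℂ) ^ (1 + z))
          (((Real.pi * kF n j : ℝ) : ℂ) ^ (1 + s) * Complex.log ((Real.pi * kF n j : ℝ) : ℂ) * 1)
          s := ((hasDerivAt_id s).const_add 1).const_cpow (Or.inl hpkn)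
      rw [h6.deriv, mul_one, mul_comm, mul_div_assoc, div_self, mul_one, Complex.ofReal_log hpk.le]
      rw [Ne, Complex.cpow_eq_zero_iff]
      exact fun h' => hpkn h'.1
    have e2 : logDeriv (fun z : ℂ => Complex.Gamma (1 + z)) s = Complex.digamma (1 + s) := by
      rw [logDeriv_apply, Complex.digamma_def, logDeriv_apply]
      rw [deriv_comp_const_add]
    have e3 : logDeriv (fun z : ℂ => ((Real.pi * kF n j : ℝ) : ℂ) ^ (1 + z) /
        Complex.Gamma (1 + z)) s = logDeriv (fun z : ℂ => ((Real.pi * kF n j : ℝ) : ℂ) ^ (1 + z)) s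
          - logDeriv (fun z : ℂ => Complex.Gamma (1 + z)) s := by
      refine logDeriv_div s ?_ hG ?_ ?_
      · rw [Ne, Complex.cpow_eq_zero_iff]
        exact fun h' => hpkn h'.1
      · exact (differentiableAt_id.const_add 1).const_cpow (Or.inl hpkn)
      · exact hGd.comp s (differentiableAt_id.const_add 1)
    have e4 : LamG_fac (kF n j) = fun z : ℂ => ((Real.pi * kF n j : ℝ) : ℂ) ^ (1 + z) /
        Complex.Gamma (1 + z) := by
      funext z
      unfold LamG_fac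
      rw [div_eq_mul_inv]
    rw [e4, e3, e1, e2]
  have h5 : logDeriv (LamG (aFam n j) (kF n j)) s = (analyticOrderNatAt (fF' n j) 0 : ℂ) / s +
      ∑' i : ZH (fF' n j), 2 * (analyticOrderNatAt (fF' n j) (i : ℂ) : ℂ) * s /
        (s ^ 2 - (i : ℂ) ^ 2) := by
    rw [logDeriv_apply]
    exact hhad.2
  rw [← h3, h1, h4, h5]
  ring

/-- From real parts to absolute values: for `z ≥ 1`, `0 ≤ Re λ ≤ 1/2`,
`|Re (2mz/(z²-λ²)) - 2mz/(z²+‖λ‖²)| ≤ 5 m/(z²+‖λ‖²)·... ≤ 5 m/‖λ‖²`: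
`1/(z²-λ²) - 1/(z²+‖λ‖²) = (λ²+‖λ‖²)/((z²-λ²)(z²+‖λ‖²))`, `λ²+‖λ‖² = 2 Re(λ) λ`, `‖z²-λ²‖ ≥ (2/5)(z²+‖λ‖²)`. -/
theorem term_cmp (z : ℝ) (hz : 1 ≤ z) (w : ℂ) (h0 : 0 ≤ w.re) (h1 : w.re ≤ 1 / 2) (hw : w ≠ 0) :
    |((2 * (z : ℂ) / ((z : ℂ) ^ 2 - w ^ 2)).re) - 2 * z / (z ^ 2 + ‖w‖ ^ 2)| ≤ 5 / ‖w‖ ^ 2 := by
  obtain ⟨b, g⟩ := w
  simp only at h0 h1
  set w : ℂ := ⟨b, g⟩ with hwdef
  have hwn : ‖w‖ ^ 2 = b ^ 2 + g ^ 2 := by
    rw [← Complex.normSq_eq_norm_sq, Complex.normSq_apply]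
    ring
  have hwp : 0 < ‖w‖ := norm_pos_iff.2 hw
  have hz0 : 0 < z := by linarith
  have hD : 0 < z ^ 2 + ‖w‖ ^ 2 := by positivity
  -- the norm of the denominator
  have hnorm : (2 / 5) * (z ^ 2 + ‖w‖ ^ 2) ≤ ‖(z : ℂ) ^ 2 - w ^ 2‖ := by
    refine (sq_le_sq₀ (by positivity) (norm_nonneg _)).1 ?_
    rw [← Complex.normSq_eq_norm_sq ((z : ℂ) ^ 2 - w ^ 2)]
    have e1 : Complex.normSq ((z : ℂ) ^ 2 - w ^ 2) =
        ((z - b) ^ 2 + g ^ 2) * ((z + b) ^ 2 + g ^ 2) := by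
      rw [Complex.normSq_apply]
      simp only [hwdef, Complex.sub_re, Complex.sub_im, sq, Complex.mul_re, Complex.mul_im,
        Complex.ofReal_re, Complex.ofReal_im]
      ring
    rw [e1, hwn]
    have h2 : z ^ 2 / 4 ≤ (z - b) ^ 2 := by nlinarith
    have h3 : z ^ 2 ≤ (z + b) ^ 2 := by nlinarith
    have h4 : b ^ 2 ≤ z ^ 2 / 4 := by nlinarith
    have h5 : (2 / 5 * (z ^ 2 + (b ^ 2 + g ^ 2))) ^ 2 ≤
        (2 / 5 * (z ^ 2 + (z ^ 2 / 4 + g ^ 2))) ^ 2 :=
      pow_le_pow_left₀ (by positivity) (by linarith) 2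
    have h6 : (z ^ 2 / 4 + g ^ 2) * (z ^ 2 + g ^ 2) ≤
        ((z - b) ^ 2 + g ^ 2) * ((z + b) ^ 2 + g ^ 2) :=
      mul_le_mul (by linarith) (by linarith) (by positivity) (by positivity)
    have h7 : (2 / 5 * (z ^ 2 + (z ^ 2 / 4 + g ^ 2))) ^ 2 ≤
        (z ^ 2 / 4 + g ^ 2) * (z ^ 2 + g ^ 2) := by
      nlinarith [mul_nonneg (sq_nonneg z) (sq_nonneg g), sq_nonneg (g ^ 2)]
    exact h5.trans (h7.trans h6)
  have hden : (z : ℂ) ^ 2 - w ^ 2 ≠ 0 := by
    intro h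
    rw [h, norm_zero] at hnorm
    linarith
  have hDc : ((z : ℂ) ^ 2 + (‖w‖ : ℂ) ^ 2) ≠ 0 := by
    exact_mod_cast hD.ne'
  have hww : w ^ 2 + (‖w‖ : ℂ) ^ 2 = 2 * (b : ℂ) * w := by
    have e1 : ((‖w‖ : ℂ)) ^ 2 = ((b ^ 2 + g ^ 2 : ℝ) : ℂ) := by
      rw [← hwn]
      push_cast
      rfl
    rw [e1]
    apply Complex.ext
    · simp only [hwdef, sq, Complex.add_re, Complex.mul_re, Complex.ofReal_re, Complex.ofReal_im,
        Complex.mul_im, Complex.re_ofNat, Complex.im_ofNat]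
      ring
    · simp only [hwdef, sq, Complex.add_im, Complex.mul_im, Complex.ofReal_re, Complex.ofReal_im,
        Complex.mul_re, Complex.re_ofNat, Complex.im_ofNat]
      ring
  have hdiff : (2 * (z : ℂ) / ((z : ℂ) ^ 2 - w ^ 2)) - ((2 * z / (z ^ 2 + ‖w‖ ^ 2) : ℝ) : ℂ) =
      2 * (z : ℂ) * (2 * (b : ℂ) * w) /
        (((z : ℂ) ^ 2 - w ^ 2) * ((z : ℂ) ^ 2 + (‖w‖ : ℂ) ^ 2)) := by
    push_cast
    rw [div_sub_div _ _ hden hDc, ← hww]
    congr 1
    ring
  have hn2 : ‖(2 * (z : ℂ) / ((z : ℂ) ^ 2 - w ^ 2)) - ((2 * z / (z ^ 2 + ‖w‖ ^ 2) : ℝ) : ℂ)‖ ≤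
      5 / ‖w‖ ^ 2 := by
    rw [hdiff, _root_.norm_div, norm_mul, norm_mul, norm_mul, norm_mul, norm_mul]
    have e1 : ‖((z : ℂ) ^ 2 + (‖w‖ : ℂ) ^ 2)‖ = z ^ 2 + ‖w‖ ^ 2 := by
      have : ((z : ℂ) ^ 2 + (‖w‖ : ℂ) ^ 2) = ((z ^ 2 + ‖w‖ ^ 2 : ℝ) : ℂ) := by push_cast; rfl
      rw [this, Complex.norm_real, Real.norm_of_nonneg hD.le]
    have e2 : ‖(2 : ℂ)‖ = 2 := by simp
    rw [e1, e2, Complex.norm_real, Complex.norm_real, Real.norm_of_nonneg hz0.le,
      Real.norm_of_nonneg h0, div_le_div_iff₀ (mul_pos (norm_pos_iff.2 hden) hD) (by positivity)]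
    have h2 : 2 * z * (2 * b * ‖w‖) ≤ z ^ 2 + ‖w‖ ^ 2 := by
      have h3 : 2 * z * (2 * b * ‖w‖) ≤ 2 * z * (1 * ‖w‖) := by
        refine mul_le_mul_of_nonneg_left ?_ (by positivity)
        exact mul_le_mul_of_nonneg_right (by linarith) hwp.le
      nlinarith [sq_nonneg (z - ‖w‖)]
    calc 2 * z * (2 * b * ‖w‖) * ‖w‖ ^ 2 ≤ (z ^ 2 + ‖w‖ ^ 2) * (z ^ 2 + ‖w‖ ^ 2) := by
          refine mul_le_mul h2 ?_ (by positivity) hD.le
          nlinarith [sq_nonneg z]
      _ ≤ 5 * (‖(z : ℂ) ^ 2 - w ^ 2‖ * (z ^ 2 + ‖w‖ ^ 2)) := by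
          rw [← mul_assoc]
          refine mul_le_mul_of_nonneg_right ?_ hD.le
          linarith
  have h2 := Complex.abs_re_le_norm
    ((2 * (z : ℂ) / ((z : ℂ) ^ 2 - w ^ 2)) - ((2 * z / (z ^ 2 + ‖w‖ ^ 2) : ℝ) : ℂ))
  rw [Complex.sub_re, Complex.ofReal_re] at h2
  exact h2.trans hn2

/-- The structure `ZC`: `hadG`, `zh_one`, `fam_re`; the asymptotic formula as in `W3283l.zd_fam` from
`log_idG` at real `z ≥ 1` with `term_cmp`. -/
theorem zc_fam (n j : ℕ) (hj : j = 0 ∨ j = 1) (hn : Odd n) (hs : Squarefree n) :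
    ZC (laF n j) (meF n j) := by
  have hT := thData_fam n j hj hn hs
  obtain ⟨hd, hsym, C, hgr⟩ := LamG_basic _ _ _ hT
  have hne := FamG_ne n j hj hn hs
  have hhad := hadG (fF' n j) hd hne (eF n j : ℂ) (by
    rcases hT.eps with h1 | h1
    · left; rw [h1]; simp
    · right; rw [h1]; simp) hsym C hgr (fun z hz => fam_re n j hj hn hs z hz)
  have hDS := ds_mul (ds_cA (aL n j) (1 / 2) (by norm_num) (by norm_num) (aL_bd n j))
  have hre0 : ∀ i : ZH (fF' n j), 0 ≤ (laF n j i).re := by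
    intro i
    rcases i.2.1 with h1 | h1
    · exact h1.le
    · exact h1.1.ge
  have hre1 : ∀ i : ZH (fF' n j), (laF n j i).re ≤ 1 / 2 := fun i =>
    (abs_le.1 (fam_re n j hj hn hs (i : ℂ) i.2.2)).2
  have hne0 : ∀ i : ZH (fF' n j), laF n j i ≠ 0 := by
    intro i h0
    have e : (i : ℂ) = 0 := h0
    rcases i.2.1 with h1 | h1
    · rw [e, Complex.zero_re] at h1
      exact lt_irrefl _ h1
    · rw [e, Complex.zero_im] at h1
      exact lt_irrefl _ h1.2
  have hm1 : ∀ i : ZH (fF' n j), 1 ≤ meF n j i := fun i => zh_one (fF' n j) hd hne i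
  have hm0 : ∀ i : ZH (fF' n j), 0 ≤ meF n j i := fun i => zero_le_one.trans (hm1 i)
  have hsm : Summable fun i : ZH (fF' n j) => meF n j i / ‖laF n j i‖ ^ 2 := hhad.1
  refine ⟨Subtype.val_injective, hre0, hre1, hne0, fun i => norm_pos_iff.2 (hne0 i), hm1, hsm, ?_⟩
  set n0 : ℝ := (analyticOrderNatAt (fF' n j) 0 : ℝ) with hn0
  set S1 : ℝ := ∑' i, |vL i * cA (aL n j) i| * Real.exp (-(1 * vL i)) with hS1
  set S5 : ℝ := ∑' i : ZH (fF' n j), meF n j i / ‖laF n j i‖ ^ 2 * 5 with hS5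
  refine ⟨S5 + (S1 + |Real.log (Real.pi * kF n j)| + n0 + 1), fun z hz => ?_⟩
  have hz0 : 0 < z := by linarith
  obtain ⟨hsum, hid⟩ := log_idG n j hj hn hs (z : ℂ) (by rw [Complex.ofReal_re]; linarith)
  -- the terms
  have hterm : ∀ i : ZH (fF' n j), (2 * (meF n j i : ℂ) * (z : ℂ) /
      ((z : ℂ) ^ 2 - (laF n j i) ^ 2)).re =
      meF n j i * (2 * (z : ℂ) / ((z : ℂ) ^ 2 - (laF n j i) ^ 2)).re := by
    intro i
    rw [← Complex.re_ofReal_mul]
    congr 1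
    ring
  have hb2 : ∀ i : ZH (fF' n j), 2 * meF n j i * z / (z ^ 2 + ‖laF n j i‖ ^ 2) =
      meF n j i * (2 * z / (z ^ 2 + ‖laF n j i‖ ^ 2)) := by
    intro i
    ring
  have hdiffi : ∀ i : ZH (fF' n j), ‖meF n j i *
      (2 * (z : ℂ) / ((z : ℂ) ^ 2 - (laF n j i) ^ 2)).re -
      2 * meF n j i * z / (z ^ 2 + ‖laF n j i‖ ^ 2)‖ ≤ meF n j i / ‖laF n j i‖ ^ 2 * 5 := by
    intro i
    rw [hb2, ← mul_sub, norm_mul, Real.norm_of_nonneg (hm0 i), Real.norm_eq_abs]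
    refine (mul_le_mul_of_nonneg_left (term_cmp z hz (laF n j i) (hre0 i) (hre1 i) (hne0 i))
      (hm0 i)).trans (le_of_eq ?_)
    ring
  have hs1 : Summable fun i : ZH (fF' n j) => meF n j i *
      (2 * (z : ℂ) / ((z : ℂ) ^ 2 - (laF n j i) ^ 2)).re := by
    have h1 := (Complex.hasSum_re hsum.hasSum).summable
    exact h1.congr fun i => hterm i
  have hs2 : Summable fun i : ZH (fF' n j) =>
      2 * meF n j i * z / (z ^ 2 + ‖laF n j i‖ ^ 2) := by
    refine Summable.of_nonneg_of_le (fun i => ?_) (fun i => ?_) (hsm.mul_right (2 * z))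
    · have := hm0 i
      positivity
    · have h1 : 0 < ‖laF n j i‖ ^ 2 := by
        have := norm_pos_iff.2 (hne0 i)
        positivity
      have h2 := hm0 i
      rw [div_mul_eq_mul_div, show 2 * meF n j i * z = meF n j i * (2 * z) by ring]
      exact div_le_div_of_nonneg_left (by positivity) h1 (by nlinarith [sq_nonneg z])
  have hdiff : |(∑' i : ZH (fF' n j), 2 * (meF n j i : ℂ) * (z : ℂ) /
      ((z : ℂ) ^ 2 - (laF n j i) ^ 2)).re -
      ∑' i : ZH (fF' n j), 2 * meF n j i * z / (z ^ 2 + ‖laF n j i‖ ^ 2)| ≤ S5 := by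
    rw [← (Complex.hasSum_re hsum.hasSum).tsum_eq]
    simp only [hterm]
    rw [← hs1.tsum_sub hs2, ← Real.norm_eq_abs]
    exact tsum_of_norm_bounded ((hsm.mul_right 5).hasSum) hdiffi
  have hre := congrArg Complex.re hid
  obtain ⟨hdim, hdlog⟩ := dig_log z hz
  have e1 : ((analyticOrderNatAt (fF' n j) 0 : ℂ) / (z : ℂ)).re = n0 / z := by
    have : ((analyticOrderNatAt (fF' n j) 0 : ℂ) / (z : ℂ)) = ((n0 / z : ℝ) : ℂ) := by
      rw [hn0]
      push_cast
      rfl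
    rw [this, Complex.ofReal_re]
  rw [Complex.add_re, Complex.add_re, Complex.sub_re, Complex.ofReal_re, e1, Complex.neg_re] at hre
  have hEb : |(ES (fun i => vL i * cA (aL n j) i) vL (z : ℂ)).re| ≤ S1 := by
    refine (Complex.abs_re_le_norm _).trans ?_
    unfold ES
    refine tsum_of_norm_bounded (hDS.sm 1 (by norm_num)).hasSum fun i => ?_
    rw [norm_mul, Ser_norm, Complex.norm_real, Real.norm_eq_abs, Complex.ofReal_re]
    refine mul_le_mul_of_nonneg_left (Real.exp_le_exp.2 ?_) (abs_nonneg _)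
    have hv := hDS.vpos i
    have h4 : 1 * vL i ≤ z * vL i := mul_le_mul_of_nonneg_right hz (by linarith)
    linarith
  have hn00 : 0 ≤ n0 := Nat.cast_nonneg _
  have hnz : 0 ≤ n0 / z := by positivity
  have hnz1 : n0 / z ≤ n0 := div_le_self hn00 hz
  have hl := abs_le.1 hdlog
  have hE := abs_le.1 hEb
  have hL1 := le_abs_self (Real.log (Real.pi * kF n j))
  have hL2 := neg_abs_le (Real.log (Real.pi * kF n j))
  have hdf := abs_le.1 hdiff
  rw [abs_le]
  constructor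
  · linarith [hl.1, hl.2, hE.1, hE.2, hdf.1, hdf.2]
  · linarith [hl.1, hl.2, hE.1, hE.2, hdf.1, hdf.2]

end W3283v
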