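import Pool.Agent.W_3283e1_v3.FamG
import Pool.Agent.W_3283e1_v3.Csh
import Pool.Agent.W_3283e1_lw.Exp

set_option autoImplicit false

namespace W3283v

open Complex W3283e1 W3283f W3283l MeasureTheory Filter Topology

/-- The transform of `AF`, as `W3283l.AF_lap` with `log_idG` in place of `log_id`. -/
theorem AF_lapG (n j : ℕ) (hj : j = 0 ∨ j = 1) (hn : Odd n) (hs : Squarefree n) (r : ℕ)
    (hr : analyticOrderNatAt (fF' n j) 0 = r) (s : ℂ) (h : 3 / 4 < s.re) :
    ∫ u in Set.Ioi (0 : ℝ), (AF n j r u : ℂ) * Complex.exp (-(s * u)) =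
      (Real.log (Real.pi * kF n j) + Real.eulerMascheroniConstant) / s -
        (∫ u in Set.Ioi (0 : ℝ), (om u : ℂ) * Complex.exp (-(s * u))) +
        ∑' i, 2 * (meF n j i : ℂ) / (s ^ 2 - (laF n j i) ^ 2) := by
  have hs0 : 0 < s.re := by linarith
  have hsn : s ≠ 0 := by
    rintro rfl
    simp at hs0
  obtain ⟨hI1, hv1⟩ := st_lap (Exp_ds n j) s (by linarith)
  obtain ⟨hI2, hv2⟩ := Exp_id s hs0
  obtain ⟨hsum, hid⟩ := log_idG n j hj hn hs s (by linarith)
  have hdig := dig_int s hs0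
  rw [hr] at hid
  have hfun : ∀ u : ℝ, (AF n j r u : ℂ) * Complex.exp (-(s * u)) =
      -((St (fun i => vL i * cA (aL n j) i) vL u : ℂ) * Complex.exp (-(s * u))) -
        (r : ℂ) * ((u : ℂ) * Complex.exp (-(s * u))) := by
    intro u
    unfold AF SS
    push_cast
    ring
  simp_rw [hfun]
  rw [Exp_split2 _ _ _ hI1 hI2]
  have hts : ∑' i, 2 * (meF n j i : ℂ) * s / (s ^ 2 - (laF n j i) ^ 2) =
      s * ∑' i, 2 * (meF n j i : ℂ) / (s ^ 2 - (laF n j i) ^ 2) := by
    rw [← tsum_mul_left]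
    refine tsum_congr fun i => ?_
    ring
  rw [hts] at hid
  apply mul_left_cancel₀ hsn
  have e1 : s * ((r : ℂ) * ∫ u in Set.Ioi (0 : ℝ), (u : ℂ) * Complex.exp (-(s * u))) =
      (r : ℂ) / s := by
    rw [mul_left_comm, hv2]
    ring
  rw [mul_sub, mul_neg, hv1, e1, hid, mul_add, mul_sub, hdig]
  field_simp
  ring

theorem ExpG_int (f : ℝ → ℂ) (hf : ContinuousOn f (Set.Ici 0)) (C : ℝ)
    (hb : ∀ u : ℝ, 0 ≤ u → ‖f u‖ ≤ C * Real.exp u) (s : ℂ) (hs : 1 < s.re) :
    IntegrableOn (fun u : ℝ => f u * Complex.exp (-(s * u))) (Set.Ioi 0) := by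
  have h1 := (integrableOn_exp_mul_Ioi (a := 1 - s.re) (by linarith) 0).const_mul C
  refine Integrable.mono' h1 ?_ ?_
  · refine ContinuousOn.aestronglyMeasurable ?_ measurableSet_Ioi
    exact ContinuousOn.mul (hf.mono Set.Ioi_subset_Ici_self) (by fun_prop)
  · refine (ae_restrict_iff' measurableSet_Ioi).2 (Filter.Eventually.of_forall fun u hu => ?_)
    have hu0 : (0 : ℝ) < u := hu
    rw [norm_mul, Ser_norm]
    have h2 := hb u hu0.le
    have h3 : C * Real.exp ((1 - s.re) * u) =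
        C * Real.exp u * Real.exp (-(s.re * u)) := by
      rw [mul_assoc, ← Real.exp_add]
      congr 2
      ring
    rw [h3]
    exact mul_le_mul_of_nonneg_right h2 (Real.exp_pos _).le

/-- The explicit formula without the Riemann hypothesis, as `W3283l.ef_fam` with `AF_lapG`, `csh_lap`,
`lap_uniqueC`. -/
theorem ef_famG (n j : ℕ) (hj : j = 0 ∨ j = 1) (hn : Odd n) (hs : Squarefree n) (r : ℕ)
    (hr : analyticOrderNatAt (fF' n j) 0 = r) : EFC (laF n j) (meF n j) (AF n j r) := by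
  obtain ⟨hm, C, hC⟩ := AF_bd n j r
  have hZ := zc_fam n j hj hn hs
  obtain ⟨hcosc, ⟨Cc, hCc⟩, hcosl⟩ := csh_lap (laF n j) (meF n j) hZ
  have hC0 : 0 ≤ C := by
    have h1 := hC 0 le_rfl
    rw [mul_zero, Real.exp_zero, mul_one] at h1
    exact (abs_nonneg _).trans h1
  have hCc0 : 0 ≤ Cc := by
    have h1 := hCc 0 le_rfl
    rw [zero_div, Real.exp_zero, mul_one] at h1
    exact (norm_nonneg _).trans h1
  refine ⟨hm, ⟨C, hC⟩, ?_⟩
  obtain ⟨c3, hc3⟩ : ∃ c3 : ℝ, c3 = Real.log (Real.pi * kF n j) + Real.eulerMascheroniConstant :=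
    ⟨_, rfl⟩
  refine ⟨c3, ?_⟩
  obtain ⟨Z, hZd⟩ : ∃ Z : ℝ → ℂ, Z = fun u : ℝ => ∑' i, 2 * (meF n j i : ℂ) / (laF n j i) ^ 2 *
    (Complex.cosh (laF n j i * u) - 1) := ⟨_, rfl⟩
  have hcosc' : ContinuousOn Z (Set.Ici 0) := by
    rw [hZd]
    exact hcosc
  have hCc' : ∀ u : ℝ, 0 ≤ u → ‖Z u‖ ≤ Cc * Real.exp (u / 2) := by
    rw [hZd]
    exact hCc
  have hcosl' : ∀ s : ℂ, 1 / 2 < s.re →
      s * ∫ u in Set.Ioi (0 : ℝ), Z u * Complex.exp (-(s * u)) =
        ∑' i, 2 * (meF n j i : ℂ) / (s ^ 2 - (laF n j i) ^ 2) := by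
    rw [hZd]
    exact hcosl
  -- the four functions
  have hAint : ∀ T : ℝ, IntegrableOn (AF n j r) (Set.Icc 0 T) := by
    intro T
    refine Measure.integrableOn_of_bounded (M := C * Real.exp (3 / 4 * T)) (by simp)
      hm.aestronglyMeasurable ?_
    refine (ae_restrict_iff' measurableSet_Icc).2 (Filter.Eventually.of_forall fun u hu => ?_)
    exact (hC u hu.1).trans (mul_le_mul_of_nonneg_left
      (Real.exp_le_exp.2 (by linarith [hu.2])) hC0)
  have hOint : ∀ T : ℝ, IntegrableOn om (Set.Icc 0 T) := by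
    intro T
    rw [integrableOn_Icc_iff_integrableOn_Ioc]
    exact om_int.mono_set Set.Ioc_subset_Ioi_self
  have hcA : ContinuousOn (fun u => ∫ t in Set.Ioc 0 u, AF n j r t) (Set.Ici 0) :=
    Exp_prim _ hAint
  have hcO : ContinuousOn (fun u => ∫ t in Set.Ioc 0 u, om t) (Set.Ici 0) :=
    Exp_prim _ hOint
  obtain ⟨W, hWdef⟩ : ∃ W : ℝ, W = ∫ t in Set.Ioi (0 : ℝ), om t := ⟨_, rfl⟩
  have hW0 : 0 ≤ W := by
    rw [hWdef]
    exact setIntegral_nonneg measurableSet_Ioi fun t ht => om_nonneg t ht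
  have hbA : ∀ u : ℝ, 0 ≤ u → |∫ t in Set.Ioc 0 u, AF n j r t| ≤ 4 * C * Real.exp u := by
    intro u hu
    have h1 : ‖∫ t in Set.Ioc 0 u, AF n j r t‖ ≤ C * Real.exp (3 / 4 * u) * volume.real
        (Set.Ioc 0 u) := by
      refine norm_setIntegral_le_of_norm_le_const (by simp) ?_
      intro t ht
      exact (hC t ht.1.le).trans (mul_le_mul_of_nonneg_left
        (Real.exp_le_exp.2 (by linarith [ht.2])) hC0)
    rw [Real.volume_real_Ioc_of_le hu, sub_zero, Real.norm_eq_abs] at h1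
    have h2 : u ≤ 4 * Real.exp (1 / 4 * u) := by
      have := Real.add_one_le_exp (1 / 4 * u)
      linarith
    have h3 : Real.exp u = Real.exp (3 / 4 * u) * Real.exp (1 / 4 * u) := by
      rw [← Real.exp_add]
      congr 1
      ring
    rw [h3]
    have h4 : C * Real.exp (3 / 4 * u) * u ≤ C * Real.exp (3 / 4 * u) *
        (4 * Real.exp (1 / 4 * u)) := mul_le_mul_of_nonneg_left h2 (by positivity)
    linarith
  have hbO : ∀ u : ℝ, 0 ≤ u → |∫ t in Set.Ioc 0 u, om t| ≤ W * Real.exp u := by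
    intro u hu
    have h2 : 0 ≤ ∫ t in Set.Ioc 0 u, om t :=
      setIntegral_nonneg measurableSet_Ioc fun t ht => om_nonneg t ht.1
    have h3 : ∫ t in Set.Ioc 0 u, om t ≤ W := by
      rw [hWdef]
      refine setIntegral_mono_set om_int ?_ ?_
      · exact (ae_restrict_iff' measurableSet_Ioi).2
          (Filter.Eventually.of_forall fun t ht => om_nonneg t ht)
      · exact Filter.Eventually.of_forall fun t ht => ht.1
    rw [abs_of_nonneg h2]
    have h4 : 1 ≤ Real.exp u := Real.one_le_exp hu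
    nlinarith
  have hbc : ∀ u : ℝ, 0 ≤ u → ‖Z u‖ ≤ Cc * Real.exp u := by
    intro u hu
    exact (hCc' u hu).trans (mul_le_mul_of_nonneg_left (Real.exp_le_exp.2 (by linarith)) hCc0)
  have hbl : ∀ u : ℝ, 0 ≤ u → |c3 * u| ≤ |c3| * Real.exp u := by
    intro u hu
    rw [abs_mul, abs_of_nonneg hu]
    have h4 := Real.add_one_le_exp u
    exact mul_le_mul_of_nonneg_left (by linarith) (abs_nonneg _)
  have key : ∀ u : ℝ, 0 ≤ u → (fun u : ℝ => ((∫ t in Set.Ioc 0 u, AF n j r t : ℝ) : ℂ) -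
      Z u - ((c3 * u : ℝ) : ℂ) + ((∫ t in Set.Ioc 0 u, om t : ℝ) : ℂ)) u = 0 := by
    refine lap_uniqueC _ ?_ 1 (4 * C + Cc + |c3| + W) ?_ ?_
    · exact (((Complex.continuous_ofReal.comp_continuousOn hcA).sub hcosc').sub
        (by fun_prop)).add (Complex.continuous_ofReal.comp_continuousOn hcO)
    · intro u hu
      have h1 := hbA u hu
      have h2 := hbO u hu
      have h3 := hbc u hu
      have h4 := hbl u hu
      rw [← Real.norm_eq_abs, ← Complex.norm_real] at h1 h2 h4
      refine (norm_add_le _ _).trans ?_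
      refine (add_le_add ((norm_sub_le _ _).trans (add_le_add (norm_sub_le _ _) le_rfl))
        le_rfl).trans ?_
      rw [one_mul]
      linarith
    · intro s hs1
      have hs0 : 0 < s.re := by linarith
      have hsn : s ≠ 0 := by
        rintro rfl
        simp at hs0
      have i1 := Exp_int _ hcA _ hbA s hs1
      have i2 := ExpG_int _ hcosc' _ hbc s hs1
      have i3 := Exp_int (fun u : ℝ => c3 * u) (by fun_prop) _ hbl s hs1
      have i4 := Exp_int _ hcO _ hbO s hs1
      have hfun : ∀ u : ℝ, (((∫ t in Set.Ioc 0 u, AF n j r t : ℝ) : ℂ) -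
          Z u - ((c3 * u : ℝ) : ℂ) + ((∫ t in Set.Ioc 0 u, om t : ℝ) : ℂ)) *
          Complex.exp (-(s * u)) =
          ((∫ t in Set.Ioc 0 u, AF n j r t : ℝ) : ℂ) * Complex.exp (-(s * u)) -
          Z u * Complex.exp (-(s * u)) - ((c3 * u : ℝ) : ℂ) * Complex.exp (-(s * u)) +
          ((∫ t in Set.Ioc 0 u, om t : ℝ) : ℂ) * Complex.exp (-(s * u)) := by
        intro u
        ring
      simp_rw [hfun]
      rw [Exp_split _ _ _ _ i1 i2 i3 i4]
      have f1 := W3283g.Ces_fub (AF n j r) hm s hs0 (by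
        have h1 := (integrableOn_exp_mul_Ioi (a := 3 / 4 - s.re) (by linarith) 0).const_mul C
        refine Integrable.mono' h1 (hm.mul (by fun_prop)).aestronglyMeasurable ?_
        refine (ae_restrict_iff' measurableSet_Ioi).2 (Filter.Eventually.of_forall fun u hu => ?_)
        have hu0 : (0 : ℝ) < u := hu
        rw [norm_mul, Real.norm_of_nonneg (Real.exp_pos _).le, Real.norm_eq_abs]
        have h2 := hC u hu0.le
        have h3 : C * Real.exp ((3 / 4 - s.re) * u) =
            C * Real.exp (3 / 4 * u) * Real.exp (-(s.re * u)) := by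
          rw [mul_assoc, ← Real.exp_add]
          congr 2
          ring
        rw [h3]
        exact mul_le_mul_of_nonneg_right h2 (Real.exp_pos _).le)
      have f4 := W3283g.Ces_fub om om_meas s hs0 (by
        refine Integrable.mono' om_int (om_meas.mul (by fun_prop)).aestronglyMeasurable ?_
        refine (ae_restrict_iff' measurableSet_Ioi).2 (Filter.Eventually.of_forall fun u hu => ?_)
        have hu0 : (0 : ℝ) < u := hu
        rw [norm_mul, Real.norm_of_nonneg (Real.exp_pos _).le,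
          Real.norm_of_nonneg (om_nonneg u hu0)]
        have h2 : Real.exp (-(s.re * u)) ≤ 1 := by
          rw [Real.exp_le_one_iff]
          have : 0 ≤ s.re * u := by positivity
          linarith
        have h3 := om_nonneg u hu0
        nlinarith)
      have f2 := hcosl' s (by linarith)
      have f3 : s * ∫ u in Set.Ioi (0 : ℝ), ((c3 * u : ℝ) : ℂ) * Complex.exp (-(s * u)) =
          (c3 : ℂ) / s := by
        have h1 := (Exp_id s hs0).2
        have h2 : ∀ u : ℝ, ((c3 * u : ℝ) : ℂ) * Complex.exp (-(s * u)) =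
            (c3 : ℂ) * ((u : ℂ) * Complex.exp (-(s * u))) := by
          intro u
          push_cast
          ring
        simp_rw [h2]
        rw [integral_const_mul, mul_left_comm, h1]
        ring
      have hlap := AF_lapG n j hj hn hs r hr s (by linarith)
      apply mul_left_cancel₀ hsn
      rw [mul_zero, mul_add, mul_sub, mul_sub, f1, f2, f3, f4, hlap, hc3]
      push_cast
      ring
  intro u hu
  have h1 := key u hu
  simp only at h1
  rw [hZd] at h1
  simp only at h1
  unfold Om1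
  push_cast at h1 ⊢
  linear_combination h1

end W3283v
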