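import Pool.Agent.W_3283e1_lw.Bnd

set_option autoImplicit false

namespace W3283v

open Complex W3283e1 W3283f W3283l MeasureTheory

/-- The prime power belonging to an index. -/
noncomputable def Var_q (i : OP × ℕ) : ℕ := (i.1 : ℕ) ^ (i.2 + 1)

theorem Var_q_inj : Function.Injective Var_q := by
  rintro ⟨p, m⟩ ⟨p', m'⟩ h
  have h' : (p : ℕ) ^ (m + 1) = (p' : ℕ) ^ (m' + 1) := h
  have hp : (p : ℕ).Prime := p.2.1
  have hp' : (p' : ℕ).Prime := p'.2.1
  have h1 : (p : ℕ) ∣ (p' : ℕ) ^ (m' + 1) := by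
    rw [← h']
    exact dvd_pow_self _ (Nat.succ_ne_zero m)
  have h2 : (p : ℕ) = (p' : ℕ) := (Nat.prime_dvd_prime_iff_eq hp hp').1 (hp.dvd_of_dvd_pow h1)
  have h3 : p = p' := Subtype.ext h2
  subst h3
  have h4 : m + 1 = m' + 1 := Nat.pow_right_injective hp.two_le h'
  have h5 : m = m' := by omega
  rw [h5]

theorem Var_exp (i : OP × ℕ) : Real.exp (vL i) = (Var_q i : ℝ) := by
  obtain ⟨p, m⟩ := i
  have hp0 : (0 : ℝ) < ((p : ℕ) : ℝ) := by exact_mod_cast p.2.1.pos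
  have h : vL (p, m) = ((m + 1 : ℕ) : ℝ) * Real.log (p : ℕ) := by
    simp only [vL]
    push_cast
    ring
  rw [h, Real.exp_nat_mul, Real.exp_log hp0]
  simp only [Var_q]
  push_cast
  ring

/-- The bound for the coefficients. -/
theorem Var_coef (n j : ℕ) (i : OP × ℕ) :
    |vL i * cA (aL n j) i| ≤ 2 * vL i * Real.exp (-(vL i / 2)) := by
  obtain ⟨p, m⟩ := i
  have hp0 : (0 : ℝ) < ((p : ℕ) : ℝ) := by exact_mod_cast p.2.1.pos
  have hv := vL_pos (p, m)
  have hm : (0 : ℝ) ≤ m := Nat.cast_nonneg m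
  have h1 : |cA (aL n j) (p, m)| ≤ 2 * (((p : ℕ) : ℝ) ^ (-(1 / 2) : ℝ)) ^ (m + 1) := by
    simp only [cA]
    rw [abs_div, abs_mul, abs_two]
    have h2 : |((aL n j p) ^ (m + 1)).re| ≤ (((p : ℕ) : ℝ) ^ (-(1 / 2) : ℝ)) ^ (m + 1) := by
      refine (Complex.abs_re_le_norm _).trans ?_
      rw [norm_pow]
      exact pow_le_pow_left₀ (norm_nonneg _) (aL_bd n j p) _
    rw [abs_of_pos (by linarith : (0 : ℝ) < (m : ℝ) + 1)]
    refine (div_le_self (by positivity) (by linarith)).trans ?_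
    linarith
  have h3 : Real.exp (-(vL (p, m) / 2)) = (((p : ℕ) : ℝ) ^ (-(1 / 2) : ℝ)) ^ (m + 1) := by
    rw [Real.rpow_def_of_pos hp0, ← Real.exp_nat_mul]
    congr 1
    simp only [vL]
    push_cast
    ring
  rw [abs_mul, abs_of_pos (by linarith : 0 < vL (p, m)), h3]
  calc vL (p, m) * |cA (aL n j) (p, m)| ≤
        vL (p, m) * (2 * (((p : ℕ) : ℝ) ^ (-(1 / 2) : ℝ)) ^ (m + 1)) :=
        mul_le_mul_of_nonneg_left h1 (by linarith)
    _ = _ := by ring

theorem Var_SS (n j : ℕ) (u t : ℝ) (hu : 0 ≤ u) (ht : 0 ≤ t) (ht1 : t ≤ 1) :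
    |SS n j (u + t) - SS n j u| ≤ 4 * (u + 1) * (1 + t * Real.exp (u / 2)) := by
  classical
  set c : OP × ℕ → ℝ := fun i => vL i * cA (aL n j) i with hc
  have hds : DS c vL (1 - 1 / 2) :=
    ds_mul (ds_cA (aL n j) (1 / 2) (by norm_num) (by norm_num) (aL_bd n j))
  have hs1 := (st_bd hds 1 (by norm_num) (u + t)).1
  have hs2 := (st_bd hds 1 (by norm_num) u).1
  have hdiff : SS n j (u + t) - SS n j u =
      ∑' i, ((if vL i ≤ u + t then c i else 0) - (if vL i ≤ u then c i else 0)) := by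
    rw [hs1.tsum_sub hs2]
    rfl
  set F : OP × ℕ → ℝ := fun i =>
    ((if vL i ≤ u + t then c i else 0) - (if vL i ≤ u then c i else 0)) with hF
  have hF0 : ∀ i, ¬ (u < vL i ∧ vL i ≤ u + t) → F i = 0 := by
    intro i hi
    simp only [hF]
    by_cases h1 : vL i ≤ u
    · rw [if_pos h1, if_pos (by linarith), sub_self]
    · have h2 : ¬ vL i ≤ u + t := fun h2 => hi ⟨not_le.1 h1, h2⟩
      rw [if_neg h1, if_neg h2, sub_self]
  have hFb : ∀ i, |F i| ≤ 2 * (u + 1) * Real.exp (-(u / 2)) := by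
    intro i
    by_cases hi : u < vL i ∧ vL i ≤ u + t
    · have h1 : F i = c i := by
        simp only [hF]
        rw [if_pos hi.2, if_neg (not_le.2 hi.1), sub_zero]
      rw [h1]
      refine (Var_coef n j i).trans ?_
      have h2 : Real.exp (-(vL i / 2)) ≤ Real.exp (-(u / 2)) :=
        Real.exp_le_exp.2 (by linarith [hi.1])
      have h3 : 2 * vL i ≤ 2 * (u + 1) := by linarith [hi.2]
      exact mul_le_mul h3 h2 (Real.exp_pos _).le (by linarith)
    · rw [hF0 i hi, abs_zero]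
      positivity
  set S : Finset (OP × ℕ) := Finset.preimage
    (Finset.Ioc ⌊Real.exp u⌋₊ ⌊Real.exp (u + t)⌋₊) Var_q Var_q_inj.injOn with hS
  have hFS : ∀ i, i ∉ S → F i = 0 := by
    intro i hi
    apply hF0
    rintro ⟨h1, h2⟩
    apply hi
    rw [hS, Finset.mem_preimage, Finset.mem_Ioc]
    refine ⟨(Nat.floor_lt (Real.exp_pos u).le).2 ?_, Nat.le_floor ?_⟩
    · rw [← Var_exp]
      exact Real.exp_lt_exp.2 h1
    · rw [← Var_exp]
      exact Real.exp_le_exp.2 h2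
  have hle : Real.exp u ≤ Real.exp (u + t) := Real.exp_le_exp.2 (by linarith)
  have hfl : ⌊Real.exp u⌋₊ ≤ ⌊Real.exp (u + t)⌋₊ := Nat.floor_le_floor hle
  have hcard1 : S.card ≤ (Finset.Ioc ⌊Real.exp u⌋₊ ⌊Real.exp (u + t)⌋₊).card := by
    refine Finset.card_le_card_of_injOn Var_q ?_ Var_q_inj.injOn
    intro i hi
    have h := Finset.mem_coe.1 hi
    rw [hS, Finset.mem_preimage] at h
    exact Finset.mem_coe.2 h
  have hcard : (S.card : ℝ) ≤ 2 * t * Real.exp u + 1 := by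
    have h0 : (S.card : ℝ) ≤
        ((Finset.Ioc ⌊Real.exp u⌋₊ ⌊Real.exp (u + t)⌋₊).card : ℝ) := by exact_mod_cast hcard1
    refine h0.trans ?_
    rw [Nat.card_Ioc, Nat.cast_sub hfl]
    have h1 : (⌊Real.exp (u + t)⌋₊ : ℝ) ≤ Real.exp (u + t) := Nat.floor_le (Real.exp_pos _).le
    have h2 : Real.exp u < (⌊Real.exp u⌋₊ : ℝ) + 1 := Nat.lt_floor_add_one _
    have h3 : Real.exp t ≤ 1 + 2 * t := by
      have h4 := Real.abs_exp_sub_one_sub_id_le (x := t) (by rw [abs_of_nonneg ht]; exact ht1)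
      have h5 := (abs_le.1 h4).2
      nlinarith
    have h6 : Real.exp (u + t) ≤ Real.exp u * (1 + 2 * t) := by
      rw [Real.exp_add]
      exact mul_le_mul_of_nonneg_left h3 (Real.exp_pos u).le
    linarith
  rw [hdiff, tsum_eq_sum (s := S) (fun i hi => hFS i hi)]
  calc |∑ i ∈ S, F i| ≤ ∑ i ∈ S, |F i| := Finset.abs_sum_le_sum_abs _ _
    _ ≤ ∑ i ∈ S, 2 * (u + 1) * Real.exp (-(u / 2)) := Finset.sum_le_sum fun i _ => hFb i
    _ = (S.card : ℝ) * (2 * (u + 1) * Real.exp (-(u / 2))) := by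
        rw [Finset.sum_const, nsmul_eq_mul]
    _ ≤ (2 * t * Real.exp u + 1) * (2 * (u + 1) * Real.exp (-(u / 2))) :=
        mul_le_mul_of_nonneg_right hcard (by positivity)
    _ = 4 * (u + 1) * (t * (Real.exp u * Real.exp (-(u / 2)))) +
        2 * (u + 1) * Real.exp (-(u / 2)) := by ring
    _ = 4 * (u + 1) * (t * Real.exp (u / 2)) + 2 * (u + 1) * Real.exp (-(u / 2)) := by
        rw [← Real.exp_add]
        congr 4
        ring
    _ ≤ 4 * (u + 1) * (t * Real.exp (u / 2)) + 4 * (u + 1) * 1 := by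
        have h1 : Real.exp (-(u / 2)) ≤ 1 := by
          rw [Real.exp_le_one_iff]
          linarith
        have h2 := mul_le_mul_of_nonneg_left h1 (by positivity : 0 ≤ 2 * (u + 1))
        linarith
    _ = _ := by ring

/-- The trivial bound for the variation of `AF` in short intervals: `AF n j r u = -SS n j u - r u` and
`SS n j (u + t) - SS n j u` is the sum of `2 Re (α_p^m) log p/p^m` over the prime powers
`p^m ∈ (e^u, e^{u+t}]`; each term is at most `2 log p / p^{m/2} ≤ 2 (u+1) e^{-u/2}`, and there are at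
most `e^{u+t} - e^u + 1 ≤ 2 t e^u + 1` such prime powers (distinct integers). -/
theorem var_AF (n j r : ℕ) : ∃ K : ℝ, ∀ u t : ℝ, 0 ≤ u → 0 ≤ t → t ≤ 1 →
    |AF n j r (u + t) - AF n j r u| ≤ K * (u + 1) * (1 + t * Real.exp (u / 2)) := by
  refine ⟨4 + r, fun u t hu ht ht1 => ?_⟩
  have h1 := Var_SS n j u t hu ht ht1
  have h2 : AF n j r (u + t) - AF n j r u =
      -(SS n j (u + t) - SS n j u) - r * t := by
    unfold AF
    ring
  rw [h2]
  refine (abs_sub _ _).trans ?_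
  have hr : (0 : ℝ) ≤ r := Nat.cast_nonneg r
  rw [abs_neg, abs_of_nonneg (mul_nonneg hr ht)]
  have h3 : (r : ℝ) * t ≤ r * ((u + 1) * (1 + t * Real.exp (u / 2))) := by
    apply mul_le_mul_of_nonneg_left _ hr
    have h4 : 0 ≤ t * Real.exp (u / 2) := by positivity
    nlinarith
  have h5 : (4 + (r : ℝ)) * (u + 1) * (1 + t * Real.exp (u / 2)) =
      4 * (u + 1) * (1 + t * Real.exp (u / 2)) + r * ((u + 1) * (1 + t * Real.exp (u / 2))) := by
    ring
  rw [h5]
  linarith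

end W3283v
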