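import Pool.Agent.W_3283e1_v3.LocM
import Pool.Agent.W_3283e1_v3.ExpG
import Pool.Agent.W_3283e1_v3.Var
import Pool.Agent.W_3283e1_lw.Ibd

set_option autoImplicit false

namespace W3283v

open Complex W3283e1 W3283f W3283l MeasureTheory Filter Topology

/-- The local theorem for the family: a zero `s0` with `Re s0 > c > 0` makes `|er u| > e^{cu}` on a set
of measure `≥ e^{-κU}` in every window `[U, U + η]`, `U` large. -/
theorem wild_fam (n j : ℕ) (hj : j = 0 ∨ j = 1) (hn : Odd n) (hs : Squarefree n) (r : ℕ) (l : ℝ)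
    (hl : l ≠ 0)
    (hlim : Tendsto (fun s : ℂ => LLF n j (1 + s) / s ^ r) (𝓝[≠] 0) (𝓝 (l : ℂ)))
    (hD : Dens (laF n j)) (s0 : ℂ) (hs0 : LLF n j (1 + s0) = 0) (c : ℝ) (hc : 0 < c)
    (hc0 : c < s0.re) (η : ℝ) (hη : 0 < η) (κ : ℝ) (hκ : 0 < κ) :
    ∃ U0 : ℝ, 1 ≤ U0 ∧ ∀ U : ℝ, U0 ≤ U →
      ENNReal.ofReal (Real.exp (-(κ * U))) ≤
        volume {u : ℝ | U ≤ u ∧ u ≤ U + η ∧
          Real.exp (c * u) < |W3283g.er (alF n j) (lGold l r) r u|} := by
  have hr := fF_zero n j hj hn hs r l hl hlim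
  have hEF := ef_famG n j hj hn hs r hr
  have hZ := zc_fam n j hj hn hs
  obtain ⟨K, hK⟩ := var_AF n j r
  obtain ⟨CB, hCB⟩ := B_bd n j hj hn hs
  have hCB0 : 0 ≤ CB := (abs_nonneg _).trans (hCB 0 le_rfl)
  have hDF := dataF_fam n j hj hn hs
  have hαn : ∀ p : ℕ, p.Prime → p ≠ 2 → ‖alF n j p‖ ^ 2 = p := hDF.norm_α
  have heloc : ∀ U : ℝ, IntegrableOn (W3283g.er (alF n j) (lGold l r) r) (Set.Ioc 0 U) :=
    W3283g.Ces_loc _ (W3283g.er_int (alF n j) hαn (lGold l r) r 1 (by norm_num))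
  have hz : fF' n j s0 = 0 := (fam_zero n j hj hn hs s0 (by linarith)).2 hs0
  refine loc_set hZ hD (AF n j r) (W3283g.er (alF n j) (lGold l r) r) hEF
    (W3283g.er_meas _ _ _) heloc CB hCB0 ?_ K hK ⟨s0, Or.inl (by linarith), hz⟩ c hc hc0 η hη κ hκ
  intro u hu
  have h1 := (abel_er (alF n j) (lGold l r) r u hu).2
  have h2 := hCB u hu.le
  have h3 : u * W3283g.er (alF n j) (lGold l r) r u -
      (∫ t in Set.Ioc 0 u, W3283g.er (alF n j) (lGold l r) r t) - AF n j r u =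
      ALs (alF n j) u + SS n j u := by
    rw [h1]
    unfold AF
    ring
  rw [h3]
  exact h2

end W3283v
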