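import Pool.Agent.W_MP_3283e1_h19.ET4

set_option autoImplicit false

namespace W3283v

open Complex W3283f Filter Topology

/-- The zeros in the closed right half-plane, one from each pair `±λ`. -/
abbrev ZH (f : ℂ → ℂ) : Type := {z : ℂ // (0 < z.re ∨ (z.re = 0 ∧ 0 < z.im)) ∧ f z = 0}

/-- A point of the half-plane is not the opposite of another one. -/
theorem DivG_neg {a b : ℂ} (ha : 0 < a.re ∨ (a.re = 0 ∧ 0 < a.im))
    (hb : 0 < b.re ∨ (b.re = 0 ∧ 0 < b.im)) : a ≠ -b := by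
  intro h
  have h1 := congrArg Complex.re h
  have h2 := congrArg Complex.im h
  rw [Complex.neg_re] at h1
  rw [Complex.neg_im] at h2
  rcases ha with ha | ⟨ha, ha'⟩ <;> rcases hb with hb | ⟨hb, hb'⟩ <;> linarith

theorem DivG_ne {a : ℂ} (ha : 0 < a.re ∨ (a.re = 0 ∧ 0 < a.im)) : a ≠ 0 := by
  rintro rfl
  simp at ha

/-- Division by the zeros `0`, `±γ`, `γ` in a finite subset of the half-plane: as `W3283f.divide`
(module `ET2` of W_MP_3283e1_h19, where `γ` is `γ I`), with `s² - γ²` in place of `s² + γ²`; distinct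
elements `γ, γ'` of the half-plane satisfy `γ' ≠ -γ`. -/
theorem divideG (f : ℂ → ℂ) (hf : Differentiable ℂ f) (hne : ∃ z, f z ≠ 0) (Γ : Finset ℂ)
    (hpos : ∀ γ ∈ Γ, 0 < γ.re ∨ (γ.re = 0 ∧ 0 < γ.im))
    (hsym : ∀ z : ℂ, analyticOrderNatAt f (-z) = analyticOrderNatAt f z) :
    ∃ h : ℂ → ℂ, Differentiable ℂ h ∧
      (∀ s : ℂ, f s = s ^ analyticOrderNatAt f 0 *
        (∏ γ ∈ Γ, (s ^ 2 - γ ^ 2) ^ analyticOrderNatAt f γ) * h s) ∧
      h 0 ≠ 0 ∧ ∀ γ ∈ Γ, h γ ≠ 0 ∧ h (-γ) ≠ 0 := by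
  classical
  suffices hs : ∃ h : ℂ → ℂ, Differentiable ℂ h ∧
      (∀ s : ℂ, f s = s ^ analyticOrderNatAt f 0 *
        (∏ γ ∈ Γ, (s ^ 2 - γ ^ 2) ^ analyticOrderNatAt f γ) * h s) ∧
      h 0 ≠ 0 ∧ (∀ γ ∈ Γ, h γ ≠ 0 ∧ h (-γ) ≠ 0) ∧
      ∀ w : ℂ, w ≠ 0 → (∀ γ ∈ Γ, w ≠ γ ∧ w ≠ -γ) →
        analyticOrderNatAt h w = analyticOrderNatAt f w by
    obtain ⟨h, h1, h2, h3, h4, -⟩ := hs
    exact ⟨h, h1, h2, h3, h4⟩
  induction Γ using Finset.induction_on with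
  | empty =>
    obtain ⟨g, hg, hfg, hg0, hgo⟩ := et2_single f hf hne 0
    refine ⟨g, hg, ?_, hg0, by simp, fun w hw _ => hgo w hw⟩
    intro s
    have := hfg s
    rw [sub_zero] at this
    rw [Finset.prod_empty, mul_one]
    exact this
  | insert γ0 Γ hγ ih =>
    obtain ⟨h, hd, hfh, h0, hΓ, hord⟩ := ih (fun γ hg => hpos γ (Finset.mem_insert_of_mem hg))
    have hγ0 := hpos γ0 (Finset.mem_insert_self _ _)
    have hI : γ0 ≠ 0 := DivG_ne hγ0
    have hmem : ∀ γ ∈ Γ, γ ≠ γ0 := by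
      rintro γ hg rfl
      exact hγ hg
    have hmem' : ∀ γ ∈ Γ, γ0 ≠ -γ := fun γ hg =>
      DivG_neg hγ0 (hpos γ (Finset.mem_insert_of_mem hg))
    have hne1 : ∃ z, h z ≠ 0 := ⟨0, h0⟩
    obtain ⟨g1, hg1, hg1f, hg10, hg1o⟩ := et2_single h hd hne1 γ0
    have hk1 : analyticOrderNatAt h γ0 = analyticOrderNatAt f γ0 := by
      apply hord _ hI
      intro γ hg
      exact ⟨(hmem γ hg).symm, hmem' γ hg⟩
    have hg1ne : ∃ z, g1 z ≠ 0 := ⟨γ0, hg10⟩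
    obtain ⟨g2, hg2, hg2f, hg20, hg2o⟩ := et2_single g1 hg1 hg1ne (-γ0)
    have hne2 : -γ0 ≠ γ0 := fun h' => DivG_neg hγ0 hγ0 h'.symm
    have hk2 : analyticOrderNatAt g1 (-γ0) = analyticOrderNatAt f γ0 := by
      rw [hg1o _ hne2, hord _ (neg_ne_zero.2 hI), hsym]
      intro γ hg
      constructor
      · intro h'
        apply hmem' γ hg
        rw [← h', neg_neg]
      · intro h'
        exact hmem γ hg (neg_injective h').symm
    rw [hk1] at hg1f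
    rw [hk2] at hg2f
    have hh : ∀ s, h s = (s ^ 2 - γ0 ^ 2) ^ analyticOrderNatAt f γ0 * g2 s := by
      intro s
      rw [hg1f, hg2f, ← mul_assoc, ← mul_pow]
      congr 2
      ring
    have hnz : ∀ s, h s ≠ 0 → g2 s ≠ 0 := by
      intro s hs' h'
      apply hs'
      rw [hh, h', mul_zero]
    refine ⟨g2, hg2, ?_, hnz 0 h0, ?_, ?_⟩
    · intro s
      rw [hfh s, Finset.prod_insert hγ, hh s]
      ring
    · intro γ hg
      rw [Finset.mem_insert] at hg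
      rcases hg with rfl | hg
      · refine ⟨?_, hg20⟩
        intro h'
        apply hg10
        rw [hg2f, h', mul_zero]
      · exact ⟨hnz _ (hΓ γ hg).1, hnz _ (hΓ γ hg).2⟩
    · intro w hw hwΓ
      have h1 := hwΓ γ0 (Finset.mem_insert_self _ _)
      rw [hg2o w h1.2, hg1o w h1.1]
      exact hord w hw (fun γ hg => hwΓ γ (Finset.mem_insert_of_mem hg))

/-- `h` is even: as `W3283f.et4_even` (module `ET4`). -/
theorem evenG (f : ℂ → ℂ) (ε : ℂ) (hsym : ∀ s, f (-s) = ε * f s) (Γ : Finset ℂ)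
    (hpos : ∀ γ ∈ Γ, γ ≠ 0) (n0 : ℕ) (m : ℂ → ℕ) (h : ℂ → ℂ) (hd : Differentiable ℂ h)
    (hfh : ∀ s : ℂ, f s = s ^ n0 * (∏ γ ∈ Γ, (s ^ 2 - γ ^ 2) ^ m γ) * h s)
    (h0 : h 0 ≠ 0) (s : ℂ) : h (-s) = h s := by
  have hPc : Continuous (fun s : ℂ => ∏ γ ∈ Γ, (s ^ 2 - γ ^ 2) ^ m γ) := by
    fun_prop
  have hP0 : (∏ γ ∈ Γ, ((0 : ℂ) ^ 2 - γ ^ 2) ^ m γ) ≠ 0 := by
    rw [Finset.prod_ne_zero_iff]
    intro γ hγ
    have := hpos γ hγ
    refine pow_ne_zero _ ?_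
    simpa using this
  have hPn : ∀ᶠ s : ℂ in nhds 0, (∏ γ ∈ Γ, (s ^ 2 - γ ^ 2) ^ m γ) ≠ 0 :=
    hPc.continuousAt.eventually_ne hP0
  have key : ∀ s : ℂ, s ≠ 0 → (∏ γ ∈ Γ, (s ^ 2 - γ ^ 2) ^ m γ) ≠ 0 →
      (-1) ^ n0 * h (-s) = ε * h s := by
    intro s hs hP
    have e1 := hsym s
    rw [hfh (-s), hfh s, neg_sq, neg_pow] at e1
    have hs' : s ^ n0 ≠ 0 := pow_ne_zero _ hs
    have e2 : (s ^ n0 * ∏ γ ∈ Γ, (s ^ 2 - γ ^ 2) ^ m γ) * ((-1) ^ n0 * h (-s)) =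
        (s ^ n0 * ∏ γ ∈ Γ, (s ^ 2 - γ ^ 2) ^ m γ) * (ε * h s) := by
      linear_combination e1
    exact mul_left_cancel₀ (mul_ne_zero hs' hP) e2
  have hcont1 : Filter.Tendsto (fun s : ℂ => (-1) ^ n0 * h (-s)) (nhdsWithin 0 {0}ᶜ)
      (nhds ((-1) ^ n0 * h (-0))) := by
    have hc : Continuous (fun s : ℂ => (-1) ^ n0 * h (-s)) := by
      have := hd.continuous
      fun_prop
    exact (hc.tendsto 0).mono_left nhdsWithin_le_nhds
  have hcont2 : Filter.Tendsto (fun s : ℂ => ε * h s) (nhdsWithin 0 {0}ᶜ)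
      (nhds (ε * h 0)) := by
    have hc : Continuous (fun s : ℂ => ε * h s) := by
      have := hd.continuous
      fun_prop
    exact (hc.tendsto 0).mono_left nhdsWithin_le_nhds
  have hev : (fun s : ℂ => (-1) ^ n0 * h (-s)) =ᶠ[nhdsWithin 0 {0}ᶜ] fun s => ε * h s := by
    filter_upwards [nhdsWithin_le_nhds hPn, self_mem_nhdsWithin] with s h1 h2
    exact key s h2 h1
  have hlim := tendsto_nhds_unique (hcont1.congr' hev) hcont2
  rw [neg_zero] at hlim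
  have hε : ε = (-1) ^ n0 := (mul_right_cancel₀ h0 hlim).symm
  have hone : ((-1 : ℂ) ^ n0) ≠ 0 := pow_ne_zero _ (by norm_num)
  have hnear : (fun s : ℂ => h (-s)) =ᶠ[nhds 0] h := by
    filter_upwards [hPn] with s h1
    by_cases hs : s = 0
    · rw [hs, neg_zero]
    · have := key s hs h1
      rw [hε] at this
      exact mul_left_cancel₀ hone this
  have hd' : Differentiable ℂ (fun s : ℂ => h (-s)) := hd.comp differentiable_neg
  have hall := AnalyticOnNhd.eq_of_eventuallyEq (f := fun s : ℂ => h (-s)) (g := h)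
    (fun w _ => hd'.analyticAt w) (fun w _ => hd.analyticAt w) hnear
  exact congrFun hall s

/-- As `W3283l.zi_finite`. -/
theorem zh_finite (f : ℂ → ℂ) (hf : Differentiable ℂ f) (hne : ∃ z, f z ≠ 0) (R : ℝ) :
    {i : ZH f | ‖(i : ℂ)‖ < R}.Finite := by
  by_contra hinf
  have hinf' : {i : ZH f | ‖(i : ℂ)‖ < R}.Infinite := hinf
  have hinj : Set.InjOn (fun i : ZH f => (i : ℂ)) {i : ZH f | ‖(i : ℂ)‖ < R} := by
    intro i _ j _ hij
    exact Subtype.ext hij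
  have h2 := hinf'.image hinj
  obtain ⟨x, -, hx⟩ := h2.exists_accPt_of_subset_isCompact
    (isCompact_closedBall (0 : ℂ) R) (by
      rintro z ⟨i, hi, rfl⟩
      have hi' : ‖(i : ℂ)‖ < R := hi
      rw [mem_closedBall_zero_iff]
      exact hi'.le)
  rw [accPt_iff_frequently_nhdsNE] at hx
  obtain ⟨z, hz⟩ := hne
  have hA : AnalyticOnNhd ℂ f Set.univ := fun w _ => hf.analyticAt w
  have h3 := hA.eqOn_zero_of_preconnected_of_frequently_eq_zero isPreconnected_univ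
    (Set.mem_univ x) (hx.mono (by
      rintro y ⟨i, -, rfl⟩
      exact i.2.2))
  exact hz (h3 (Set.mem_univ z))

/-- As `W3283l.zi_one`. -/
theorem zh_one (f : ℂ → ℂ) (hf : Differentiable ℂ f) (hne : ∃ z, f z ≠ 0) (i : ZH f) :
    (1 : ℝ) ≤ analyticOrderNatAt f (i : ℂ) := by
  have h3 : f (i : ℂ) = 0 := i.2.2
  have h4 := et2_ne_top f hf hne (i : ℂ)
  have h5 : analyticOrderAt f (i : ℂ) ≠ 0 := by
    intro h6
    exact ((hf.analyticAt _).analyticOrderAt_eq_zero.1 h6) h3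
  have h7 : analyticOrderNatAt f (i : ℂ) ≠ 0 := by
    unfold analyticOrderNatAt
    intro h8
    rw [ENat.toNat_eq_zero] at h8
    exact h8.elim h5 h4
  exact_mod_cast Nat.one_le_iff_ne_zero.2 h7

end W3283v
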