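import Pool.Agent.W_3283e1_v3.Ker
import Pool.Agent.W_3283e1_lw.Cnt
import Pool.Agent.W_3283e1_lw.Om

set_option autoImplicit false

namespace W3283v

open MeasureTheory

variable {ι : Type} {lam : ι → ℂ} {m : ι → ℝ}

/-- The integral against the kernel is an integral over `(0, η]`. -/
theorem Ev_supp {q : ℝ → ℂ} {η Q : ℝ} (h : KB q η Q) (f : ℝ → ℂ) :
    ∫ v : ℝ, q v * f v = ∫ v in Set.Ioc 0 η, q v * f v := by
  rw [← integral_Icc_eq_integral_Ioc]
  refine (setIntegral_eq_integral_of_forall_compl_eq_zero fun v hv => ?_).symm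
  have h1 : q v = 0 := by
    by_cases h0 : v < 0
    · exact h.neg v h0
    · refine h.pos v ?_
      by_contra h2
      exact hv ⟨not_lt.1 h0, not_lt.1 h2⟩
  rw [h1, zero_mul]

theorem Ev_int {q : ℝ → ℂ} {η Q : ℝ} (h : KB q η Q) (f : ℝ → ℂ)
    (hf : ContinuousOn f (Set.Icc 0 η)) :
    IntegrableOn (fun v => q v * f v) (Set.Ioc 0 η) := by
  have h1 : IntegrableOn f (Set.Ioc 0 η) := hf.integrableOn_Icc.mono_set Set.Ioc_subset_Icc_self
  exact Integrable.bdd_mul h1 h.meas.aestronglyMeasurable (Filter.Eventually.of_forall h.bd)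

theorem Ev_norm {q : ℝ → ℂ} {η Q : ℝ} (h : KB q η Q) (hη : 0 ≤ η) (hQ : 0 ≤ Q) (f : ℝ → ℂ)
    (hf : ContinuousOn f (Set.Icc 0 η)) (M : ℝ) (hM : ∀ v ∈ Set.Ioc 0 η, ‖f v‖ ≤ M) :
    ∫ v in Set.Ioc 0 η, ‖q v * f v‖ ≤ η * Q * M := by
  have h1 : ∫ v in Set.Ioc 0 η, ‖q v * f v‖ ≤ ∫ _v in Set.Ioc 0 η, Q * M := by
    refine setIntegral_mono_on (Ev_int h f hf).norm (integrableOn_const (by simp))
      measurableSet_Ioc fun v hv => ?_
    rw [norm_mul]
    exact mul_le_mul (h.bd v) (hM v hv) (norm_nonneg _) hQ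
  refine h1.trans (le_of_eq ?_)
  rw [setIntegral_const, smul_eq_mul, Real.volume_real_Ioc_of_le hη, sub_zero, mul_assoc]

theorem Ev_norm' {q : ℝ → ℂ} {η Q : ℝ} (h : KB q η Q) (hη : 0 ≤ η) (hQ : 0 ≤ Q) (f : ℝ → ℂ)
    (hf : ContinuousOn f (Set.Icc 0 η)) (M : ℝ) (hM : ∀ v ∈ Set.Ioc 0 η, ‖f v‖ ≤ M) :
    ‖∫ v in Set.Ioc 0 η, q v * f v‖ ≤ η * Q * M :=
  (norm_integral_le_integral_norm _).trans (Ev_norm h hη hQ f hf M hM)

theorem Ev_countable (hZ : ZC lam m) : Countable ι := by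
  have h1 := hZ.zd.sm.countable_support
  have h2 : Function.support (fun i => m i / ‖lam i‖ ^ 2) = Set.univ := by
    ext i
    simp only [Function.mem_support, Set.mem_univ, iff_true]
    have h3 := hZ.zd.one i
    have h4 := norm_pos_iff.2 (hZ.ne i)
    positivity
  rw [h2] at h1
  exact Set.countable_univ_iff.1 h1

/-- The terms. -/
theorem Ev_term (hZ : ZC lam m) {η U : ℝ} (hU : 0 ≤ U) (i : ι) (v : ℝ) (hv : v ∈ Set.Icc 0 η) :
    ‖(m i : ℂ) / (lam i) ^ 2 * (Complex.exp (lam i * U) * Complex.exp (lam i * v) +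
      Complex.exp (-(lam i * U)) * Complex.exp (-(lam i) * v) - 2)‖ ≤
      m i / ‖lam i‖ ^ 2 * (2 * Real.exp (U + η) + 2) := by
  have hm : 0 ≤ m i := by linarith [hZ.zd.one i]
  have h0 := hZ.re0 i
  have h1 := hZ.re1 i
  rw [norm_mul, norm_div, norm_pow, Complex.norm_real, Real.norm_eq_abs, abs_of_nonneg hm]
  refine mul_le_mul_of_nonneg_left ?_ (by positivity)
  have e1 : ‖Complex.exp (lam i * U)‖ ≤ Real.exp U := by
    rw [Complex.norm_exp, Complex.re_mul_ofReal]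
    exact Real.exp_le_exp.2 (by nlinarith)
  have e2 : ‖Complex.exp (lam i * v)‖ ≤ Real.exp η := by
    rw [Complex.norm_exp, Complex.re_mul_ofReal]
    exact Real.exp_le_exp.2 (by nlinarith [hv.1, hv.2])
  have e3 : ‖Complex.exp (-(lam i * U))‖ ≤ 1 := by
    rw [Complex.norm_exp, Complex.neg_re, Complex.re_mul_ofReal, Real.exp_le_one_iff]
    nlinarith
  have e4 : ‖Complex.exp (-(lam i) * v)‖ ≤ 1 := by
    rw [Complex.norm_exp, Complex.re_mul_ofReal, Complex.neg_re, Real.exp_le_one_iff]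
    nlinarith [hv.1]
  have e5 : ‖Complex.exp (lam i * U) * Complex.exp (lam i * v)‖ ≤ Real.exp (U + η) := by
    rw [norm_mul, Real.exp_add]
    exact mul_le_mul e1 e2 (norm_nonneg _) (Real.exp_pos _).le
  have e6 : ‖Complex.exp (-(lam i * U)) * Complex.exp (-(lam i) * v)‖ ≤ 1 := by
    rw [norm_mul]
    calc _ ≤ (1 : ℝ) * 1 := mul_le_mul e3 e4 (norm_nonneg _) zero_le_one
      _ = 1 := one_mul 1
  have e7 : (1 : ℝ) ≤ Real.exp (U + η) := Real.one_le_exp (by linarith [hv.1, hv.2])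
  have e8 : ‖(2 : ℂ)‖ = 2 := by simp
  calc _ ≤ ‖Complex.exp (lam i * U) * Complex.exp (lam i * v) +
      Complex.exp (-(lam i * U)) * Complex.exp (-(lam i) * v)‖ + ‖(2 : ℂ)‖ := norm_sub_le _ _
    _ ≤ (‖Complex.exp (lam i * U) * Complex.exp (lam i * v)‖ +
      ‖Complex.exp (-(lam i * U)) * Complex.exp (-(lam i) * v)‖) + ‖(2 : ℂ)‖ :=
        add_le_add_left (norm_add_le _ _) _
    _ ≤ 2 * Real.exp (U + η) + 2 := by
        rw [e8]
        linarith

/-- `|hat q w| ≤ η Q e^{η}` for `|Re w| ≤ 1`. -/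
theorem hat_bd {q : ℝ → ℂ} {η Q : ℝ} (h : KB q η Q) (hη : 0 ≤ η) (hQ : 0 ≤ Q) (w : ℂ)
    (hw : |w.re| ≤ 1) : ‖hat q w‖ ≤ η * Q * Real.exp η := by
  unfold hat
  rw [Ev_supp h]
  refine Ev_norm' h hη hQ (fun v : ℝ => Complex.exp (w * v)) ?_ _ fun v hv => ?_
  · fun_prop
  · rw [Complex.norm_exp, Complex.re_mul_ofReal]
    refine Real.exp_le_exp.2 ?_
    have h1 := abs_le.1 hw
    nlinarith [hv.1, hv.2]

/-- The functional evaluated by the explicit formula (`∫ q = ∫ v q = 0`; the series is absolutely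
convergent, uniformly for `v ∈ [0, η]`, by `Σ m/|λ|² < ∞`):
`∫ B(U+v) q(v) dv = Σ (m/λ²) (e^{λU} hat q λ + e^{-λU} hat q (-λ)) - ∫ Om1(U+v) q(v) dv`. -/
theorem ev (hZ : ZC lam m) {q : ℝ → ℂ} {η Q : ℝ} (h : KB q η Q) (hη : 0 ≤ η) (hQ : 0 ≤ Q)
    (h0 : ∫ v : ℝ, q v = 0) (h1 : ∫ v : ℝ, q v * v = 0) (A : ℝ → ℝ) (hA : EFC lam m A) (U : ℝ)
    (hU : 0 ≤ U) :
    Summable (fun i => (m i : ℂ) / (lam i) ^ 2 * (Complex.exp (lam i * U) * hat q (lam i) +
      Complex.exp (-(lam i * U)) * hat q (-(lam i)))) ∧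
    ∫ v in Set.Ioc 0 η, ((∫ t in Set.Ioc 0 (U + v), A t : ℝ) : ℂ) * q v =
      (∑' i, (m i : ℂ) / (lam i) ^ 2 * (Complex.exp (lam i * U) * hat q (lam i) +
        Complex.exp (-(lam i * U)) * hat q (-(lam i)))) -
      ∫ v in Set.Ioc 0 η, (Om1 (U + v) : ℂ) * q v := by
  have hcount : Countable ι := Ev_countable hZ
  obtain ⟨c3, hex⟩ := hA.ex
  obtain ⟨f, hf⟩ : ∃ f : ι → ℝ → ℂ, f = fun (i : ι) (v : ℝ) => (m i : ℂ) / (lam i) ^ 2 *
      (Complex.exp (lam i * U) * Complex.exp (lam i * v) +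
      Complex.exp (-(lam i * U)) * Complex.exp (-(lam i) * v) - 2) := ⟨_, rfl⟩
  have hfc : ∀ i, Continuous (f i) := by
    intro i
    rw [hf]
    fun_prop
  have hfb : ∀ i, ∀ v ∈ Set.Icc 0 η, ‖f i v‖ ≤ m i / ‖lam i‖ ^ 2 * (2 * Real.exp (U + η) + 2) := by
    intro i v hv
    rw [hf]
    exact Ev_term hZ hU i v hv
  have hG : ContinuousOn (fun v => ∑' i, f i v) (Set.Icc 0 η) :=
    continuousOn_tsum (fun i => (hfc i).continuousOn)
      (hZ.zd.sm.mul_right (2 * Real.exp (U + η) + 2)) (fun i v hv => hfb i v hv)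
  have hsum : HasSum (fun i => ∫ v in Set.Ioc 0 η, q v * f i v)
      (∫ v in Set.Ioc 0 η, ∑' i, q v * f i v) := by
    refine hasSum_integral_of_summable_integral_norm
      (fun i => Ev_int h (f i) (hfc i).continuousOn) ?_
    refine Summable.of_nonneg_of_le (fun i => integral_nonneg fun v => norm_nonneg _)
      (fun i => Ev_norm h hη hQ (f i) (hfc i).continuousOn _
        (fun v hv => hfb i v (Set.Ioc_subset_Icc_self hv))) ?_
    exact (hZ.zd.sm.mul_right (2 * Real.exp (U + η) + 2)).mul_left (η * Q)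
  have hterm : ∀ i, ∫ v in Set.Ioc 0 η, q v * f i v = (m i : ℂ) / (lam i) ^ 2 *
      (Complex.exp (lam i * U) * hat q (lam i) +
        Complex.exp (-(lam i * U)) * hat q (-(lam i))) := by
    intro i
    rw [← Ev_supp h]
    have k1 : Integrable (fun v : ℝ => q v * Complex.exp (lam i * v)) :=
      kb_int h _ (by fun_prop)
    have k2 : Integrable (fun v : ℝ => q v * Complex.exp (-(lam i) * v)) :=
      kb_int h _ (by fun_prop)
    have k3 : Integrable (fun v : ℝ => q v) := by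
      have := kb_int h (fun _ => 1) continuous_const
      simpa using this
    have k4 : ∫ v : ℝ, q v * f i v = ∫ v : ℝ, ((m i : ℂ) / (lam i) ^ 2 *
        (Complex.exp (lam i * U) * (q v * Complex.exp (lam i * v)) +
        Complex.exp (-(lam i * U)) * (q v * Complex.exp (-(lam i) * v))) -
        (m i : ℂ) / (lam i) ^ 2 * 2 * q v) := by
      congr 1
      funext v
      rw [hf]
      ring
    rw [k4, integral_sub, integral_const_mul, integral_add, integral_const_mul,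
      integral_const_mul, integral_const_mul, h0, mul_zero, sub_zero]
    · rfl
    · exact k1.const_mul _
    · exact k2.const_mul _
    · exact ((k1.const_mul _).add (k2.const_mul _)).const_mul _
    · exact k3.const_mul _
  have hsum' := hsum
  rw [funext hterm] at hsum'
  refine ⟨hsum'.summable, ?_⟩
  rw [hsum'.tsum_eq]
  have hOm : ContinuousOn (fun v => ((Om1 (U + v) : ℝ) : ℂ)) (Set.Icc 0 η) := by
    have c1 : IntegrableOn W3283l.om (Set.Icc 0 (U + η)) := by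
      rw [integrableOn_Icc_iff_integrableOn_Ioc]
      exact W3283l.om_int.mono_set Set.Ioc_subset_Ioi_self
    have c2 : ContinuousOn Om1 (Set.Icc 0 (U + η)) := intervalIntegral.continuousOn_primitive c1
    have c3 : ContinuousOn (fun v => Om1 (U + v)) (Set.Icc 0 η) := by
      refine c2.comp (by fun_prop) fun v hv => ?_
      exact ⟨by linarith [hv.1], by linarith [hv.2]⟩
    exact Complex.continuous_ofReal.comp_continuousOn c3
  have hcomb : ∫ v in Set.Ioc 0 η, ((∫ t in Set.Ioc 0 (U + v), A t : ℝ) : ℂ) * q v =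
      ∫ v in Set.Ioc 0 η, ((q v * ∑' i, f i v) + (c3 : ℂ) * (q v * ((U : ℂ) + v)) -
        q v * (Om1 (U + v) : ℂ)) := by
    refine setIntegral_congr_fun measurableSet_Ioc fun v hv => ?_
    have e1 := hex (U + v) (by linarith [hv.1])
    have e2 : (∑' i, 2 * (m i : ℂ) / (lam i) ^ 2 *
        (Complex.cosh (lam i * ((U + v : ℝ) : ℂ)) - 1)) = ∑' i, f i v := by
      refine tsum_congr fun i => ?_
      rw [hf]
      have e3 : lam i * ((U + v : ℝ) : ℂ) = lam i * U + lam i * v := by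
        push_cast
        ring
      have e4 : -(lam i) * (v : ℂ) = -(lam i * v) := by ring
      rw [Complex.cosh, e3, neg_add, Complex.exp_add, Complex.exp_add]
      dsimp only
      rw [e4]
      ring
    rw [e1, e2]
    push_cast
    ring
  rw [hcomb]
  have i1 : IntegrableOn (fun v => q v * ∑' i, f i v) (Set.Ioc 0 η) := Ev_int h _ hG
  have i2 : IntegrableOn (fun v : ℝ => (c3 : ℂ) * (q v * ((U : ℂ) + v))) (Set.Ioc 0 η) :=
    (Ev_int h (fun v : ℝ => (U : ℂ) + v) (by fun_prop)).const_mul _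
  have i3 : IntegrableOn (fun v => q v * (Om1 (U + v) : ℂ)) (Set.Ioc 0 η) := Ev_int h _ hOm
  have j2 : ∫ v in Set.Ioc 0 η, q v * ((U : ℂ) + v) = 0 := by
    rw [← Ev_supp h (fun v : ℝ => (U : ℂ) + v)]
    have k3 : Integrable (fun v : ℝ => q v) := by
      have := kb_int h (fun _ => 1) continuous_const
      simpa using this
    have k5 : Integrable (fun v : ℝ => q v * (v : ℂ)) := kb_int h _ (by fun_prop)
    have k4 : ∫ v : ℝ, q v * ((U : ℂ) + v) = ∫ v : ℝ, ((U : ℂ) * q v + q v * v) := by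
      congr 1
      funext v
      ring
    rw [k4, integral_add (k3.const_mul _) k5, integral_const_mul, h0, h1]
    simp
  have i12 : IntegrableOn (fun v : ℝ => (q v * ∑' i, f i v) + (c3 : ℂ) * (q v * ((U : ℂ) + v)))
      (Set.Ioc 0 η) := i1.add i2
  rw [integral_sub i12 i3, integral_add i1 i2, integral_const_mul, j2, mul_zero, add_zero]
  congr 1
  · refine setIntegral_congr_fun measurableSet_Ioc fun v _ => ?_
    exact tsum_mul_left.symm
  · refine setIntegral_congr_fun measurableSet_Ioc fun v _ => ?_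
    exact mul_comm _ _

/-- `Om1` is bounded (`W3283l.om_int`). -/
theorem Om1_bd : ∃ C : ℝ, ∀ u : ℝ, |Om1 u| ≤ C := by
  refine ⟨∫ t in Set.Ioi (0 : ℝ), |W3283l.om t|, fun u => ?_⟩
  have h1 : |Om1 u| ≤ ∫ t in Set.Ioc 0 u, |W3283l.om t| := by
    unfold Om1
    exact norm_integral_le_integral_norm (f := W3283l.om)
      (μ := volume.restrict (Set.Ioc 0 u))
  refine h1.trans ?_
  have h2 : IntegrableOn (fun t => |W3283l.om t|) (Set.Ioi 0) := W3283l.om_int.norm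
  exact setIntegral_mono_set h2 (Filter.Eventually.of_forall fun t => abs_nonneg _)
    (Set.Ioc_subset_Ioi_self).eventuallyLE

/-- The lower bound: one zero `i0` is kept, the other terms are estimated.  Suppose every `i ≠ i0` has
`Re λ ≤ δ` or `hat q λ = 0` or `‖hat q λ‖ ≤ τ`.  Then (`S = Σ m/|λ|²`)
`‖∫ B(U+v) q(v) dv‖ ≥ e^{β0 U} ‖hat q λ0‖/|λ0|² - S (2 η Q e^{η} e^{δU} + τ e^{U/2}) - C1 η Q`. -/
theorem ev_low (hZ : ZC lam m) (A : ℝ → ℝ) (hA : EFC lam m A) :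
    ∃ C1 S : ℝ, 0 ≤ C1 ∧ 0 ≤ S ∧ ∀ (q : ℝ → ℂ) (η Q : ℝ), KB q η Q → 0 ≤ η → 0 ≤ Q →
      ∫ v : ℝ, q v = 0 → ∫ v : ℝ, q v * v = 0 → ∀ (i0 : ι) (δ τ : ℝ), 0 ≤ δ → 0 ≤ τ →
      (∀ i, i ≠ i0 → (lam i).re ≤ δ ∨ ‖hat q (lam i)‖ ≤ τ) → ∀ U : ℝ, 0 ≤ U →
      Real.exp ((lam i0).re * U) * ‖hat q (lam i0)‖ / ‖lam i0‖ ^ 2 -
        S * (2 * (η * Q * Real.exp η) * Real.exp (δ * U) + τ * Real.exp (U / 2)) - C1 * (η * Q) ≤
      ‖∫ v in Set.Ioc 0 η, ((∫ t in Set.Ioc 0 (U + v), A t : ℝ) : ℂ) * q v‖ := by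
  classical
  obtain ⟨C, hC⟩ := Om1_bd
  have hC0 : 0 ≤ C := (abs_nonneg _).trans (hC 0)
  have hS0 : 0 ≤ ∑' i, m i / ‖lam i‖ ^ 2 := tsum_nonneg fun i => by
    have := hZ.zd.one i
    positivity
  refine ⟨C, ∑' i, m i / ‖lam i‖ ^ 2, hC0, hS0, ?_⟩
  intro q η Q h hη hQ h0 h1 i0 δ τ hδ hτ hi U hU
  obtain ⟨hsm, hev⟩ := ev hZ h hη hQ h0 h1 A hA U hU
  rw [hev]
  obtain ⟨b, hb⟩ : ∃ b : ℝ, b = η * Q * Real.exp η := ⟨_, rfl⟩
  have hb0 : 0 ≤ b := by rw [hb]; positivity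
  have hhat : ∀ i, ‖hat q (lam i)‖ ≤ b ∧ ‖hat q (-(lam i))‖ ≤ b := by
    intro i
    rw [hb]
    refine ⟨hat_bd h hη hQ _ ?_, hat_bd h hη hQ _ ?_⟩
    · rw [abs_of_nonneg (hZ.re0 i)]
      linarith [hZ.re1 i]
    · rw [Complex.neg_re, abs_neg, abs_of_nonneg (hZ.re0 i)]
      linarith [hZ.re1 i]
  rw [← hb]
  obtain ⟨main, hmain⟩ : ∃ main : ℂ, main = (m i0 : ℂ) / (lam i0) ^ 2 *
      (Complex.exp (lam i0 * U) * hat q (lam i0)) := ⟨_, rfl⟩
  have hR := hsm.hasSum.sub (hasSum_ite_eq i0 main)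
  have hexpU : ∀ i, ‖Complex.exp (lam i * U)‖ = Real.exp ((lam i).re * U) := by
    intro i
    rw [Complex.norm_exp, Complex.re_mul_ofReal]
  have hexpU' : ∀ i, ‖Complex.exp (-(lam i * U))‖ ≤ 1 := by
    intro i
    rw [Complex.norm_exp, Complex.neg_re, Complex.re_mul_ofReal, Real.exp_le_one_iff]
    nlinarith [hZ.re0 i]
  have hδU : 1 ≤ Real.exp (δ * U) := Real.one_le_exp (by positivity)
  have hRb : ∀ i, ‖(m i : ℂ) / (lam i) ^ 2 * (Complex.exp (lam i * U) * hat q (lam i) +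
      Complex.exp (-(lam i * U)) * hat q (-(lam i))) - (if i = i0 then main else 0)‖ ≤
      m i / ‖lam i‖ ^ 2 * (2 * b * Real.exp (δ * U) + τ * Real.exp (U / 2)) := by
    intro i
    have hm : 0 ≤ m i := by linarith [hZ.zd.one i]
    have hmm : ‖(m i : ℂ) / (lam i) ^ 2‖ = m i / ‖lam i‖ ^ 2 := by
      rw [norm_div, norm_pow, Complex.norm_real, Real.norm_eq_abs, abs_of_nonneg hm]
    have hτU : 0 ≤ τ * Real.exp (U / 2) := by positivity
    have hsec : ‖Complex.exp (-(lam i * U)) * hat q (-(lam i))‖ ≤ b := by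
      rw [norm_mul]
      calc _ ≤ 1 * b := mul_le_mul (hexpU' i) (hhat i).2 (norm_nonneg _) zero_le_one
        _ = b := one_mul b
    have hbb : b ≤ b * Real.exp (δ * U) := le_mul_of_one_le_right hb0 hδU
    by_cases hii : i = i0
    · subst hii
      rw [if_pos rfl, hmain]
      have e1 : (m i : ℂ) / (lam i) ^ 2 * (Complex.exp (lam i * U) * hat q (lam i) +
          Complex.exp (-(lam i * U)) * hat q (-(lam i))) - (m i : ℂ) / (lam i) ^ 2 *
          (Complex.exp (lam i * U) * hat q (lam i)) =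
          (m i : ℂ) / (lam i) ^ 2 * (Complex.exp (-(lam i * U)) * hat q (-(lam i))) := by ring
      rw [e1, norm_mul, hmm]
      refine mul_le_mul_of_nonneg_left ?_ (by positivity)
      linarith
    · rw [if_neg hii, sub_zero, norm_mul, hmm]
      refine mul_le_mul_of_nonneg_left ?_ (by positivity)
      refine (norm_add_le _ _).trans ?_
      rw [norm_mul (Complex.exp (lam i * U)), hexpU]
      rcases hi i hii with h2 | h2
      · have h3 : Real.exp ((lam i).re * U) * ‖hat q (lam i)‖ ≤ Real.exp (δ * U) * b :=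
          mul_le_mul (Real.exp_le_exp.2 (mul_le_mul_of_nonneg_right h2 hU)) (hhat i).1
            (norm_nonneg _) (Real.exp_pos _).le
        linarith
      · have h3 : Real.exp ((lam i).re * U) * ‖hat q (lam i)‖ ≤ Real.exp (U / 2) * τ :=
          mul_le_mul (Real.exp_le_exp.2 (by nlinarith [hZ.re1 i])) h2
            (norm_nonneg _) (Real.exp_pos _).le
        linarith
  have hT := tsum_of_norm_bounded (hZ.zd.sm.hasSum.mul_right
    (2 * b * Real.exp (δ * U) + τ * Real.exp (U / 2))) hRb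
  rw [hR.tsum_eq] at hT
  have hOm : ContinuousOn (fun v => ((Om1 (U + v) : ℝ) : ℂ)) (Set.Icc 0 η) := by
    have c1 : IntegrableOn W3283l.om (Set.Icc 0 (U + η)) := by
      rw [integrableOn_Icc_iff_integrableOn_Ioc]
      exact W3283l.om_int.mono_set Set.Ioc_subset_Ioi_self
    have c2 : ContinuousOn Om1 (Set.Icc 0 (U + η)) := intervalIntegral.continuousOn_primitive c1
    have c3 : ContinuousOn (fun v => Om1 (U + v)) (Set.Icc 0 η) := by
      refine c2.comp (by fun_prop) fun v hv => ?_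
      exact ⟨by linarith [hv.1], by linarith [hv.2]⟩
    exact Complex.continuous_ofReal.comp_continuousOn c3
  have hO : ‖∫ v in Set.Ioc 0 η, (Om1 (U + v) : ℂ) * q v‖ ≤ C * (η * Q) := by
    have e1 : ∫ v in Set.Ioc 0 η, (Om1 (U + v) : ℂ) * q v =
        ∫ v in Set.Ioc 0 η, q v * (Om1 (U + v) : ℂ) :=
      setIntegral_congr_fun measurableSet_Ioc fun v _ => mul_comm _ _
    rw [e1]
    refine (Ev_norm' h hη hQ (fun v => ((Om1 (U + v) : ℝ) : ℂ)) hOm C fun v _ => ?_).trans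
      (le_of_eq (by ring))
    rw [Complex.norm_real]
    exact hC _
  have hmn : Real.exp ((lam i0).re * U) * ‖hat q (lam i0)‖ / ‖lam i0‖ ^ 2 ≤ ‖main‖ := by
    rw [hmain, norm_mul, norm_div, norm_pow, norm_mul, hexpU, Complex.norm_real,
      Real.norm_eq_abs, abs_of_nonneg (by linarith [hZ.zd.one i0] : (0 : ℝ) ≤ m i0)]
    have h3 := hZ.zd.one i0
    calc Real.exp ((lam i0).re * U) * ‖hat q (lam i0)‖ / ‖lam i0‖ ^ 2
        = 1 / ‖lam i0‖ ^ 2 * (Real.exp ((lam i0).re * U) * ‖hat q (lam i0)‖) := by ring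
      _ ≤ m i0 / ‖lam i0‖ ^ 2 * (Real.exp ((lam i0).re * U) * ‖hat q (lam i0)‖) := by
          refine mul_le_mul_of_nonneg_right ?_ (by positivity)
          exact div_le_div_of_nonneg_right h3 (by positivity)
  obtain ⟨TT, hTT⟩ : ∃ TT : ℂ, TT = ∑' i, (m i : ℂ) / (lam i) ^ 2 *
      (Complex.exp (lam i * U) * hat q (lam i) +
      Complex.exp (-(lam i * U)) * hat q (-(lam i))) := ⟨_, rfl⟩
  obtain ⟨OO, hOO⟩ : ∃ OO : ℂ, OO = ∫ v in Set.Ioc 0 η, (Om1 (U + v) : ℂ) * q v := ⟨_, rfl⟩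
  rw [← hTT] at hT ⊢
  rw [← hOO] at hO ⊢
  have n1 : ‖main‖ ≤ ‖TT - OO‖ + ‖OO‖ + ‖TT - main‖ := by
    have e1 : main = (TT - OO) + OO - (TT - main) := by ring
    calc ‖main‖ = ‖(TT - OO) + OO - (TT - main)‖ := by rw [← e1]
      _ ≤ ‖(TT - OO) + OO‖ + ‖TT - main‖ := norm_sub_le _ _
      _ ≤ ‖TT - OO‖ + ‖OO‖ + ‖TT - main‖ := add_le_add_left (norm_add_le _ _) _
  linarith

end W3283v
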