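import Pool.Agent.W_3283e1_v3.Ker

set_option autoImplicit false

namespace W3283v

open MeasureTheory

/-- The primitive of a kernel. -/
noncomputable def prim (q : ℝ → ℂ) (v : ℝ) : ℂ := ∫ t in Set.Ioc 0 v, q t

/-- Integration by parts for primitives of integrable functions (Fubini). -/
theorem Fub_parts (a q : ℝ → ℂ) (η : ℝ) (ha : IntegrableOn a (Set.Ioc 0 η))
    (hq : IntegrableOn q (Set.Ioc 0 η)) :
    (∫ v in Set.Ioc 0 η, a v * ∫ t in Set.Ioc 0 v, q t) +
      (∫ v in Set.Ioc 0 η, (∫ t in Set.Ioc 0 v, a t) * q v) =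
      (∫ v in Set.Ioc 0 η, a v) * ∫ v in Set.Ioc 0 η, q v := by
  set μ : Measure ℝ := volume.restrict (Set.Ioc 0 η) with hμ
  have ha' : Integrable a μ := ha
  have hq' : Integrable q μ := hq
  have hG : Integrable (fun z : ℝ × ℝ => a z.1 * q z.2) (μ.prod μ) := ha'.mul_prod hq'
  have hm : MeasurableSet {z : ℝ × ℝ | z.2 ≤ z.1} := measurableSet_le measurable_snd measurable_fst
  have hG1 := hG.indicator hm
  have hG2 := hG.indicator hm.compl
  have h1 : ∫ z, a z.1 * q z.2 ∂(μ.prod μ) =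
      (∫ z, {z : ℝ × ℝ | z.2 ≤ z.1}.indicator (fun z : ℝ × ℝ => a z.1 * q z.2) z ∂(μ.prod μ)) +
      ∫ z, {z : ℝ × ℝ | z.2 ≤ z.1}ᶜ.indicator (fun z : ℝ × ℝ => a z.1 * q z.2) z ∂(μ.prod μ) := by
    rw [← integral_add hG1 hG2]
    refine integral_congr_ae (Filter.Eventually.of_forall fun z => ?_)
    by_cases hz : z ∈ {z : ℝ × ℝ | z.2 ≤ z.1}
    · change _ = Set.indicator _ _ z + Set.indicator _ _ z
      rw [Set.indicator_of_mem hz, Set.indicator_of_notMem (Set.notMem_compl_iff.2 hz), add_zero]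
    · change _ = Set.indicator _ _ z + Set.indicator _ _ z
      rw [Set.indicator_of_notMem hz, Set.indicator_of_mem (show z ∈ _ᶜ from hz), zero_add]
  have h2 : ∫ z, {z : ℝ × ℝ | z.2 ≤ z.1}.indicator (fun z : ℝ × ℝ => a z.1 * q z.2) z ∂(μ.prod μ) =
      ∫ v in Set.Ioc 0 η, a v * ∫ t in Set.Ioc 0 v, q t := by
    rw [integral_prod _ hG1]
    refine setIntegral_congr_fun measurableSet_Ioc fun v hv => ?_
    have h3 : ∀ t : ℝ, {z : ℝ × ℝ | z.2 ≤ z.1}.indicator (fun z : ℝ × ℝ => a z.1 * q z.2) (v, t) =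
        a v * (Set.Iic v).indicator q t := by
      intro t
      by_cases h : t ≤ v
      · rw [Set.indicator_of_mem (show (v, t) ∈ {z : ℝ × ℝ | z.2 ≤ z.1} from h),
          Set.indicator_of_mem (show t ∈ Set.Iic v from h)]
      · rw [Set.indicator_of_notMem (show (v, t) ∉ {z : ℝ × ℝ | z.2 ≤ z.1} from h),
          Set.indicator_of_notMem (show t ∉ Set.Iic v from h), mul_zero]
    simp only [h3]
    rw [integral_const_mul, integral_indicator measurableSet_Iic, hμ,
      Measure.restrict_restrict measurableSet_Iic]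
    have h4 : Set.Iic v ∩ Set.Ioc 0 η = Set.Ioc 0 v := by
      ext x
      simp only [Set.mem_inter_iff, Set.mem_Iic, Set.mem_Ioc]
      constructor
      · rintro ⟨h5, h6, _⟩
        exact ⟨h6, h5⟩
      · rintro ⟨h5, h6⟩
        exact ⟨h6, h5, h6.trans hv.2⟩
    rw [h4]
  have h5 : ∫ z, {z : ℝ × ℝ | z.2 ≤ z.1}ᶜ.indicator (fun z : ℝ × ℝ => a z.1 * q z.2) z ∂(μ.prod μ) =
      ∫ v in Set.Ioc 0 η, (∫ t in Set.Ioc 0 v, a t) * q v := by
    rw [integral_prod_symm _ hG2]
    refine setIntegral_congr_fun measurableSet_Ioc fun v hv => ?_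
    have h3 : ∀ t : ℝ, {z : ℝ × ℝ | z.2 ≤ z.1}ᶜ.indicator (fun z : ℝ × ℝ => a z.1 * q z.2) (t, v) =
        (Set.Iio v).indicator a t * q v := by
      intro t
      by_cases h : v ≤ t
      · rw [Set.indicator_of_notMem (show (t, v) ∉ {z : ℝ × ℝ | z.2 ≤ z.1}ᶜ from fun h' => h' h),
          Set.indicator_of_notMem (show t ∉ Set.Iio v from not_lt.2 h), zero_mul]
      · rw [Set.indicator_of_mem (show (t, v) ∈ {z : ℝ × ℝ | z.2 ≤ z.1}ᶜ from h),
          Set.indicator_of_mem (show t ∈ Set.Iio v from not_le.1 h)]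
    simp only [h3]
    rw [integral_mul_const, integral_indicator measurableSet_Iio, hμ,
      Measure.restrict_restrict measurableSet_Iio]
    have h4 : Set.Iio v ∩ Set.Ioc 0 η = Set.Ioo 0 v := by
      ext x
      simp only [Set.mem_inter_iff, Set.mem_Iio, Set.mem_Ioc, Set.mem_Ioo]
      constructor
      · rintro ⟨h5, h6, _⟩
        exact ⟨h6, h5⟩
      · rintro ⟨h5, h6⟩
        exact ⟨h6, h5, h6.le.trans hv.2⟩
    rw [h4, ← integral_Ioc_eq_integral_Ioo]
  rw [← h2, ← h5, ← h1]
  exact integral_prod_mul a q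

theorem Fub_int {q : ℝ → ℂ} {η Q : ℝ} (h : KB q η Q) : Integrable q := by
  have := kb_int h (fun _ => 1) continuous_const
  simpa using this

/-- The integral over `(0, v]`, `v ≥ η`, is the whole integral. -/
theorem Fub_all {f : ℝ → ℂ} {η v : ℝ} (hn : ∀ v : ℝ, v < 0 → f v = 0)
    (hp : ∀ v : ℝ, η < v → f v = 0) (hv : η ≤ v) : ∫ t in Set.Ioc 0 v, f t = ∫ t, f t := by
  refine setIntegral_eq_integral_of_ae_compl_eq_zero ?_
  have h0 : ∀ᵐ x : ℝ, x ≠ 0 := by
    rw [ae_iff]
    simp
  filter_upwards [h0] with x hx hx2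
  rw [Set.mem_Ioc, not_and_or, not_lt, not_le] at hx2
  rcases hx2 with h3 | h3
  · exact hn x (lt_of_le_of_ne h3 hx)
  · exact hp x (hv.trans_lt h3)

/-- `∫_0^η A (U+v) k(v) dv = - ∫ B (U+v) q(v) dv` with `B u = ∫_0^u A`, `k = prim q` (Fubini:
`∫_0^η A(U+v) ∫_0^v q(t) dt dv = ∫_0^η q(t) (B(U+η) - B(U+t)) dt`). -/
theorem fub {q : ℝ → ℂ} {η Q : ℝ} (h : KB q η Q) (hη : 0 ≤ η) (h0 : ∫ v : ℝ, q v = 0)
    (A : ℝ → ℝ) (hA : ∀ T : ℝ, IntegrableOn A (Set.Ioc 0 T)) (U : ℝ) (hU : 0 ≤ U) :
    ∫ v in Set.Ioc 0 η, (A (U + v) : ℂ) * prim q v =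
      -∫ v in Set.Ioc 0 η, ((∫ t in Set.Ioc 0 (U + v), A t : ℝ) : ℂ) * q v := by
  have hqi : IntegrableOn q (Set.Ioc 0 η) := (Fub_int h).integrableOn
  have hAi : ∀ T : ℝ, 0 ≤ T → IntervalIntegrable A volume 0 T := fun T hT =>
    (intervalIntegrable_iff_integrableOn_Ioc_of_le hT).2 (hA T)
  have ha0 : IntervalIntegrable A volume U (U + η) :=
    (hAi U hU).symm.trans (hAi (U + η) (by linarith))
  have ha1 : IntegrableOn (fun v => A (U + v)) (Set.Ioc 0 η) := by
    have h2 := ha0.comp_add_left U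
    rw [sub_self, add_sub_cancel_left] at h2
    exact (intervalIntegrable_iff_integrableOn_Ioc_of_le hη).1 h2
  have ha2 : IntegrableOn (fun v => (A (U + v) : ℂ)) (Set.Ioc 0 η) := ha1.ofReal
  have hq0 : ∫ v in Set.Ioc 0 η, q v = 0 := by
    rw [Fub_all h.neg h.pos le_rfl, h0]
  have hB : ∀ v : ℝ, 0 ≤ v → ∫ t in Set.Ioc 0 (U + v), A t =
      (∫ t in Set.Ioc 0 U, A t) + ∫ t in Set.Ioc 0 v, A (U + t) := by
    intro v hv
    rw [← intervalIntegral.integral_of_le (by linarith : (0 : ℝ) ≤ U + v),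
      ← intervalIntegral.integral_of_le hU, ← intervalIntegral.integral_of_le hv,
      intervalIntegral.integral_comp_add_left, add_zero,
      intervalIntegral.integral_add_adjacent_intervals (hAi U hU)
        ((hAi U hU).symm.trans (hAi (U + v) (by linarith)))]
  have h2 := Fub_parts (fun v => (A (U + v) : ℂ)) q η ha2 hqi
  rw [hq0, mul_zero] at h2
  have h3 : ∫ v in Set.Ioc 0 η, ((∫ t in Set.Ioc 0 (U + v), A t : ℝ) : ℂ) * q v =
      ∫ v in Set.Ioc 0 η, (∫ t in Set.Ioc 0 v, (A (U + t) : ℂ)) * q v := by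
    have h4 : ∀ v ∈ Set.Ioc 0 η, ((∫ t in Set.Ioc 0 (U + v), A t : ℝ) : ℂ) * q v =
        ((∫ t in Set.Ioc 0 U, A t : ℝ) : ℂ) * q v +
          (∫ t in Set.Ioc 0 v, (A (U + t) : ℂ)) * q v := by
      intro v hv
      rw [hB v hv.1.le, Complex.ofReal_add, add_mul]
      congr 2
      exact integral_complex_ofReal.symm
    rw [setIntegral_congr_fun measurableSet_Ioc h4, integral_add, integral_const_mul, hq0, mul_zero,
      zero_add]
    · exact hqi.const_mul _
    · -- bounded times integrable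
      have h5 : ContinuousOn (fun v => ∫ t in Set.Ioc 0 v, (A (U + t) : ℂ)) (Set.Icc 0 η) := by
        have h6 : ContinuousOn (fun v => ∫ t in (0 : ℝ)..v, (A (U + t) : ℂ)) (Set.Icc 0 η) := by
          refine (intervalIntegral.continuousOn_primitive_interval
            (by
              rw [Set.uIcc_of_le hη]
              exact (integrableOn_Icc_iff_integrableOn_Ioc).2 ha2)).mono ?_
          rw [Set.uIcc_of_le hη]
        refine h6.congr fun v hv => ?_
        change _ = ∫ t in (0 : ℝ)..v, (A (U + t) : ℂ)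
        rw [intervalIntegral.integral_of_le hv.1]
      obtain ⟨C, hC⟩ := isCompact_Icc.exists_bound_of_continuousOn h5
      refine Integrable.bdd_mul (c := C) hqi ?_ ?_
      · exact (h5.mono Set.Ioc_subset_Icc_self).aestronglyMeasurable measurableSet_Ioc
      · refine (ae_restrict_iff' measurableSet_Ioc).2 (Filter.Eventually.of_forall fun v hv => ?_)
        exact hC v (Set.Ioc_subset_Icc_self hv)
  rw [h3]
  unfold prim
  exact eq_neg_of_add_eq_zero_left h2

/-- `prim q` is measurable (continuous), bounded by `η Q`, vanishes outside `[0, η]` if `∫ q = 0`, and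
`∫ prim q = - ∫ v q` (Fubini). -/
theorem prim_basic {q : ℝ → ℂ} {η Q : ℝ} (h : KB q η Q) (hη : 0 ≤ η) (hQ : 0 ≤ Q)
    (h0 : ∫ v : ℝ, q v = 0) (h1 : ∫ v : ℝ, q v * v = 0) :
    KB (prim q) η (η * Q) ∧ ∫ v : ℝ, prim q v = 0 := by
  have hqi := Fub_int h
  have hneg : ∀ v : ℝ, v < 0 → prim q v = 0 := by
    intro v hv
    unfold prim
    rw [Set.Ioc_eq_empty (by linarith), Measure.restrict_empty, integral_zero_measure]
  have hpos : ∀ v : ℝ, η < v → prim q v = 0 := by
    intro v hv
    unfold prim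
    rw [Fub_all h.neg h.pos hv.le, h0]
  have hKB : KB (prim q) η (η * Q) := by
    refine ⟨?_, hneg, hpos, ?_⟩
    · have h2 : prim q = fun v => ∫ t in (0 : ℝ)..(max v 0), q t := by
        funext v
        unfold prim
        rcases le_or_gt 0 v with hv | hv
        · rw [max_eq_left hv, intervalIntegral.integral_of_le hv]
        · rw [max_eq_right hv.le, intervalIntegral.integral_same,
            Set.Ioc_eq_empty (by linarith), Measure.restrict_empty, integral_zero_measure]
      rw [h2]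
      have h3 : Continuous fun b => ∫ t in (0 : ℝ)..b, q t :=
        intervalIntegral.continuous_primitive (fun a b => hqi.intervalIntegrable) 0
      exact (h3.comp (continuous_id.max continuous_const)).measurable
    · intro v
      rcases lt_or_ge v 0 with hv | hv
      · rw [hneg v hv, norm_zero]
        positivity
      · rcases le_or_gt v η with hv2 | hv2
        · unfold prim
          have h4 := norm_setIntegral_le_of_norm_le_const (μ := volume) (s := Set.Ioc 0 v)
            (f := q) (C := Q) (by rw [Real.volume_Ioc]; exact ENNReal.ofReal_lt_top)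
            (fun x _ => h.bd x)
          refine h4.trans ?_
          rw [Real.volume_real_Ioc_of_le hv, sub_zero, mul_comm]
          exact mul_le_mul_of_nonneg_right hv2 hQ
        · rw [hpos v hv2, norm_zero]
          positivity
  refine ⟨hKB, ?_⟩
  have h2 := fub h hη h0 (fun _ => 1) (fun T => by
    rw [integrableOn_const_iff]
    right
    rw [Real.volume_Ioc]
    exact ENNReal.ofReal_lt_top) 0 le_rfl
  have h3 : ∫ v in Set.Ioc 0 η, (((1 : ℝ) : ℂ)) * prim q v = ∫ v, prim q v := by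
    rw [← Fub_all hneg hpos le_rfl]
    refine setIntegral_congr_fun measurableSet_Ioc fun v _ => ?_
    rw [Complex.ofReal_one, one_mul]
  rw [← h3, h2, neg_eq_zero, ← h1, ← Fub_all (f := fun v => q v * v) (η := η) (v := η)
    (fun v hv => by rw [h.neg v hv, zero_mul]) (fun v hv => by rw [h.pos v hv, zero_mul]) le_rfl]
  refine setIntegral_congr_fun measurableSet_Ioc fun v hv => ?_
  have h4 : ∫ _t in Set.Ioc 0 (0 + v), (1 : ℝ) = v := by
    rw [zero_add, setIntegral_const, Real.volume_real_Ioc_of_le hv.1.le, smul_eq_mul]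
    ring
  change ((∫ _t in Set.Ioc 0 (0 + v), (1 : ℝ) : ℝ) : ℂ) * q v = q v * v
  rw [h4, mul_comm]

/-- Upper bound of the functional from a bound of `e` in the mean on the window.  If
`|u e(u) - ∫_0^u e - A(u)| ≤ C` for `u > 0`, then with `k = prim q` (`∫ k = 0` removes `∫_0^U e`)
`|∫ A(U+v) k(v) dv| ≤ η Q ((U + 2 η) ∫_U^{U+η} |e| + C η)`. -/
theorem win_up {q : ℝ → ℂ} {η Q : ℝ} (h : KB q η Q) (hη : 0 ≤ η) (hQ : 0 ≤ Q)
    (h0 : ∫ v : ℝ, q v = 0) (h1 : ∫ v : ℝ, q v * v = 0) (A e : ℝ → ℝ)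
    (hA : ∀ T : ℝ, IntegrableOn A (Set.Ioc 0 T)) (he : ∀ T : ℝ, IntegrableOn e (Set.Ioc 0 T))
    (C : ℝ) (hC : 0 ≤ C) (hid : ∀ u : ℝ, 0 < u → |u * e u - (∫ t in Set.Ioc 0 u, e t) - A u| ≤ C)
    (U : ℝ) (hU : 0 < U) :
    ‖∫ v in Set.Ioc 0 η, (A (U + v) : ℂ) * prim q v‖ ≤
      η * Q * ((U + 2 * η) * (∫ u in Set.Ioc U (U + η), |e u|) + C * η) := by
  obtain ⟨hk, hk0⟩ := prim_basic h hη hQ h0 h1
  have hki := Fub_int hk
  have hk1 : ∫ v in Set.Ioc 0 η, prim q v = 0 := by
    rw [Fub_all hk.neg hk.pos le_rfl, hk0]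
  have hsh : ∀ f : ℝ → ℝ, (∀ T : ℝ, IntegrableOn f (Set.Ioc 0 T)) →
      IntervalIntegrable f volume U (U + η) ∧ IntegrableOn (fun v => f (U + v)) (Set.Ioc 0 η) := by
    intro f hf
    have hfi : ∀ T : ℝ, 0 ≤ T → IntervalIntegrable f volume 0 T := fun T hT =>
      (intervalIntegrable_iff_integrableOn_Ioc_of_le hT).2 (hf T)
    have ha0 : IntervalIntegrable f volume U (U + η) :=
      (hfi U hU.le).symm.trans (hfi (U + η) (by linarith))
    refine ⟨ha0, ?_⟩
    have h2 := ha0.comp_add_left U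
    rw [sub_self, add_sub_cancel_left] at h2
    exact (intervalIntegrable_iff_integrableOn_Ioc_of_le hη).1 h2
  obtain ⟨-, hA1⟩ := hsh A hA
  obtain ⟨he0, he1⟩ := hsh e he
  set I : ℝ := ∫ u in Set.Ioc U (U + η), |e u| with hI
  have hI0 : 0 ≤ I := integral_nonneg fun u => abs_nonneg _
  have heU : IntegrableOn e (Set.Ioc U (U + η)) :=
    (intervalIntegrable_iff_integrableOn_Ioc_of_le (by linarith)).1 he0
  set E : ℝ := ∫ t in Set.Ioc 0 U, e t with hE
  have hbdd : IntegrableOn (fun v => (A (U + v) : ℂ) * prim q v) (Set.Ioc 0 η) := by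
    refine Integrable.mul_bdd (c := η * Q) hA1.ofReal hk.meas.aestronglyMeasurable ?_
    exact Filter.Eventually.of_forall fun v => hk.bd v
  have h2 : ∫ v in Set.Ioc 0 η, (A (U + v) : ℂ) * prim q v =
      ∫ v in Set.Ioc 0 η, ((A (U + v) : ℂ) * prim q v + (E : ℂ) * prim q v) := by
    rw [integral_add hbdd (hki.integrableOn.const_mul _), integral_const_mul, hk1, mul_zero,
      add_zero]
  rw [h2]
  have hdiff : ∀ v ∈ Set.Ioc 0 η, |(∫ t in Set.Ioc 0 (U + v), e t) - E| ≤ I := by
    intro v hv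
    have hei : ∀ T : ℝ, 0 ≤ T → IntervalIntegrable e volume 0 T := fun T hT =>
      (intervalIntegrable_iff_integrableOn_Ioc_of_le hT).2 (he T)
    have h3 : (∫ t in Set.Ioc 0 (U + v), e t) - E = ∫ t in Set.Ioc U (U + v), e t := by
      rw [hE, ← intervalIntegral.integral_of_le (by linarith [hv.1] : (0 : ℝ) ≤ U + v),
        ← intervalIntegral.integral_of_le hU.le,
        ← intervalIntegral.integral_of_le (by linarith [hv.1] : U ≤ U + v),
        intervalIntegral.integral_interval_sub_left (hei _ (by linarith [hv.1])) (hei _ hU.le)]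
    rw [h3, ← Real.norm_eq_abs]
    refine (norm_integral_le_integral_norm _).trans ?_
    rw [hI]
    refine setIntegral_mono_set heU.norm ?_ ?_
    · exact Filter.Eventually.of_forall fun u => norm_nonneg _
    · exact (Set.Ioc_subset_Ioc_right (by linarith [hv.2])).eventuallyLE
  have hg : IntegrableOn (fun v => η * Q * ((U + η) * |e (U + v)| + (I + C))) (Set.Ioc 0 η) := by
    refine Integrable.const_mul ?_ _
    refine Integrable.add (he1.abs.const_mul _) ?_
    exact integrable_const _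
  have hbound : ∀ v ∈ Set.Ioc 0 η, ‖(A (U + v) : ℂ) * prim q v + (E : ℂ) * prim q v‖ ≤
      η * Q * ((U + η) * |e (U + v)| + (I + C)) := by
    intro v hv
    have hu : 0 < U + v := by linarith [hv.1]
    rw [← add_mul, norm_mul, ← Complex.ofReal_add, Complex.norm_real, Real.norm_eq_abs, mul_comm]
    have h3 : |A (U + v) + E| ≤ (U + η) * |e (U + v)| + (I + C) := by
      have h4 := hid (U + v) hu
      have h5 := hdiff v hv
      have h6 : |(U + v) * e (U + v)| ≤ (U + η) * |e (U + v)| := by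
        rw [abs_mul, abs_of_pos hu]
        exact mul_le_mul_of_nonneg_right (by linarith [hv.2]) (abs_nonneg _)
      have h7 : A (U + v) + E = (U + v) * e (U + v) -
          ((U + v) * e (U + v) - (∫ t in Set.Ioc 0 (U + v), e t) - A (U + v)) -
          ((∫ t in Set.Ioc 0 (U + v), e t) - E) := by ring
      rw [h7]
      refine (abs_sub _ _).trans ?_
      have h8 := abs_sub ((U + v) * e (U + v))
        ((U + v) * e (U + v) - (∫ t in Set.Ioc 0 (U + v), e t) - A (U + v))
      linarith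
    exact mul_le_mul (hk.bd v) h3 (abs_nonneg _) (by positivity)
  refine (norm_integral_le_of_norm_le hg
    ((ae_restrict_iff' measurableSet_Ioc).2 (Filter.Eventually.of_forall hbound))).trans ?_
  rw [integral_const_mul]
  refine mul_le_mul_of_nonneg_left ?_ (by positivity)
  rw [integral_add (he1.abs.const_mul _) (integrable_const _), integral_const_mul,
    setIntegral_const, Real.volume_real_Ioc_of_le hη, smul_eq_mul]
  have h9 : ∫ v in Set.Ioc 0 η, |e (U + v)| = I := by
    rw [hI, ← intervalIntegral.integral_of_le hη,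
      ← intervalIntegral.integral_of_le (by linarith : U ≤ U + η),
      intervalIntegral.integral_comp_add_left (fun u => |e u|), add_zero]
  rw [h9]
  have h10 : (η - 0) * (I + C) = η * I + C * η := by ring
  rw [h10]
  nlinarith

end W3283v
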