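import Mathlib

set_option autoImplicit false

namespace W3283v

open MeasureTheory

/-- The integral of an exponential. -/
theorem GrE_exp (a c u v : ℝ) (ha : 0 < a) (hc : 0 ≤ c) :
    ∫ t in u..v, c * Real.exp (a * t) ≤ c * Real.exp (a * v) / a := by
  have h1 : ∀ t ∈ Set.uIcc u v, HasDerivAt (fun t => c * Real.exp (a * t) / a)
      (c * Real.exp (a * t)) t := by
    intro t _
    have h2 : HasDerivAt (fun t => a * t) a t := by
      simpa using (hasDerivAt_id t).const_mul a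
    have h3 := ((h2.exp).const_mul c).div_const a
    refine h3.congr_deriv ?_
    field_simp
  have h4 : IntervalIntegrable (fun t => c * Real.exp (a * t)) volume u v :=
    Continuous.intervalIntegrable (by fun_prop) _ _
  rw [intervalIntegral.integral_eq_sub_of_hasDerivAt h1 h4]
  have h5 : 0 ≤ c * Real.exp (a * u) / a := by positivity
  linarith

/-- From `A` to `e`.  If `|u e(u) - ∫_0^u e - A(u)| ≤ C0` and `|A u| ≤ C0 e^{au}` (`a > 0`) then
`I(u) = ∫_0^u e` satisfies `|I(u)| ≤ |I(u1)| + ∫_{u1}^u (|I(t)| + 2 C0 e^{at})/t dt`; with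
`φ(u) = max_{[u1,u]} |I| e^{-at}` and `∫_{u1}^u e^{at}/t dt ≤ e^{au}/(a u1) ≤ e^{au}/2` for
`u1 = max 1 (2/a)`: `φ(u) ≤ |I(u1)| + (φ(u) + 2 C0)/2`, so `φ ≤ C`; then
`|e(u)| ≤ (|I(u)| + 2 C0 e^{au})/u`. -/
theorem grE (A e : ℝ → ℝ) (he : ∀ T : ℝ, IntegrableOn e (Set.Ioc 0 T)) (C0 a : ℝ) (hC0 : 0 ≤ C0)
    (ha : 0 < a) (hid : ∀ u : ℝ, 0 < u → |u * e u - (∫ t in Set.Ioc 0 u, e t) - A u| ≤ C0)
    (hA : ∀ u : ℝ, 0 ≤ u → |A u| ≤ C0 * Real.exp (a * u)) :
    ∃ C : ℝ, 0 ≤ C ∧ ∀ u : ℝ, 1 ≤ u → |e u| ≤ C * Real.exp (a * u) := by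
  obtain ⟨u₁, hu1, hu2⟩ : ∃ u₁ : ℝ, 1 ≤ u₁ ∧ 2 ≤ a * u₁ := by
    refine ⟨max 1 (2 / a), le_max_left _ _, ?_⟩
    have h1 : 2 / a ≤ max 1 (2 / a) := le_max_right _ _
    rw [div_le_iff₀ ha] at h1
    linarith
  have hu0 : 0 < u₁ := by linarith
  set I : ℝ → ℝ := fun u => ∫ t in Set.Ioc 0 u, e t with hI
  have hid' : ∀ u : ℝ, 0 < u → |u * e u - I u - A u| ≤ C0 := hid
  have hexp1 : ∀ u : ℝ, 0 ≤ u → 1 ≤ Real.exp (a * u) := fun u hu =>
    Real.one_le_exp (mul_nonneg ha.le hu)
  -- the bound of `e` by `I`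
  have heI : ∀ u : ℝ, 0 < u → |u * e u| ≤ |I u| + 2 * C0 * Real.exp (a * u) := by
    intro u hu
    have h1 := hid' u hu
    have h2 := hA u hu.le
    have h3 := hexp1 u hu.le
    have h4 : u * e u = (u * e u - I u - A u) + I u + A u := by ring
    have h5 : |u * e u| ≤ |u * e u - I u - A u| + |I u| + |A u| := by
      conv_lhs => rw [h4]
      exact (abs_add_le _ _).trans (add_le_add_left (abs_add_le _ _) _)
    have h6 : C0 ≤ C0 * Real.exp (a * u) := by nlinarith
    linarith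
  have hint : ∀ u v : ℝ, 0 ≤ u → u ≤ v → IntervalIntegrable e volume u v := by
    intro u v hu huv
    rw [intervalIntegrable_iff_integrableOn_Ioc_of_le huv]
    exact (he v).mono_set (Set.Ioc_subset_Ioc_left hu)
  have hIeq : ∀ u : ℝ, 0 ≤ u → I u = ∫ t in (0 : ℝ)..u, e t := fun u hu =>
    (intervalIntegral.integral_of_le hu).symm
  have hIsub : ∀ u v : ℝ, 0 ≤ u → u ≤ v → I v = I u + ∫ t in u..v, e t := by
    intro u v hu huv
    rw [hIeq u hu, hIeq v (hu.trans huv),
      intervalIntegral.integral_add_adjacent_intervals (hint 0 u le_rfl hu) (hint u v hu huv)]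
  -- the bound of `I` beyond `u₁`
  have key : ∀ U : ℝ, u₁ ≤ U →
      |I U| ≤ (2 * |I u₁| + 2 * C0) * Real.exp (a * U) := by
    intro U hU
    have hcont : ContinuousOn (fun t => |I t| * Real.exp (-(a * t))) (Set.Icc u₁ U) := by
      have h1 : ContinuousOn I (Set.Icc 0 U) :=
        intervalIntegral.continuousOn_primitive
          ((integrableOn_Icc_iff_integrableOn_Ioc).2 (he U))
      have h2 : ContinuousOn I (Set.Icc u₁ U) := h1.mono (Set.Icc_subset_Icc_left hu0.le)
      exact h2.abs.mul (by fun_prop)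
    obtain ⟨t₀, ht₀, hmax⟩ := isCompact_Icc.exists_isMaxOn (Set.nonempty_Icc.2 hU) hcont
    set S := |I t₀| * Real.exp (-(a * t₀)) with hS
    have hS0 : 0 ≤ S := by positivity
    have hmax' : ∀ t ∈ Set.Icc u₁ U, |I t| ≤ S * Real.exp (a * t) := by
      intro t ht
      have h1 : |I t| * Real.exp (-(a * t)) ≤ S := hmax ht
      have h2 := mul_le_mul_of_nonneg_right h1 (Real.exp_pos (a * t)).le
      rw [mul_assoc, ← Real.exp_add, neg_add_cancel, Real.exp_zero, mul_one] at h2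
      exact h2
    have h1 : |∫ t in u₁..t₀, e t| ≤ (S + 2 * C0) / 2 * Real.exp (a * t₀) := by
      have h2 : ‖∫ t in u₁..t₀, e t‖ ≤
          ∫ t in u₁..t₀, (S + 2 * C0) / u₁ * Real.exp (a * t) := by
        refine intervalIntegral.norm_integral_le_of_norm_le ht₀.1
          (Filter.Eventually.of_forall fun t ht => ?_)
          (Continuous.intervalIntegrable (by fun_prop) _ _)
        have ht1 : u₁ < t := ht.1
        have ht2 : t ≤ U := ht.2.trans ht₀.2
        have ht0 : 0 < t := hu0.trans ht1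
        have h3 := heI t ht0
        have h4 := hmax' t ⟨ht1.le, ht2⟩
        rw [abs_mul, abs_of_pos ht0] at h3
        rw [Real.norm_eq_abs]
        have h5 : u₁ * |e t| ≤ (S + 2 * C0) * Real.exp (a * t) := by
          have h6 : u₁ * |e t| ≤ t * |e t| :=
            mul_le_mul_of_nonneg_right ht1.le (abs_nonneg _)
          linarith
        rw [div_mul_eq_mul_div, le_div_iff₀ hu0]
        linarith
      rw [Real.norm_eq_abs] at h2
      refine h2.trans ((GrE_exp a _ u₁ t₀ ha (by positivity)).trans ?_)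
      have h7 : (S + 2 * C0) / u₁ * Real.exp (a * t₀) / a =
          (S + 2 * C0) * Real.exp (a * t₀) / (a * u₁) := by
        field_simp
      rw [h7]
      have h8 : 0 ≤ (S + 2 * C0) * Real.exp (a * t₀) := by positivity
      rw [div_le_iff₀ (by positivity)]
      nlinarith
    have h9 : |I t₀| ≤ |I u₁| + (S + 2 * C0) / 2 * Real.exp (a * t₀) := by
      rw [hIsub u₁ t₀ hu0.le ht₀.1]
      exact (abs_add_le _ _).trans (by linarith)
    have h10 : S ≤ |I u₁| + (S + 2 * C0) / 2 := by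
      have h11 := mul_le_mul_of_nonneg_right h9 (Real.exp_pos (-(a * t₀))).le
      rw [← hS] at h11
      have h12 : (|I u₁| + (S + 2 * C0) / 2 * Real.exp (a * t₀)) * Real.exp (-(a * t₀)) =
          |I u₁| * Real.exp (-(a * t₀)) + (S + 2 * C0) / 2 := by
        rw [add_mul, mul_assoc ((S + 2 * C0) / 2), ← Real.exp_add, add_neg_cancel,
          Real.exp_zero, mul_one]
      rw [h12] at h11
      have h13 : Real.exp (-(a * t₀)) ≤ 1 := by
        rw [Real.exp_le_one_iff]
        have := mul_nonneg ha.le (hu0.le.trans ht₀.1)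
        linarith
      have h14 := mul_le_mul_of_nonneg_left h13 (abs_nonneg (I u₁))
      linarith
    refine (hmax' U ⟨hU, le_rfl⟩).trans (mul_le_mul_of_nonneg_right ?_ (Real.exp_pos _).le)
    linarith
  -- the bound of `I` below `u₁`
  have low : ∀ u : ℝ, 0 ≤ u → u ≤ u₁ → |I u| ≤ ∫ t in Set.Ioc 0 u₁, |e t| := by
    intro u hu huu
    calc |I u| ≤ ∫ t in Set.Ioc 0 u, |e t| := by
          have h1 := norm_integral_le_integral_norm (μ := volume.restrict (Set.Ioc 0 u)) e
          simpa using h1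
      _ ≤ ∫ t in Set.Ioc 0 u₁, |e t| :=
          setIntegral_mono_set (he u₁).abs (Filter.Eventually.of_forall fun _ => abs_nonneg _)
            (Set.Ioc_subset_Ioc_right huu).eventuallyLE
  have hJ : 0 ≤ ∫ t in Set.Ioc 0 u₁, |e t| := integral_nonneg fun _ => abs_nonneg _
  refine ⟨(∫ t in Set.Ioc 0 u₁, |e t|) + (2 * |I u₁| + 2 * C0) + 2 * C0, by positivity,
    fun u hu => ?_⟩
  have hupos : 0 < u := by linarith
  have h1 : |e u| ≤ |u * e u| := by
    rw [abs_mul, abs_of_pos hupos]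
    nlinarith [abs_nonneg (e u)]
  have h2 := heI u hupos
  have h3 : |I u| ≤ ((∫ t in Set.Ioc 0 u₁, |e t|) + (2 * |I u₁| + 2 * C0)) *
      Real.exp (a * u) := by
    have h4 := hexp1 u hupos.le
    rcases le_total u u₁ with h | h
    · have h5 := low u hupos.le h
      have h6 : 0 ≤ 2 * |I u₁| + 2 * C0 := by positivity
      nlinarith
    · have h5 := key u h
      have h6 := Real.exp_pos (a * u)
      nlinarith
  calc |e u| ≤ |I u| + 2 * C0 * Real.exp (a * u) := h1.trans h2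
    _ ≤ ((∫ t in Set.Ioc 0 u₁, |e t|) + (2 * |I u₁| + 2 * C0)) * Real.exp (a * u) +
        2 * C0 * Real.exp (a * u) := by linarith
    _ = _ := by ring

end W3283v
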