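import Pool.Agent.W_3283e1_v3.Ker

set_option autoImplicit false

namespace W3283v

open MeasureTheory

/-- The indicator of `[0,h]` divided by `h`. -/
theorem KerB_base (h : ℝ) (hh : 0 < h) :
    ∃ q : ℝ → ℂ, KB q h (1 / h) ∧
      ∀ w : ℂ, w ≠ 0 → hat q w = (Complex.exp (w * h) - 1) / (w * h) := by
  have hc : (h : ℂ) ≠ 0 := by exact_mod_cast hh.ne'
  refine ⟨(Set.Icc 0 h).indicator fun _ => ((h⁻¹ : ℝ) : ℂ), ⟨?_, ?_, ?_, ?_⟩, fun w hw => ?_⟩
  · exact measurable_const.indicator measurableSet_Icc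
  · intro v hv
    exact Set.indicator_of_notMem (fun hm => absurd hm.1 (not_le.2 hv)) _
  · intro v hv
    exact Set.indicator_of_notMem (fun hm => absurd hm.2 (not_le.2 hv)) _
  · intro v
    refine (norm_indicator_le_norm_self _ _).trans (le_of_eq ?_)
    rw [Complex.norm_real, Real.norm_eq_abs, abs_of_pos (inv_pos.2 hh), one_div]
  · unfold hat
    have h1 : (fun v : ℝ => (Set.Icc 0 h).indicator (fun _ => ((h⁻¹ : ℝ) : ℂ)) v *
        Complex.exp (w * v)) =
        (Set.Icc 0 h).indicator (fun v : ℝ => ((h⁻¹ : ℝ) : ℂ) * Complex.exp (w * v)) := by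
      funext v
      by_cases hv : v ∈ Set.Icc 0 h
      · rw [Set.indicator_of_mem hv, Set.indicator_of_mem hv]
      · rw [Set.indicator_of_notMem hv, Set.indicator_of_notMem hv, zero_mul]
    rw [h1, integral_indicator measurableSet_Icc, integral_Icc_eq_integral_Ioc,
      ← intervalIntegral.integral_of_le hh.le, intervalIntegral.integral_const_mul,
      integral_exp_mul_complex hw]
    push_cast
    rw [mul_zero, Complex.exp_zero]
    field_simp

/-- The B-spline: `q = h⁻¹ 1_{[0,h]}` and `n - 1` applications of `ker_avg` (induction on `n`). -/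
theorem ker_spl (h : ℝ) (hh : 0 < h) (n : ℕ) (hn : 1 ≤ n) :
    ∃ q : ℝ → ℂ, KB q (n * h) (1 / h) ∧
      ∀ w : ℂ, w ≠ 0 → hat q w = ((Complex.exp (w * h) - 1) / (w * h)) ^ n := by
  induction n, hn using Nat.le_induction with
  | base =>
    obtain ⟨q, hq, hq'⟩ := KerB_base h hh
    refine ⟨q, ?_, fun w hw => ?_⟩
    · rw [Nat.cast_one, one_mul]
      exact hq
    · rw [pow_one, hq' w hw]
  | succ n _ ih =>
    obtain ⟨q, hq, hq'⟩ := ih
    obtain ⟨q', h1, -, h2⟩ := ker_avg hq h hh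
    refine ⟨q', ?_, fun w hw => ?_⟩
    · have e : ((n + 1 : ℕ) : ℝ) * h = n * h + h := by push_cast; ring
      rw [e]
      exact h1
    · rw [h2 w hw, hq' w hw, pow_succ]
      ring

theorem KerB_mono {q : ℝ → ℂ} {η Q Q' : ℝ} (h : KB q η Q) (hQ : Q ≤ Q') : KB q η Q' :=
  ⟨h.meas, h.neg, h.pos, fun v => (h.bd v).trans hQ⟩

theorem KerB_norm (r : ℝ) (hr : 0 ≤ r) (hr1 : r ≤ 1) (z : ℂ) (hz : z.re ≤ 1 / 2) :
    ‖Complex.exp (z * r)‖ ≤ 2 := by
  rw [Complex.norm_exp]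
  have e : (z * (r : ℂ)).re = z.re * r := by simp
  rw [e]
  have h1 : z.re * r ≤ 1 / 2 := by nlinarith
  have h2 : Real.exp (z.re * r) ≤ Real.exp (1 / 2) := Real.exp_le_exp.2 h1
  have h3 : Real.exp (1 / 2) ≤ 2 := by
    have h4 : Real.exp (1 / 2) ^ 2 ≤ 2 ^ 2 := by
      rw [← Real.exp_nat_mul]
      have h5 : ((2 : ℕ) : ℝ) * (1 / 2) = 1 := by norm_num
      rw [h5]
      have := Real.exp_one_lt_d9
      linarith
    exact le_of_sq_le_sq h4 (by norm_num)
  exact h2.trans h3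

theorem KerB_prod (h : ℝ) (hh : 0 < h) (n : ℕ) (hn : 1 ≤ n) (r : ℝ) (hr : 0 ≤ r) (hr1 : r ≤ 1)
    (S : Finset ℂ) (hS : ∀ z ∈ S, z.re ≤ 1 / 2) :
    ∃ q : ℝ → ℂ, KB q (n * h + S.card * r) (3 ^ S.card / h) ∧
      ∀ w : ℂ, w ≠ 0 → hat q w = ((Complex.exp (w * h) - 1) / (w * h)) ^ n *
        (∏ z ∈ S, (Complex.exp (w * r) - Complex.exp (z * r))) := by
  classical
  induction S using Finset.induction_on with
  | empty =>
    obtain ⟨q, hq, hq'⟩ := ker_spl h hh n hn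
    refine ⟨q, ?_, fun w hw => ?_⟩
    · simpa using hq
    · rw [hq' w hw, Finset.prod_empty, mul_one]
  | insert z S hz ih =>
    obtain ⟨q, hq, hq'⟩ := ih fun y hy => hS y (Finset.mem_insert_of_mem hy)
    have hη : 0 ≤ (n : ℝ) * h + S.card * r := by positivity
    obtain ⟨q', h1, h2⟩ := ker_dif hq r hr hη (Complex.exp (z * r))
    refine ⟨q', ?_, fun w hw => ?_⟩
    · rw [Finset.card_insert_of_notMem hz]
      have e : (n : ℝ) * h + ((S.card + 1 : ℕ) : ℝ) * r = n * h + S.card * r + r := by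
        push_cast; ring
      rw [e]
      refine KerB_mono h1 ?_
      have h3 := KerB_norm r hr hr1 z (hS z (Finset.mem_insert_self z S))
      have h4 : (0 : ℝ) ≤ 3 ^ S.card / h := by positivity
      rw [pow_succ, mul_comm ((3 : ℝ) ^ S.card) 3, mul_div_assoc]
      exact mul_le_mul_of_nonneg_right (by linarith) h4
    · rw [h2, hq' w hw, Finset.prod_insert hz]
      ring

/-- The kernel: `n` averagings of width `h` (`ker_spl`), the differences `ker_dif` with `c = e^{zr}`,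
`‖c‖ ≤ 2`, at the points `z` of a finite set `S` (induction on `S`) and the second difference
`ker_two`. -/
theorem ker (h : ℝ) (hh : 0 < h) (n : ℕ) (hn : 1 ≤ n) (r : ℝ) (hr : 0 ≤ r) (hr1 : r ≤ 1)
    (S : Finset ℂ) (hS : ∀ z ∈ S, z.re ≤ 1 / 2) :
    ∃ q : ℝ → ℂ, KB q (n * h + (S.card + 2) * r) (4 * 3 ^ S.card / h) ∧
      ∫ v : ℝ, q v = 0 ∧ ∫ v : ℝ, q v * v = 0 ∧
      ∀ w : ℂ, w ≠ 0 → hat q w = ((Complex.exp (w * h) - 1) / (w * h)) ^ n *
        (∏ z ∈ S, (Complex.exp (w * r) - Complex.exp (z * r))) * (Complex.exp (w * r) - 1) ^ 2 := by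
  obtain ⟨q, hq, hq'⟩ := KerB_prod h hh n hn r hr hr1 S hS
  have hη : 0 ≤ (n : ℝ) * h + S.card * r := by positivity
  obtain ⟨q', h1, h2, h3, h4⟩ := ker_two hq r hr hη
  refine ⟨q', ?_, h2, h3, fun w hw => ?_⟩
  · have e : (n : ℝ) * h + ((S.card : ℝ) + 2) * r = n * h + S.card * r + 2 * r := by ring
    rw [e, mul_div_assoc]
    exact h1
  · rw [h4, hq' w hw]
    ring

end W3283v
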