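import Pool.Agent.W_3283e1_v3.Par
import Pool.Agent.W_3283e1_v3.Fub
import Pool.Agent.W_3283e1_v3.GrA
import Pool.Agent.W_3283e1_v3.GrE

set_option autoImplicit false

namespace W3283v

open MeasureTheory Filter Topology

variable {ι : Type} {lam : ι → ℂ} {m : ι → ℝ}

theorem LocM_int {A : ℝ → ℝ} (hA : EFC lam m A) (T : ℝ) : IntegrableOn A (Set.Ioc 0 T) := by
  obtain ⟨C, hC⟩ := hA.bd
  refine Measure.integrableOn_of_bounded (M := |C| * Real.exp (3 / 4 * T)) measure_Ioc_lt_top.ne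
    hA.meas.aestronglyMeasurable ?_
  filter_upwards [ae_restrict_mem measurableSet_Ioc] with u hu
  rw [Real.norm_eq_abs]
  refine (hC u hu.1.le).trans ?_
  have h1 : Real.exp (3 / 4 * u) ≤ Real.exp (3 / 4 * T) := Real.exp_le_exp.2 (by linarith [hu.2])
  exact mul_le_mul (le_abs_self C) h1 (Real.exp_pos _).le (abs_nonneg _)

theorem LocM_ev (a B C : ℝ) (ha : 0 < a) (hB : 0 ≤ B) (hC : 0 ≤ C) :
    ∃ U0 : ℝ, 1 ≤ U0 ∧ ∀ U : ℝ, U0 ≤ U → B * (C + 3 * U) < Real.exp (a * U) := by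
  refine ⟨max 1 (2 * B * (C + 3) / a ^ 2), le_max_left _ _, fun U hU => ?_⟩
  have hU1 : 1 ≤ U := (le_max_left _ _).trans hU
  have hU2 : 2 * B * (C + 3) / a ^ 2 ≤ U := (le_max_right _ _).trans hU
  have hU0 : 0 < U := by linarith
  have h1 := Real.quadratic_le_exp_of_nonneg (x := a * U) (by positivity)
  rw [div_le_iff₀ (by positivity)] at hU2
  have h2 : B * (C + 3 * U) ≤ B * (C + 3) * U := by nlinarith [mul_nonneg hB hC]
  have h3 : 2 * (B * (C + 3) * U) ≤ (a * U) ^ 2 := by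
    calc 2 * (B * (C + 3) * U) = 2 * B * (C + 3) * U := by ring
      _ ≤ U * a ^ 2 * U := mul_le_mul_of_nonneg_right hU2 hU0.le
      _ = (a * U) ^ 2 := by ring
  have h4 : 0 < a * U := by positivity
  linarith

/-- the final arithmetic of the local theorem in the mean -/
theorem LocM_num (β c ε n S C0 C1 U η Q J h : ℝ) (hn : 0 < n) (hS : 0 ≤ S) (hC0 : 0 ≤ C0)
    (hC1 : 0 ≤ C1) (hU : 1 ≤ U) (hη : 0 < η) (hη1 : η ≤ 1) (hQ0 : 0 ≤ Q)
    (hQ : Q ≤ Real.exp (ε * U)) (hε : 0 < ε) (hc : 0 < c) (hJ0 : 0 ≤ J)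
    (hJ : J < Real.exp (c * U)) (hh : Real.exp (-(ε * U)) ≤ h)
    (hev : n ^ 2 * ((2 * S * Real.exp 1 + S + C1 + C0) + 3 * U) < Real.exp ((β - c - 2 * ε) * U))
    (h5 : Real.exp (β * U) * h / n ^ 2 - S * (2 * (η * Q * Real.exp η) * Real.exp (c / 2 * U) +
      Real.exp (-U) * Real.exp (U / 2)) - C1 * (η * Q) ≤ η * Q * ((U + 2 * η) * J + C0 * η)) :
    False := by
  have hE1 : 1 ≤ Real.exp (ε * U) := Real.one_le_exp (by positivity)
  have hEc1 : 1 ≤ Real.exp (c * U) := Real.one_le_exp (by positivity)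
  set E := Real.exp (ε * U) with hE
  set Ec := Real.exp (c * U) with hEc
  have hP0 : 0 ≤ η * Q := by positivity
  have hP : η * Q ≤ E := by nlinarith
  have he : Real.exp η ≤ Real.exp 1 := Real.exp_le_exp.2 hη1
  have hd : Real.exp (c / 2 * U) ≤ Ec := Real.exp_le_exp.2 (by nlinarith)
  have hz : Real.exp (-U) * Real.exp (U / 2) ≤ 1 := by
    rw [← Real.exp_add]
    exact Real.exp_le_one_iff.2 (by linarith)
  set P := η * Q with hPd
  have e0 : 0 < Real.exp 1 := Real.exp_pos _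
  have a1 : P * Real.exp η * Real.exp (c / 2 * U) ≤ E * Real.exp 1 * Ec := by
    apply mul_le_mul _ hd (Real.exp_pos _).le (by positivity)
    exact mul_le_mul hP he (Real.exp_pos _).le (by positivity)
  have a2 : S * (2 * (P * Real.exp η) * Real.exp (c / 2 * U) +
      Real.exp (-U) * Real.exp (U / 2)) ≤ (2 * S * Real.exp 1 + S) * (E * Ec) := by
    have b1 : 2 * (P * Real.exp η) * Real.exp (c / 2 * U) +
        Real.exp (-U) * Real.exp (U / 2) ≤ 2 * (E * Real.exp 1 * Ec) + E * Ec := by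
      have b2 : (1 : ℝ) ≤ E * Ec := by nlinarith
      linarith
    calc S * (2 * (P * Real.exp η) * Real.exp (c / 2 * U) +
        Real.exp (-U) * Real.exp (U / 2)) ≤ S * (2 * (E * Real.exp 1 * Ec) + E * Ec) :=
          mul_le_mul_of_nonneg_left b1 hS
      _ = _ := by ring
  have hEEc : E ≤ E * Ec := by nlinarith
  have a3 : C1 * P ≤ C1 * (E * Ec) := mul_le_mul_of_nonneg_left (hP.trans hEEc) hC1
  have a4 : P * ((U + 2 * η) * J + C0 * η) ≤ (3 * U + C0) * (E * Ec) := by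
    have b1 : (U + 2 * η) * J + C0 * η ≤ (3 * U + C0) * Ec := by
      have b2 : (U + 2 * η) * J ≤ (3 * U) * Ec := by
        apply mul_le_mul (by linarith) hJ.le hJ0 (by linarith)
      have b3 : C0 * η ≤ C0 * Ec := mul_le_mul_of_nonneg_left (by linarith) hC0
      linarith
    have b4 : 0 ≤ (U + 2 * η) * J + C0 * η := by positivity
    calc P * ((U + 2 * η) * J + C0 * η) ≤ E * ((3 * U + C0) * Ec) :=
          mul_le_mul hP b1 b4 (by positivity)
      _ = _ := by ring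
  have a5 : Real.exp (β * U) * h / n ^ 2 ≤
      ((2 * S * Real.exp 1 + S + C1 + C0) + 3 * U) * (E * Ec) := by
    have : ((2 * S * Real.exp 1 + S + C1 + C0) + 3 * U) * (E * Ec) =
      (2 * S * Real.exp 1 + S) * (E * Ec) + C1 * (E * Ec) + (3 * U + C0) * (E * Ec) := by ring
    rw [this]
    linarith
  rw [div_le_iff₀ (by positivity)] at a5
  have a6 : Real.exp (β * U) * Real.exp (-(ε * U)) ≤ Real.exp (β * U) * h :=
    mul_le_mul_of_nonneg_left hh (Real.exp_pos _).le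
  have a7 : Real.exp ((β - c - 2 * ε) * U) * (E * Ec) =
      Real.exp (β * U) * Real.exp (-(ε * U)) := by
    rw [hE, hEc, ← Real.exp_add, ← Real.exp_add, ← Real.exp_add]
    congr 1
    ring
  have a8 : 0 < E * Ec := by positivity
  have a9 : n ^ 2 * ((2 * S * Real.exp 1 + S + C1 + C0) + 3 * U) * (E * Ec) <
      Real.exp ((β - c - 2 * ε) * U) * (E * Ec) := mul_lt_mul_of_pos_right hev a8
  rw [a7] at a9
  have a10 : n ^ 2 * ((2 * S * Real.exp 1 + S + C1 + C0) + 3 * U) * (E * Ec) =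
      ((2 * S * Real.exp 1 + S + C1 + C0) + 3 * U) * (E * Ec) * n ^ 2 := by ring
  rw [a10] at a9
  linarith

theorem LocM_core (hZ : ZC lam m) (hD : Dens lam) (A e : ℝ → ℝ) (hA : EFC lam m A)
    (he : ∀ T : ℝ, IntegrableOn e (Set.Ioc 0 T)) (C0 : ℝ) (hC0 : 0 ≤ C0)
    (hid : ∀ u : ℝ, 0 < u → |u * e u - (∫ t in Set.Ioc 0 u, e t) - A u| ≤ C0) (i0 : ι) (c : ℝ)
    (hc : 0 < c) (hc0 : c < (lam i0).re) (η : ℝ) (hη : 0 < η) (hη1 : η ≤ 1) :
    ∃ U0 : ℝ, 1 ≤ U0 ∧ ∀ U : ℝ, U0 ≤ U → Real.exp (c * U) ≤ ∫ u in Set.Ioc U (U + η), |e u| := by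
  set ε := ((lam i0).re - c) / 8 with hεd
  have hε : 0 < ε := by
    have : 0 < (lam i0).re - c := by linarith
    positivity
  obtain ⟨C1, S, hC1, hS, hlow⟩ := ev_low hZ A hA
  obtain ⟨U1, hU11, hpar⟩ := par hZ.inj hZ.re0 hZ.re1 hZ.ne hD i0 (c / 2) (by positivity)
    (by linarith) η hη hη1 ε hε
  have hn : 0 < ‖lam i0‖ := norm_pos_iff.2 (hZ.ne i0)
  obtain ⟨U2, hU21, hev⟩ := LocM_ev ((lam i0).re - c - 2 * ε) (‖lam i0‖ ^ 2)
    (2 * S * Real.exp 1 + S + C1 + C0) (by rw [hεd]; linarith) (by positivity)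
    (by have := Real.exp_pos 1; positivity)
  refine ⟨max U1 U2, le_max_of_le_left hU11, fun U hU => ?_⟩
  have hUU1 : U1 ≤ U := (le_max_left _ _).trans hU
  have hUU2 : U2 ≤ U := (le_max_right _ _).trans hU
  have hU1 : 1 ≤ U := hU11.trans hUU1
  by_contra hJ
  rw [not_le] at hJ
  obtain ⟨q, Q, hq, hQ0, hQ, h0, h1, hz, hz0⟩ := hpar U hUU1
  have h2 := hlow q η Q hq hη.le hQ0 h0 h1 i0 (c / 2) (Real.exp (-U)) (by positivity)
    (Real.exp_pos _).le hz U (by linarith)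
  have h3 := fub hq hη.le h0 A (LocM_int hA) U (by linarith)
  have h4 := win_up hq hη.le hQ0 h0 h1 A e (LocM_int hA) he C0 hC0 hid U (by linarith)
  rw [h3, norm_neg] at h4
  exact LocM_num (lam i0).re c ε ‖lam i0‖ S C0 C1 U η Q _ _ hn hS hC0 hC1 hU1 hη hη1 hQ0 hQ hε hc
    (integral_nonneg fun _ => abs_nonneg _) hJ hz0 (hev U hUU2) (h2.trans h4)

theorem LocM_intE {e : ℝ → ℝ} (he : ∀ T : ℝ, IntegrableOn e (Set.Ioc 0 T)) (U V : ℝ)
    (hU : 0 ≤ U) : IntegrableOn (fun u => |e u|) (Set.Ioc U V) :=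
  ((he V).mono_set (Set.Ioc_subset_Ioc_left hU)).abs

/-- The local theorem in the mean: if `λ0 = lam i0` is a zero with `0 < c < Re λ0 = β0`, then
`∫_U^{U+η} |e| ≥ e^{cU}` for all large `U`.  One may assume `η ≤ 1`.  `par` with `δ = c/2`,
`ε = min (β0 - c) c / 8`; `fub` (`A` is integrable on `(0,T]` by `EFC.meas`, `EFC.bd`), `win_up` and `ev_low`
(`τ = e^{-U}`) give `e^{β0 U - εU}/‖λ0‖² ≤ S (2 η Q e^η e^{δU} + e^{-U/2}) + C1 η Q + η Q ((U + 2η) ∫|e| + C0 η)`
with `Q ≤ e^{εU}`. -/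
theorem loc_mean (hZ : ZC lam m) (hD : Dens lam) (A e : ℝ → ℝ) (hA : EFC lam m A)
    (he : ∀ T : ℝ, IntegrableOn e (Set.Ioc 0 T)) (C0 : ℝ) (hC0 : 0 ≤ C0)
    (hid : ∀ u : ℝ, 0 < u → |u * e u - (∫ t in Set.Ioc 0 u, e t) - A u| ≤ C0) (i0 : ι) (c : ℝ)
    (hc : 0 < c) (hc0 : c < (lam i0).re) (η : ℝ) (hη : 0 < η) :
    ∃ U0 : ℝ, 1 ≤ U0 ∧ ∀ U : ℝ, U0 ≤ U → Real.exp (c * U) ≤ ∫ u in Set.Ioc U (U + η), |e u| := by
  obtain ⟨U0, h1, h2⟩ := LocM_core hZ hD A e hA he C0 hC0 hid i0 c hc hc0 (min η 1)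
    (lt_min hη one_pos) (min_le_right _ _)
  refine ⟨U0, h1, fun U hU => (h2 U hU).trans ?_⟩
  refine setIntegral_mono_set (LocM_intE he U (U + η) (by linarith))
    (Filter.Eventually.of_forall fun _ => abs_nonneg _) (HasSubset.Subset.eventuallyLE ?_)
  exact Set.Ioc_subset_Ioc_right (by linarith [min_le_left η 1])

/-- The local theorem with exceptional sets.  Let `β = sup Re λ > c` (at most `1/2`); choose a zero with
`Re λ0 > c1 > max c (β - κ/3)` and apply `loc_mean` with `c1`; `grA` and `grE` (with `a = β + κ/3`) give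
`|e| ≤ C e^{(β+κ/3)u}`.  If the set had measure `< e^{-κU}` then
`∫_U^{U+η}|e| ≤ η e^{c(U+η)} + e^{-κU} C e^{(β+κ/3)(U+η)} < e^{c1 U}` for large `U`. -/
theorem loc_set (hZ : ZC lam m) (hD : Dens lam) (A e : ℝ → ℝ) (hA : EFC lam m A)
    (hem : Measurable e) (he : ∀ T : ℝ, IntegrableOn e (Set.Ioc 0 T)) (C0 : ℝ) (hC0 : 0 ≤ C0)
    (hid : ∀ u : ℝ, 0 < u → |u * e u - (∫ t in Set.Ioc 0 u, e t) - A u| ≤ C0) (K : ℝ)
    (hvar : ∀ u t : ℝ, 0 ≤ u → 0 ≤ t → t ≤ 1 →
      |A (u + t) - A u| ≤ K * (u + 1) * (1 + t * Real.exp (u / 2)))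
    (i0 : ι) (c : ℝ) (hc : 0 < c) (hc0 : c < (lam i0).re) (η : ℝ) (hη : 0 < η) (κ : ℝ)
    (hκ : 0 < κ) :
    ∃ U0 : ℝ, 1 ≤ U0 ∧ ∀ U : ℝ, U0 ≤ U →
      ENNReal.ofReal (Real.exp (-(κ * U))) ≤
        volume {u : ℝ | U ≤ u ∧ u ≤ U + η ∧ Real.exp (c * u) < |e u|} := by
  have hne : Nonempty ι := ⟨i0⟩
  have hbdd : BddAbove (Set.range fun i => (lam i).re) := ⟨1 / 2, by
    rintro _ ⟨i, rfl⟩
    exact hZ.re1 i⟩
  set β := ⨆ i, (lam i).re with hβd
  have hβ : ∀ i, (lam i).re ≤ β := fun i => le_ciSup hbdd i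
  have hβ0 : 0 ≤ β := (hZ.re0 i0).trans (hβ i0)
  have hlt : max c (β - κ / 3) < β := max_lt (hc0.trans_le (hβ i0)) (by linarith)
  obtain ⟨i1, hi1⟩ := exists_lt_of_lt_ciSup hlt
  obtain ⟨c1, hc1, hc1'⟩ := exists_between hi1
  have hcc1 : c < c1 := (le_max_left _ _).trans_lt hc1
  have hβc1 : β - κ / 3 < c1 := (le_max_right _ _).trans_lt hc1
  obtain ⟨U1, hU11, hmean⟩ := loc_mean hZ hD A e hA he C0 hC0 hid i1 c1 (hc.trans hcc1) hc1' η hη
  obtain ⟨CA, hCA, hgA⟩ := grA hZ A hA β hβ0 hβ K hvar (κ / 3) (by positivity)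
  obtain ⟨CE, hCE, hgE⟩ := grE A e he (C0 + CA) (β + κ / 3) (by positivity) (by positivity)
    (fun u hu => (hid u hu).trans (by linarith))
    (fun u hu => (hgA u hu).trans (mul_le_mul_of_nonneg_right (by linarith) (Real.exp_pos _).le))
  set a := β + κ / 3 with had
  set d := min (c1 - c) (κ / 3) with hdd
  have hd : 0 < d := lt_min (by linarith) (by positivity)
  set B := η * Real.exp (c * η) + CE * Real.exp (a * η) with hBd
  have hB : 0 ≤ B := by positivity
  obtain ⟨U2, hU21, hev⟩ := LocM_ev d B 0 hd hB le_rfl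
  refine ⟨max U1 U2, le_max_of_le_left hU11, fun U hU => ?_⟩
  have hUU1 : U1 ≤ U := (le_max_left _ _).trans hU
  have hUU2 : U2 ≤ U := (le_max_right _ _).trans hU
  have hU1 : 1 ≤ U := hU11.trans hUU1
  by_contra hvol
  rw [not_le] at hvol
  set S : Set ℝ := {u : ℝ | U ≤ u ∧ u ≤ U + η ∧ Real.exp (c * u) < |e u|} with hSd
  have hSm : MeasurableSet S := by
    have h1 : S = Set.Icc U (U + η) ∩ {u | Real.exp (c * u) < |e u|} := by
      ext u
      simp [hSd, and_assoc]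
    rw [h1]
    refine measurableSet_Icc.inter (measurableSet_lt (by fun_prop) ?_)
    exact hem.abs
  have hmain : ∫ u in Set.Ioc U (U + η), |e u| ≤
      η * Real.exp (c * (U + η)) + Real.exp (-(κ * U)) * (CE * Real.exp (a * (U + η))) := by
    have h1 : ∀ u ∈ Set.Ioc U (U + η), |e u| ≤
        Real.exp (c * (U + η)) + S.indicator (fun _ => CE * Real.exp (a * (U + η))) u := by
      intro u hu
      have h0 : 0 ≤ CE * Real.exp (a * (U + η)) := by positivity
      by_cases hS : u ∈ S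
      · rw [Set.indicator_of_mem hS]
        have h2 := hgE u (by linarith [hu.1])
        have h3 : Real.exp (a * u) ≤ Real.exp (a * (U + η)) :=
          Real.exp_le_exp.2 (mul_le_mul_of_nonneg_left hu.2 (by positivity))
        have h4 := mul_le_mul_of_nonneg_left h3 hCE
        have h5 := Real.exp_pos (c * (U + η))
        linarith
      · rw [Set.indicator_of_notMem hS, add_zero]
        have h2 : ¬ Real.exp (c * u) < |e u| := fun h => hS ⟨hu.1.le, hu.2, h⟩
        rw [not_lt] at h2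
        exact h2.trans (Real.exp_le_exp.2 (mul_le_mul_of_nonneg_left hu.2 hc.le))
    have hfin : volume (Set.Ioc U (U + η)) ≠ ⊤ := measure_Ioc_lt_top.ne
    have hI1 : IntegrableOn (fun _ : ℝ => Real.exp (c * (U + η))) (Set.Ioc U (U + η)) :=
      integrableOn_const hfin
    have hI2 : IntegrableOn (S.indicator fun _ => CE * Real.exp (a * (U + η)))
        (Set.Ioc U (U + η)) := (integrableOn_const hfin).indicator hSm
    have h2 : ∫ u in Set.Ioc U (U + η), |e u| ≤ ∫ u in Set.Ioc U (U + η),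
        (Real.exp (c * (U + η)) + S.indicator (fun _ => CE * Real.exp (a * (U + η))) u) :=
      setIntegral_mono_on (LocM_intE he U (U + η) (by linarith)) (hI1.add hI2) measurableSet_Ioc h1
    refine h2.trans ?_
    rw [integral_add hI1 hI2, setIntegral_const, setIntegral_indicator hSm, setIntegral_const,
      smul_eq_mul, smul_eq_mul]
    have h3 : volume.real (Set.Ioc U (U + η)) = η := by
      rw [Real.volume_real_Ioc_of_le (by linarith)]
      ring
    have h4 : volume.real (Set.Ioc U (U + η) ∩ S) ≤ Real.exp (-(κ * U)) := by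
      refine ENNReal.toReal_le_of_le_ofReal (Real.exp_pos _).le ?_
      exact (measure_mono Set.inter_subset_right).trans hvol.le
    rw [h3]
    have h5 : 0 ≤ CE * Real.exp (a * (U + η)) := by positivity
    have h6 := mul_le_mul_of_nonneg_right h4 h5
    linarith
  have hfinal : η * Real.exp (c * (U + η)) +
      Real.exp (-(κ * U)) * (CE * Real.exp (a * (U + η))) ≤ B * Real.exp ((c1 - d) * U) := by
    have h1 : Real.exp (c * (U + η)) ≤ Real.exp (c * η) * Real.exp ((c1 - d) * U) := by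
      rw [← Real.exp_add]
      apply Real.exp_le_exp.2
      have h2 : d ≤ c1 - c := min_le_left _ _
      nlinarith
    have h2 : Real.exp (-(κ * U)) * Real.exp (a * (U + η)) ≤
        Real.exp (a * η) * Real.exp ((c1 - d) * U) := by
      rw [← Real.exp_add, ← Real.exp_add]
      apply Real.exp_le_exp.2
      have h3 : d ≤ κ / 3 := min_le_right _ _
      have h4 : a - κ ≤ c1 - d := by
        rw [had]
        linarith
      nlinarith
    calc η * Real.exp (c * (U + η)) + Real.exp (-(κ * U)) * (CE * Real.exp (a * (U + η)))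
        = η * Real.exp (c * (U + η)) + CE * (Real.exp (-(κ * U)) * Real.exp (a * (U + η))) := by
          ring
      _ ≤ η * (Real.exp (c * η) * Real.exp ((c1 - d) * U)) +
          CE * (Real.exp (a * η) * Real.exp ((c1 - d) * U)) :=
          add_le_add (mul_le_mul_of_nonneg_left h1 hη.le) (mul_le_mul_of_nonneg_left h2 hCE)
      _ = B * Real.exp ((c1 - d) * U) := by
          rw [hBd]
          ring
  have h1 := (hmean U hUU1).trans (hmain.trans hfinal)
  have h2 := hev U hUU2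
  have h3 : B ≤ B * (0 + 3 * U) := by nlinarith
  have h4 : B * Real.exp ((c1 - d) * U) < Real.exp (d * U) * Real.exp ((c1 - d) * U) :=
    mul_lt_mul_of_pos_right (h3.trans_lt h2) (Real.exp_pos _)
  rw [← Real.exp_add] at h4
  have h5 : d * U + (c1 - d) * U = c1 * U := by ring
  rw [h5] at h4
  linarith

end W3283v
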