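import Mathlib

set_option autoImplicit false

namespace W3283v

theorem Prd_aux {α : Type} (d : α → ℝ) (D : ℝ) (hD : 0 < D)
    (ν : ℝ) (hν : 0 ≤ ν) (N : ℕ) (x : ℝ) (hx : 0 ≤ x) (k : ℕ) :
    ∀ S : Finset α, S.card = k → (∀ z ∈ S, D ≤ d z) →
    (∀ T : Finset α, T ⊆ S → ∀ t : ℝ, 0 ≤ t → (∀ z ∈ T, d z ≤ t) → (T.card : ℝ) ≤ ν * t + N) →
    ∏ z ∈ S, x / d z ≤ (max 1 (x / D)) ^ N * ((ν * x) ^ (k - N) / (k - N).factorial) := by
  classical
  have h1 : (1 : ℝ) ≤ max 1 (x / D) := le_max_left _ _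
  have hM0 : (0 : ℝ) ≤ max 1 (x / D) := zero_le_one.trans h1
  induction k with
  | zero =>
    intro S hS hd hN
    rw [Finset.card_eq_zero] at hS
    subst hS
    simpa using one_le_pow₀ h1
  | succ k ih =>
    intro S hS hd hN
    have hfac : ∀ z ∈ S, 0 ≤ x / d z ∧ x / d z ≤ max 1 (x / D) := by
      intro z hz
      have h2 := hd z hz
      refine ⟨div_nonneg hx (hD.le.trans h2), le_trans ?_ (le_max_right _ _)⟩
      exact div_le_div_of_nonneg_left hx hD h2
    by_cases hk : k + 1 ≤ N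
    · rw [Nat.sub_eq_zero_of_le hk, pow_zero, Nat.factorial_zero, Nat.cast_one, div_one, mul_one]
      calc ∏ z ∈ S, x / d z ≤ ∏ _z ∈ S, max 1 (x / D) :=
            Finset.prod_le_prod (fun z hz => (hfac z hz).1) (fun z hz => (hfac z hz).2)
        _ = max 1 (x / D) ^ (k + 1) := by rw [Finset.prod_const, hS]
        _ ≤ _ := pow_le_pow_right₀ h1 hk
    · have hne : S.Nonempty := Finset.card_pos.1 (by omega)
      obtain ⟨z, hz, hmax⟩ := Finset.exists_max_image S d hne
      have hdz := hd z hz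
      have hdz0 : 0 < d z := hD.trans_le hdz
      have h2 := hN S (Finset.Subset.refl _) (d z) hdz0.le hmax
      rw [hS] at h2
      obtain ⟨M, hM⟩ : ∃ M, k + 1 = N + (M + 1) := ⟨k - N, by omega⟩
      have hM1 : k + 1 - N = M + 1 := by omega
      have hM2 : k - N = M := by omega
      have h3 : ((M : ℝ) + 1) ≤ ν * d z := by
        have h4 : ((k + 1 : ℕ) : ℝ) = N + (M + 1) := by exact_mod_cast hM
        rw [h4] at h2
        linarith
      have h5 : x / d z ≤ ν * x / (M + 1) := by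
        rw [div_le_div_iff₀ hdz0 (by positivity)]
        nlinarith
      have h6 := ih (S.erase z) (by rw [Finset.card_erase_of_mem hz, hS]; rfl)
        (fun w hw => hd w (Finset.mem_of_mem_erase hw))
        (fun T hT => hN T (hT.trans (Finset.erase_subset _ _)))
      rw [hM2] at h6
      rw [← Finset.mul_prod_erase S _ hz, hM1]
      have h7 : 0 ≤ ∏ w ∈ S.erase z, x / d w :=
        Finset.prod_nonneg fun w hw => (hfac w (Finset.mem_of_mem_erase hw)).1
      calc x / d z * ∏ w ∈ S.erase z, x / d w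
          ≤ (ν * x / (M + 1)) * ((max 1 (x / D)) ^ N * ((ν * x) ^ M / M.factorial)) :=
            mul_le_mul h5 h6 h7 (by positivity)
        _ = _ := by
            rw [Nat.factorial_succ, pow_succ]
            push_cast
            field_simp

/-- The loss caused by the kernel.  If a finite set `S` has at most `ν t + N` elements at distance
`d ≤ t` for all `t ≥ 0`, and all distances are at least `D > 0`, then
`∏ x/d ≤ (max 1 (x/D))^N e^{νx}`.  Induction on `#S`: let `d` be maximal at `z`; if `#S ≤ N` each factor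
is at most `max 1 (x/D)`; otherwise `#S - N ≤ ν d z`, so `x/d z ≤ ν x/(#S - N)`, and the product is at most
`(max 1 (x/D))^N (νx)^M/M!`, `M = #S - N` (natural subtraction), and `y^M/M! ≤ e^y`. -/
theorem prd {α : Type} (S : Finset α) (d : α → ℝ) (D : ℝ) (hD : 0 < D) (hd : ∀ z ∈ S, D ≤ d z)
    (ν : ℝ) (hν : 0 ≤ ν) (N : ℕ)
    (hN : ∀ T : Finset α, T ⊆ S → ∀ t : ℝ, 0 ≤ t → (∀ z ∈ T, d z ≤ t) → (T.card : ℝ) ≤ ν * t + N)
    (x : ℝ) (hx : 0 ≤ x) :
    ∏ z ∈ S, x / d z ≤ (max 1 (x / D)) ^ N * Real.exp (ν * x) := by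
  refine (Prd_aux d D hD ν hν N x hx S.card S rfl hd hN).trans ?_
  have h1 : (0 : ℝ) ≤ max 1 (x / D) := zero_le_one.trans (le_max_left _ _)
  exact mul_le_mul_of_nonneg_left (Real.pow_div_factorial_le_exp _ (mul_nonneg hν hx) _)
    (pow_nonneg h1 _)

end W3283v
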