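import Pool.Agent.W_3283e1_v3.KerB
import Pool.Agent.W_3283e1_v3.Prd
import Pool.Agent.W_3283e1_v3.ParA

set_option autoImplicit false

namespace W3283v

open MeasureTheory Filter Topology

variable {ι : Type} {lam : ι → ℂ} {m : ι → ℝ}

/-- The density hypothesis: for every `δ > 0` and `ν > 0` the number of zeros with `Re λ > δ`,
`‖λ‖ ≤ t` is at most `ν t + N`. -/
def Dens (lam : ι → ℂ) : Prop :=
  ∀ δ ν : ℝ, 0 < δ → 0 < ν → ∃ N : ℕ, ∀ (T : Finset ι) (t : ℝ), 0 ≤ t →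
    (∀ i ∈ T, δ < (lam i).re ∧ ‖lam i‖ ≤ t) → (T.card : ℝ) ≤ ν * t + N

theorem Par_fin (hD : Dens lam) (δ : ℝ) (hδ : 0 < δ) (R : ℝ) (hR : 0 ≤ R) :
    {i | δ < (lam i).re ∧ ‖lam i‖ ≤ R}.Finite := by
  obtain ⟨N, hN⟩ := hD δ 1 hδ one_pos
  by_contra hinf
  obtain ⟨K, hK⟩ := exists_nat_gt (1 * R + N)
  obtain ⟨T, hT, hc⟩ := Set.Infinite.exists_subset_card_eq hinf K
  have h1 := hN T R hR fun i hi => hT hi
  rw [hc] at h1
  linarith

theorem Par_low (f : ι → ℝ) (F : Finset ι) (hF : ∀ i ∈ F, 0 < f i) :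
    ∃ D : ℝ, 0 < D ∧ ∀ i ∈ F, D ≤ f i := by
  classical
  induction F using Finset.induction_on with
  | empty => exact ⟨1, one_pos, fun i hi => absurd hi (Finset.notMem_empty i)⟩
  | insert a F _ ih =>
    obtain ⟨D, hD, h⟩ := ih fun i hi => hF i (Finset.mem_insert_of_mem hi)
    refine ⟨min D (f a), lt_min hD (hF a (Finset.mem_insert_self a F)), fun i hi => ?_⟩
    rcases Finset.mem_insert.1 hi with rfl | hi
    · exact min_le_right _ _
    · exact (min_le_left _ _).trans (h i hi)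

/-- The zeros with `Re λ > δ` other than `λ0` stay away from `λ0`: those with `‖λ‖ ≤ ‖λ0‖ + 1` are finitely
many by `Dens`. -/
theorem dens_gap (hinj : Function.Injective lam) (hD : Dens lam) (i0 : ι) (δ : ℝ) (hδ : 0 < δ)
    (h0 : lam i0 ≠ 0) :
    ∃ D : ℝ, 0 < D ∧ D ≤ 1 ∧ D ≤ ‖lam i0‖ ∧ ∀ i, i ≠ i0 → δ < (lam i).re → D ≤ ‖lam i0 - lam i‖ := by
  classical
  have hfin := Par_fin hD δ hδ (‖lam i0‖ + 1) (by positivity)
  obtain ⟨D, hD0, hDl⟩ := Par_low (fun i => ‖lam i0 - lam i‖) (hfin.toFinset.erase i0) (by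
    intro i hi
    have h1 := (Finset.mem_erase.1 hi).1
    refine norm_pos_iff.2 (sub_ne_zero.2 fun h2 => h1 (hinj h2.symm)))
  have hn : 0 < ‖lam i0‖ := norm_pos_iff.2 h0
  refine ⟨min D (min 1 ‖lam i0‖), lt_min hD0 (lt_min one_pos hn),
    (min_le_right _ _).trans (min_le_left _ _), (min_le_right _ _).trans (min_le_right _ _), ?_⟩
  intro i hi hδi
  by_cases hle : ‖lam i‖ ≤ ‖lam i0‖ + 1
  · exact (min_le_left _ _).trans (hDl i (Finset.mem_erase.2
      ⟨hi, hfin.mem_toFinset.2 ⟨hδi, hle⟩⟩))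
  · push Not at hle
    have h1 : ‖lam i‖ - ‖lam i0‖ ≤ ‖lam i0 - lam i‖ := by
      rw [norm_sub_rev]
      exact norm_sub_norm_le _ _
    have h2 : min D (min 1 ‖lam i0‖) ≤ 1 := (min_le_right _ _).trans (min_le_left _ _)
    linarith

theorem Par_exp (z : ℂ) (hz0 : 0 ≤ z.re) (hz : z.re ≤ 1 / 2) (r : ℝ) (hr : 0 < r)
    (hr1 : r ≤ 1 / 10) : ‖Complex.exp (z * r)‖ ≤ 3 / 2 := by
  rw [Complex.norm_exp]
  have h1 : (z * (r : ℂ)).re = z.re * r := by
    rw [Complex.mul_re, Complex.ofReal_re, Complex.ofReal_im, mul_zero, sub_zero]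
  rw [h1]
  have h2 : z.re * r ≤ 1 / 20 := by nlinarith
  have h3 : Real.exp (z.re * r) ≤ Real.exp (1 / 20) := Real.exp_le_exp.2 h2
  have h4 : Real.exp (1 / 20) ≤ 3 / 2 := by
    have h5 := Real.exp_bound' (x := 1 / 20) (by norm_num) (by norm_num) (n := 1) (by norm_num)
    norm_num [Finset.sum_range_succ] at h5
    linarith
  linarith

theorem Par_fact (w z : ℂ) (hw0 : 0 ≤ w.re) (hw : w.re ≤ 1 / 2) (hz0 : 0 ≤ z.re)
    (hz : z.re ≤ 1 / 2) (r : ℝ) (hr : 0 < r) (hr1 : r ≤ 1 / 10) :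
    ‖Complex.exp (w * r) - Complex.exp (z * r)‖ ≤ 3 := by
  have h1 := norm_sub_le (Complex.exp (w * r)) (Complex.exp (z * r))
  have h2 := Par_exp w hw0 hw r hr hr1
  have h3 := Par_exp z hz0 hz r hr hr1
  linarith

theorem Par_kb {q : ℝ → ℂ} {η η' Q : ℝ} (h : KB q η Q) (hη : η ≤ η') : KB q η' Q :=
  ⟨h.meas, h.neg, fun v hv => h.pos v (lt_of_le_of_lt hη hv), h.bd⟩


/-- The kernel with all its estimates.  `λ0 = lam i0`.  Parameters as in `par_num` (`ε` replaced by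
`min ε 1`, `B = ‖λ0‖`, `D` of `dens_gap`, `ν = ε η/10000`, `N ≥ N(Dens) + ν ‖λ0‖`).  `S` = the zeros `λ ≠ λ0` with
`Re λ > δ`, `‖λ‖ ≤ H` (finite, `M = #S ≤ ν H + N` by `Dens`), `q` = the kernel `ker h n r S`.
`hat q λ = 0` on `S`.  For `‖λ‖ > H`: `spl_up` gives
`‖hat q λ‖ ≤ (3/(‖λ‖h))^n 3^M 9 ≤ e^{-2n} 3^M 9` (`‖e^{λr}‖, ‖e^{zr}‖ ≤ 3/2` as `r ≤ 1/10`).
`‖hat q λ0‖ ≥ e^{-2‖λ0‖nh} ∏ (r‖λ0-λ‖/2) (‖λ0‖r/2)²` (`spl_low`, `exp_sep` as `‖λ‖ r ≤ 1/10`), and
`∏ (r d/2) = (∏ 20H/d)⁻¹` is estimated by `prd` with `d = ‖λ0 - λ‖`, `x = 20 H`: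
`#{d ≤ t} ≤ #{‖λ‖ ≤ t + ‖λ0‖} ≤ ν t + N`. -/
theorem par (hinj : Function.Injective lam) (hre0 : ∀ i, 0 ≤ (lam i).re)
    (hre1 : ∀ i, (lam i).re ≤ 1 / 2)
    (hne : ∀ i, lam i ≠ 0) (hD : Dens lam) (i0 : ι) (δ : ℝ) (hδ : 0 < δ) (hi0 : δ < (lam i0).re)
    (η : ℝ) (hη : 0 < η) (hη1 : η ≤ 1) (ε : ℝ) (hε : 0 < ε) :
    ∃ U0 : ℝ, 1 ≤ U0 ∧ ∀ U : ℝ, U0 ≤ U → ∃ (q : ℝ → ℂ) (Q : ℝ), KB q η Q ∧ 0 ≤ Q ∧
      Q ≤ Real.exp (ε * U) ∧ ∫ v : ℝ, q v = 0 ∧ ∫ v : ℝ, q v * v = 0 ∧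
      (∀ i, i ≠ i0 → (lam i).re ≤ δ ∨ ‖hat q (lam i)‖ ≤ Real.exp (-U)) ∧
      Real.exp (-(ε * U)) ≤ ‖hat q (lam i0)‖ := by
  classical
  obtain ⟨D, hD0, hD1, hDn, hgap⟩ := dens_gap hinj hD i0 δ hδ (hne i0)
  set B : ℝ := ‖lam i0‖ with hB
  have hB0 : 0 < B := norm_pos_iff.2 (hne i0)
  set ε' : ℝ := min ε 1 with hε'
  have hε'0 : 0 < ε' := lt_min hε one_pos
  have hε'1 : ε' ≤ 1 := min_le_right _ _
  have hε'2 : ε' ≤ ε := min_le_left _ _
  set ν : ℝ := ε' * η / 10000 with hν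
  have hν0 : 0 < ν := by positivity
  obtain ⟨N0, hN0⟩ := hD δ ν hδ hν0
  set N : ℕ := N0 + ⌈ν * B⌉₊ with hN
  have hNle : (N0 : ℝ) + ν * B ≤ (N : ℝ) := by
    rw [hN]
    push_cast
    have := Nat.le_ceil (ν * B)
    linarith
  obtain ⟨U0, hU01, hU0⟩ := par_num η hη hη1 ε' hε'0 hε'1 N B D hB0 hD0
  refine ⟨U0, hU01, fun U hU => ?_⟩
  set n : ℕ := ⌈U⌉₊ with hn
  set h : ℝ := η / (2 * n) with hh
  set H : ℝ := 6 * Real.exp 2 * n / η with hH
  set r : ℝ := 1 / (10 * H) with hr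
  have hU1 : 1 ≤ U := hU01.trans hU
  have hn1' : 1 ≤ n := by
    rw [hn]
    exact Nat.one_le_ceil_iff.2 (by linarith)
  have hH0 : 0 < H := by
    have : (0 : ℝ) < n := by exact_mod_cast hn1'
    rw [hH]
    positivity
  -- the zeros
  have hfin := Par_fin hD δ hδ H hH0.le
  set S' : Finset ι := hfin.toFinset.erase i0 with hS'
  have hS'mem : ∀ i, i ∈ S' ↔ i ≠ i0 ∧ δ < (lam i).re ∧ ‖lam i‖ ≤ H := by
    intro i
    rw [hS', Finset.mem_erase, hfin.mem_toFinset]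
    rfl
  set S : Finset ℂ := S'.image lam with hS
  have hcard : S.card = S'.card := Finset.card_image_of_injective S' hinj
  have hM : (S'.card : ℝ) ≤ ν * H + N := by
    have h1 := hN0 S' H hH0.le fun i hi => ((hS'mem i).1 hi).2
    have h2 : 0 ≤ ν * B := by positivity
    linarith
  obtain ⟨h0, hr0, hr10, hn1, hBh, hBH, h3H, hsupp, hQ, hup, hlow⟩ :=
    hU0 U hU n S'.card h H r hn hh hH hr hM
  have hSre : ∀ z ∈ S, z.re ≤ 1 / 2 := by
    intro z hz
    obtain ⟨i, _, rfl⟩ := Finset.mem_image.1 hz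
    exact hre1 i
  obtain ⟨q, hq, hq1, hq2, hqh⟩ := ker h h0 n hn1 r hr0.le (by linarith) S hSre
  rw [hcard] at hq
  have hprod : ∀ w : ℂ, ∏ z ∈ S, (Complex.exp (w * r) - Complex.exp (z * r)) =
      ∏ i ∈ S', (Complex.exp (w * r) - Complex.exp (lam i * r)) := by
    intro w
    rw [hS, Finset.prod_image fun a _ c _ hac => hinj hac]
  have hU0' : 0 ≤ U := by linarith
  have hεU : Real.exp (ε' * U) ≤ Real.exp (ε * U) :=
    Real.exp_le_exp.2 (mul_le_mul_of_nonneg_right hε'2 hU0')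
  refine ⟨q, 4 * 3 ^ S'.card / h, Par_kb hq hsupp, by positivity, hQ.trans hεU, hq1, hq2, ?_, ?_⟩
  · intro i hi
    by_cases hδi : (lam i).re ≤ δ
    · exact Or.inl hδi
    · right
      push Not at hδi
      rw [hqh (lam i) (hne i), hprod]
      by_cases hiH : ‖lam i‖ ≤ H
      · have hiS : i ∈ S' := (hS'mem i).2 ⟨hi, hδi, hiH⟩
        rw [Finset.prod_eq_zero hiS (sub_self _), mul_zero, zero_mul, norm_zero]
        exact (Real.exp_pos _).le
      · push Not at hiH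
        rw [norm_mul, norm_mul, norm_prod, norm_pow (Complex.exp (lam i * r) - 1)]
        have hh1 : h ≤ 1 := by
          rw [hh, div_le_one (by positivity)]
          have : (1 : ℝ) ≤ n := by exact_mod_cast hn1
          linarith
        have e1 : ‖((Complex.exp (lam i * h) - 1) / (lam i * h)) ^ n‖ ≤ Real.exp (-(2 * n)) := by
          refine (spl_up (lam i) h h0 n ?_).trans ?_
          · have h1 := hre1 i
            have h2 := hre0 i
            nlinarith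
          · have h4 : 3 / (‖lam i‖ * h) ≤ Real.exp (-2) := by
              rw [← h3H]
              have h5 : H * h ≤ ‖lam i‖ * h := mul_le_mul_of_nonneg_right hiH.le h0.le
              exact div_le_div_of_nonneg_left (by norm_num) (by positivity) h5
            calc (3 / (‖lam i‖ * h)) ^ n ≤ (Real.exp (-2)) ^ n :=
                  pow_le_pow_left₀ (by positivity) h4 n
              _ = Real.exp (-(2 * n)) := by
                  rw [← Real.exp_nat_mul]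
                  congr 1
                  ring
        have e2 : ∏ j ∈ S', ‖Complex.exp (lam i * r) - Complex.exp (lam j * r)‖ ≤
            3 ^ S'.card := by
          refine (Finset.prod_le_prod (fun j _ => norm_nonneg _) fun j _ =>
            Par_fact (lam i) (lam j) (hre0 i) (hre1 i) (hre0 j) (hre1 j) r hr0 hr10).trans ?_
          rw [Finset.prod_const]
        have e3 : ‖Complex.exp (lam i * r) - 1‖ ^ 2 ≤ 9 := by
          have h1 := Par_fact (lam i) 0 (hre0 i) (hre1 i) (by simp) (by norm_num) r hr0 hr10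
          rw [zero_mul, Complex.exp_zero] at h1
          have h2 : ‖Complex.exp (lam i * r) - 1‖ ^ 2 ≤ 3 ^ 2 :=
            pow_le_pow_left₀ (norm_nonneg _) h1 2
          linarith
        refine le_trans ?_ hup
        calc _ ≤ Real.exp (-(2 * n)) * 3 ^ S'.card * 9 :=
              mul_le_mul (mul_le_mul e1 e2 (Finset.prod_nonneg fun j _ => norm_nonneg _)
                (Real.exp_pos _).le) e3 (by positivity) (by positivity)
          _ = 9 * 3 ^ S'.card * Real.exp (-(2 * n)) := by ring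
  · refine le_trans ?_ (le_trans hlow ?_)
    · exact Real.exp_le_exp.2 (neg_le_neg (mul_le_mul_of_nonneg_right hε'2 hU0'))
    rw [hqh (lam i0) (hne i0), hprod, norm_mul, norm_mul, norm_prod,
      norm_pow (Complex.exp (lam i0 * r) - 1)]
    have hrn : ∀ z : ℂ, ‖z * (r : ℂ)‖ = ‖z‖ * r := fun z => by
      rw [norm_mul, Complex.norm_real, Real.norm_eq_abs, abs_of_pos hr0]
    have hHr : H * r = 1 / 10 := by
      rw [hr]
      field_simp
    have hsm : ∀ z : ℂ, ‖z‖ ≤ H → ‖z * (r : ℂ)‖ ≤ 1 / 10 := by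
      intro z hz
      rw [hrn, ← hHr]
      exact mul_le_mul_of_nonneg_right hz hr0.le
    have f1 : Real.exp (-(2 * B * n * h)) ≤
        ‖((Complex.exp (lam i0 * h) - 1) / (lam i0 * h)) ^ n‖ :=
      spl_low (lam i0) (hne i0) h h0 n hBh
    have f3 : (D * r / 2) ^ 2 ≤ ‖Complex.exp (lam i0 * r) - 1‖ ^ 2 := by
      have h1 := exp_sep (lam i0 * r) 0 (hsm _ hBH) (by simp)
      rw [Complex.exp_zero, sub_zero, hrn] at h1
      refine pow_le_pow_left₀ (by positivity) (le_trans ?_ h1) 2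
      have : D * r ≤ ‖lam i0‖ * r := mul_le_mul_of_nonneg_right hDn hr0.le
      linarith
    have hdpos : ∀ i ∈ S', D ≤ ‖lam i0 - lam i‖ := fun i hi =>
      hgap i ((hS'mem i).1 hi).1 ((hS'mem i).1 hi).2.1
    have f2 : ((max 1 (20 * H / D)) ^ N * Real.exp (ν * (20 * H)))⁻¹ ≤
        ∏ i ∈ S', ‖Complex.exp (lam i0 * r) - Complex.exp (lam i * r)‖ := by
      have h1 := prd S' (fun i => ‖lam i0 - lam i‖) D hD0 hdpos ν hν0.le N (by
        intro T hT t ht hTt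
        have h2 := hN0 T (t + B) (by positivity) fun i hi => by
          refine ⟨((hS'mem i).1 (hT hi)).2.1, ?_⟩
          have h3 := hTt i hi
          have h4 : ‖lam i‖ - ‖lam i0‖ ≤ ‖lam i0 - lam i‖ := by
            rw [norm_sub_rev]
            exact norm_sub_norm_le _ _
          linarith
        nlinarith) (20 * H) (by positivity)
      have h2 : 0 < ∏ i ∈ S', 20 * H / ‖lam i0 - lam i‖ :=
        Finset.prod_pos fun i hi => div_pos (by positivity) (lt_of_lt_of_le hD0 (hdpos i hi))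
      refine (inv_anti₀ h2 h1).trans ?_
      rw [← Finset.prod_inv_distrib]
      refine Finset.prod_le_prod (fun i hi => ?_) fun i hi => ?_
      · have := lt_of_lt_of_le hD0 (hdpos i hi)
        positivity
      · have h5 := exp_sep (lam i0 * r) (lam i * r) (hsm _ hBH) (hsm _ ((hS'mem i).1 hi).2.2)
        rw [← sub_mul, hrn] at h5
        refine le_trans (le_of_eq ?_) h5
        rw [inv_div, hr]
        field_simp
        ring
    exact mul_le_mul (mul_le_mul f1 f2 (by positivity) (norm_nonneg _)) f3 (by positivity)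
      (mul_nonneg (norm_nonneg _) (Finset.prod_nonneg fun j _ => norm_nonneg _))

end W3283v
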