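import Pool.Agent.W_3283e1_v3.TriM
import Pool.Agent.W_3283e1_h19.QFin
import Pool.Agent.W_3283e1_h19.QJump
import Pool.Agent.W_3283e1_h19.QCrit

set_option autoImplicit false

namespace W3283v

open Complex W3283e1 W3283f W3283l W3283q MeasureTheory Filter Topology

/-- The product divided by its expected size. -/
noncomputable def RR (k : ℕ) (c : ℤ) (r : ℕ) (l : ℝ) (x : ℝ) : ℝ :=
  bsdProd (c * k ^ 2) 0 x /
    (Real.sqrt 2 * Real.exp (r * Real.eulerMascheroniConstant) / |l| * (Real.log x) ^ r)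

theorem RR_pos (k : ℕ) (c : ℤ) (r : ℕ) (l : ℝ) (hl : l ≠ 0) (x : ℝ) (hx : 1 < x) :
    0 < RR k c r l x := by
  have h1 := Real.log_pos hx
  have h2 := abs_pos.2 hl
  have h3 := W3283g.bsd_pos (c * k ^ 2) 0 x
  unfold RR
  positivity

theorem RR_meas (k : ℕ) (c : ℤ) (r : ℕ) (l : ℝ) : Measurable (RR k c r l) := by
  have hmeas : Measurable (fun x : ℝ => bsdProd (c * k ^ 2) 0 x) := by
    have h : (fun x : ℝ => bsdProd (c * k ^ 2) 0 x) =
        (fun N : ℕ => bsdProd (c * k ^ 2) 0 (N : ℝ)) ∘ (fun x : ℝ => ⌊x⌋₊) := by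
      funext x
      exact QFin_floor _ _ _
    rw [h]
    exact (measurable_of_countable _).comp Nat.measurable_floor
  unfold RR
  exact hmeas.div ((Real.measurable_log.pow_const r).const_mul _)

/-- Concentration in dyadic intervals under the Riemann hypothesis. -/
theorem tame_P (k : ℕ) (c : ℤ) (n f i j : ℕ) (L : ℂ → ℂ) (r : ℕ) (l V : ℝ)
    (h : W3283g.SU k c n f i j L r l V) (hRH : ∀ s : ℂ, 1 < s.re → L s ≠ 0) :
    ∃ c0 K : ℝ, 0 < c0 ∧ 0 < K ∧ ∀ X ε : ℝ, 3 ≤ X → 0 < ε → ε ≤ 1 →
      volume {x : ℝ | X ≤ x ∧ x ≤ 2 * X ∧ ε < |RR k c r l x - 1|} ≤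
        ENNReal.ofReal (K * X * Real.exp (-(c0 * Real.sqrt (ε * Real.log X)))) := by
  obtain ⟨c0, K, hc0, hK, hcon⟩ := rh_conc k c n f i j L r l V h hRH
  refine ⟨c0 / 2, 2 * K, by positivity, by positivity, fun X ε hX hε hε1 => ?_⟩
  have hX0 : 0 < X := by linarith
  have hlX : 1 ≤ Real.log X := by
    rw [Real.le_log_iff_exp_le hX0]
    linarith [Real.exp_one_lt_d9]
  have hlX0 : 0 < Real.log X := by linarith
  rw [set_log_image X 2 hX0 (fun x => ε < |RR k c r l x - 1|)]
  set S : Set ℝ := {u ∈ Set.Icc (Real.log X) (Real.log X + 1) |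
    ε * Real.log X / 2 < |u * Real.log (bsdProd (c * k ^ 2) 0 (Real.exp u) / (CG r l * u ^ r))|}
    with hS
  set S' : Set ℝ := {u : ℝ | Real.log X ≤ u ∧ Real.exp u ≤ 2 * X ∧
    ε < |RR k c r l (Real.exp u) - 1|} with hS'
  have hRRe : ∀ u : ℝ, RR k c r l (Real.exp u) =
      bsdProd (c * k ^ 2) 0 (Real.exp u) / (CG r l * u ^ r) := by
    intro u
    unfold RR CG
    rw [Real.log_exp]
  have hmS' : MeasurableSet S' := by
    refine (measurableSet_le measurable_const measurable_id).inter
      ((measurableSet_le Real.measurable_exp measurable_const).inter ?_)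
    exact measurableSet_lt measurable_const
      ((((RR_meas k c r l).comp Real.measurable_exp).sub_const 1).abs)
  have hsub : S' ⊆ S := by
    rintro u ⟨h1, h2, h3⟩
    have hu0 : 0 < u := by linarith
    have hu : 1 < Real.exp u := Real.one_lt_exp_iff.2 hu0
    refine ⟨⟨h1, ?_⟩, ?_⟩
    · have h4 : u ≤ Real.log (2 * X) := by
        rwa [Real.le_log_iff_exp_le (by positivity)]
      rw [Real.log_mul (by norm_num) hX0.ne'] at h4
      linarith [Real.log_two_lt_d9]
    · rw [← hRRe u]
      have hR := RR_pos k c r l h.hl _ hu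
      have h5 : ε / 2 < |Real.log (RR k c r l (Real.exp u))| := by
        by_contra hcon2
        push Not at hcon2
        rw [abs_le] at hcon2
        have h6 : RR k c r l (Real.exp u) ≤ Real.exp (ε / 2) := by
          rw [← Real.exp_log hR]
          exact Real.exp_le_exp.2 hcon2.2
        have h7 : Real.exp (-(ε / 2)) ≤ RR k c r l (Real.exp u) := by
          rw [← Real.exp_log hR]
          exact Real.exp_le_exp.2 hcon2.1
        have h8 : Real.exp (ε / 2) ≤ 1 + ε := by
          have := Real.exp_bound_div_one_sub_of_interval (x := ε / 2) (by positivity) (by linarith)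
          refine this.trans ?_
          rw [div_le_iff₀ (by linarith)]
          nlinarith
        have h9 := Real.add_one_le_exp (-(ε / 2))
        rw [lt_abs] at h3
        rcases h3 with h3 | h3 <;> linarith
      rw [abs_mul, abs_of_pos hu0]
      calc ε * Real.log X / 2 = Real.log X * (ε / 2) := by ring
        _ < Real.log X * |Real.log (RR k c r l (Real.exp u))| := mul_lt_mul_of_pos_left h5 hlX0
        _ ≤ u * |Real.log (RR k c r l (Real.exp u))| :=
            mul_le_mul_of_nonneg_right h1 (abs_nonneg _)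
  have h1 := vol_exp_le S' hmS' (Real.log (2 * X)) (fun u hu => by
    rw [Real.le_log_iff_exp_le (by positivity)]
    exact hu.2.1)
  rw [Real.exp_log (by positivity : 0 < 2 * X)] at h1
  have h2 := hcon (Real.log X) (ε * Real.log X / 2) hlX (by positivity)
  refine h1.trans ?_
  refine (mul_le_mul_right ((measure_mono hsub).trans h2) _).trans ?_
  rw [← ENNReal.ofReal_mul (by positivity)]
  apply ENNReal.ofReal_le_ofReal
  have h3 : c0 / 2 * Real.sqrt (ε * Real.log X) ≤ c0 * Real.sqrt (ε * Real.log X / 2) := by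
    rw [div_mul_eq_mul_div, div_le_iff₀ (by norm_num), mul_assoc]
    refine mul_le_mul_of_nonneg_left ?_ hc0.le
    rw [Real.sqrt_le_left (by positivity), mul_pow, Real.sq_sqrt (by positivity)]
    have : 0 < ε * Real.log X := by positivity
    linarith
  have h4 : Real.exp (-(c0 * Real.sqrt (ε * Real.log X / 2))) ≤
      Real.exp (-(c0 / 2 * Real.sqrt (ε * Real.log X))) := Real.exp_le_exp.2 (by linarith)
  calc 2 * X * (K * Real.exp (-(c0 * Real.sqrt (ε * Real.log X / 2)))) =
        2 * K * X * Real.exp (-(c0 * Real.sqrt (ε * Real.log X / 2))) := by ring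
    _ ≤ _ := mul_le_mul_of_nonneg_left h4 (by positivity)

/-- From `e (u + a) - e u` to the values of the product at `x = e^u`, `y = e^{u+a}`. -/
theorem tri_pt (c u a : ℝ) (hc : 0 < c) (hu : (2 / c) ^ 2 ≤ u) (ha : 0 < a)
    (ha1 : a ≤ Real.exp (-(c * Real.sqrt u))) :
    Real.exp u < Real.exp (u + a) ∧ Real.exp (u + a) ≤ Real.exp u *
      (1 + Real.exp (-(c / 2 * Real.sqrt (Real.log (Real.exp u))))) := by
  have hu0 : 0 ≤ u := (sq_nonneg _).trans hu
  have hs : 2 / c ≤ Real.sqrt u := by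
    rw [← Real.sqrt_sq (by positivity : 0 ≤ 2 / c)]
    exact Real.sqrt_le_sqrt hu
  have hcs : 2 ≤ c * Real.sqrt u := by
    rw [div_le_iff₀ hc] at hs
    linarith
  refine ⟨Real.exp_lt_exp.2 (by linarith), ?_⟩
  rw [Real.exp_add, Real.log_exp]
  refine mul_le_mul_of_nonneg_left ?_ (Real.exp_pos u).le
  have ha2 : a ≤ 1 / 2 := by
    refine ha1.trans ?_
    have h1 : Real.exp (-(c * Real.sqrt u)) ≤ Real.exp (-1) := Real.exp_le_exp.2 (by linarith)
    have h2 : Real.exp (-1) ≤ 1 / 2 := by
      rw [Real.exp_neg, inv_le_comm₀ (Real.exp_pos 1) (by norm_num)]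
      have := Real.add_one_le_exp (1 : ℝ)
      norm_num at this ⊢
      linarith
    linarith
  have h3 : Real.exp a ≤ 1 + 2 * a := by
    have := Real.exp_bound_div_one_sub_of_interval ha.le (by linarith)
    refine this.trans ?_
    rw [div_le_iff₀ (by linarith)]
    nlinarith
  have h4 : 2 * Real.exp (-(c * Real.sqrt u)) ≤ Real.exp (-(c / 2 * Real.sqrt u)) := by
    have h5 : Real.exp (-(c / 2 * Real.sqrt u)) =
        Real.exp (-(c * Real.sqrt u)) * Real.exp (c / 2 * Real.sqrt u) := by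
      rw [← Real.exp_add]
      congr 1
      ring
    rw [h5, mul_comm]
    refine mul_le_mul_of_nonneg_left ?_ (Real.exp_pos _).le
    have := Real.add_one_le_exp (c / 2 * Real.sqrt u)
    linarith
  linarith

/-- Sudden jumps in both directions under the Riemann hypothesis, if the asymptotic fails. -/
theorem jump_P (k : ℕ) (c : ℤ) (n f i j : ℕ) (L : ℂ → ℂ) (r : ℕ) (l V : ℝ)
    (h : W3283g.SU k c n f i j L r l V) (hRH : ∀ s : ℂ, 1 < s.re → L s ≠ 0)
    (hn : ¬ Tendsto (RR k c r l) atTop (𝓝 1)) :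
    ∃ ε c' : ℝ, 0 < ε ∧ 0 < c' ∧
      (∀ X : ℝ, ∃ x y : ℝ, X ≤ x ∧ x < y ∧ y ≤ x * (1 + Real.exp (-(c' * Real.sqrt (Real.log x)))) ∧
        (1 + ε) * bsdProd (c * k ^ 2) 0 x ≤ bsdProd (c * k ^ 2) 0 y) ∧
      (∀ X : ℝ, ∃ x y : ℝ, X ≤ x ∧ x < y ∧ y ≤ x * (1 + Real.exp (-(c' * Real.sqrt (Real.log x)))) ∧
        bsdProd (c * k ^ 2) 0 y ≤ (1 - ε) * bsdProd (c * k ^ 2) 0 x) := by
  obtain ⟨c0, K, hc0, hK, hcon⟩ := rh_conc k c n f i j L r l V h hRH
  set e : ℝ → ℝ := fun u => Real.log (bsdProd (c * k ^ 2) 0 (Real.exp u) / (CG r l * u ^ r)) with he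
  have hRRe : ∀ u : ℝ, RR k c r l (Real.exp u) =
      bsdProd (c * k ^ 2) 0 (Real.exp u) / (CG r l * u ^ r) := by
    intro u
    unfold RR CG
    rw [Real.log_exp]
  have hne : ¬ Tendsto e atTop (𝓝 0) := by
    intro ht
    apply hn
    have h1 : Tendsto (fun x : ℝ => Real.exp (e (Real.log x))) atTop (𝓝 (Real.exp 0)) :=
      (Real.continuous_exp.tendsto 0).comp (ht.comp Real.tendsto_log_atTop)
    rw [Real.exp_zero] at h1
    refine h1.congr' ?_
    filter_upwards [eventually_gt_atTop (1 : ℝ)] with x hx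
    have hx0 : 0 < x := by linarith
    have h2 : e (Real.log x) = Real.log (RR k c r l x) := by
      rw [he]
      simp only
      rw [← hRRe (Real.log x), Real.exp_log hx0]
    rw [h2, Real.exp_log (RR_pos k c r l h.hl x hx)]
  have hcon' : ∀ U W : ℝ, 1 ≤ U → 0 ≤ W → volume {u ∈ Set.Icc U (U + 1) | W < |u * e u|} ≤
      ENNReal.ofReal (K * Real.exp (-(c0 * Real.sqrt W))) := hcon
  obtain ⟨ε, c1, hε, hc1, hup, hdn⟩ := jumps e c0 K hc0 hK hcon' hne
  have hCG := CG_pos r l h.hl
  -- the product in terms of `e`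
  have hprod : ∀ u : ℝ, 0 < u → bsdProd (c * k ^ 2) 0 (Real.exp u) = Real.exp (e u) * (CG r l * u ^ r) := by
    intro u hu
    have h1 : 0 < bsdProd (c * k ^ 2) 0 (Real.exp u) / (CG r l * u ^ r) := by
      have := W3283g.bsd_pos (c * k ^ 2) 0 (Real.exp u)
      positivity
    rw [he]
    simp only
    rw [Real.exp_log h1]
    field_simp
  refine ⟨min (ε / 4) (1 / 2), c1 / 2, by positivity, by positivity, ?_, ?_⟩
  · intro X
    obtain ⟨u, a, hu, ha, ha1, hj⟩ := hup (max (max (Real.log (max X 1)) ((2 / c1) ^ 2)) 1)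
    have hu1 : Real.log (max X 1) ≤ u := ((le_max_left _ _).trans (le_max_left _ _)).trans hu
    have hu2 : (2 / c1) ^ 2 ≤ u := ((le_max_right _ _).trans (le_max_left _ _)).trans hu
    have hu3 : 1 ≤ u := (le_max_right _ _).trans hu
    obtain ⟨h1, h2⟩ := tri_pt c1 u a hc1 hu2 ha ha1
    refine ⟨Real.exp u, Real.exp (u + a), ?_, h1, h2, ?_⟩
    · have : max X 1 ≤ Real.exp u := by rwa [← Real.log_le_iff_le_exp (by positivity)]
      exact (le_max_left _ _).trans this
    · rw [hprod u (by linarith), hprod (u + a) (by linarith)]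
      have h3 : u ^ r ≤ (u + a) ^ r := pow_le_pow_left₀ (by linarith) (by linarith) r
      have h4 : (1 + min (ε / 4) (1 / 2)) * Real.exp (e u) ≤ Real.exp (e (u + a)) := by
        have h5 : Real.exp (e u) * Real.exp ε ≤ Real.exp (e (u + a)) := by
          rw [← Real.exp_add]
          exact Real.exp_le_exp.2 (by linarith)
        have h6 := Real.add_one_le_exp ε
        have h7 : min (ε / 4) (1 / 2) ≤ ε := (min_le_left _ _).trans (by linarith)
        have h8 := Real.exp_pos (e u)
        nlinarith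
      calc (1 + min (ε / 4) (1 / 2)) * (Real.exp (e u) * (CG r l * u ^ r)) =
            (1 + min (ε / 4) (1 / 2)) * Real.exp (e u) * (CG r l * u ^ r) := by ring
        _ ≤ Real.exp (e (u + a)) * (CG r l * (u + a) ^ r) := by
            refine mul_le_mul h4 (mul_le_mul_of_nonneg_left h3 hCG.le) (by positivity) (by positivity)
  · intro X
    -- `((u+a)/u)^r → 1`
    obtain ⟨u5, hu5⟩ : ∃ u5 : ℝ, ∀ u : ℝ, u5 ≤ u → (r : ℝ) * (1 / u) ≤ ε / 2 := by
      refine ⟨max 1 (2 * r / ε), fun u hu => ?_⟩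
      have h1 : 1 ≤ u := (le_max_left _ _).trans hu
      have h2 : 2 * r / ε ≤ u := (le_max_right _ _).trans hu
      rw [div_le_iff₀ hε] at h2
      rw [mul_one_div, div_le_iff₀ (by linarith)]
      linarith
    obtain ⟨u, a, hu, ha, ha1, hj⟩ := hdn (max (max (max (Real.log (max X 1)) ((2 / c1) ^ 2)) 1) u5)
    have hu1 : Real.log (max X 1) ≤ u :=
      (((le_max_left _ _).trans (le_max_left _ _)).trans (le_max_left _ _)).trans hu
    have hu2 : (2 / c1) ^ 2 ≤ u :=
      (((le_max_right _ _).trans (le_max_left _ _)).trans (le_max_left _ _)).trans hu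
    have hu3 : 1 ≤ u := ((le_max_right _ _).trans (le_max_left _ _)).trans hu
    have hu4 : u5 ≤ u := (le_max_right _ _).trans hu
    obtain ⟨h1, h2⟩ := tri_pt c1 u a hc1 hu2 ha ha1
    have hu0 : 0 < u := by linarith
    have haone : a ≤ 1 := ha1.trans (Real.exp_le_one_iff.2 (by
      have := Real.sqrt_nonneg u
      nlinarith))
    refine ⟨Real.exp u, Real.exp (u + a), ?_, h1, h2, ?_⟩
    · have : max X 1 ≤ Real.exp u := by rwa [← Real.log_le_iff_le_exp (by positivity)]
      exact (le_max_left _ _).trans this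
    · rw [hprod u hu0, hprod (u + a) (by linarith)]
      have h3 : (u + a) ^ r ≤ Real.exp (ε / 2) * u ^ r := by
        have h4 : u + a = u * (1 + a / u) := by field_simp
        rw [h4, mul_pow, mul_comm]
        refine mul_le_mul_of_nonneg_right ?_ (by positivity)
        have h5 : 1 + a / u ≤ Real.exp (1 / u) := by
          have h6 := Real.add_one_le_exp (1 / u)
          have h7 : a / u ≤ 1 / u := div_le_div_of_nonneg_right haone hu0.le
          linarith
        calc (1 + a / u) ^ r ≤ (Real.exp (1 / u)) ^ r := pow_le_pow_left₀ (by positivity) h5 r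
          _ = Real.exp (r * (1 / u)) := by rw [← Real.exp_nat_mul]
          _ ≤ Real.exp (ε / 2) := Real.exp_le_exp.2 (hu5 u hu4)
      have h4 : Real.exp (e (u + a)) * Real.exp (ε / 2) ≤
          (1 - min (ε / 4) (1 / 2)) * Real.exp (e u) * 1 := by
        rw [mul_one, ← Real.exp_add]
        have h5 : Real.exp (e (u + a) + ε / 2) ≤ Real.exp (e u) * Real.exp (-(ε / 2)) := by
          rw [← Real.exp_add]
          exact Real.exp_le_exp.2 (by linarith)
        have h6 : Real.exp (-(ε / 2)) ≤ 1 - min (ε / 4) (1 / 2) := by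
          have h7 := Real.add_one_le_exp (ε / 2)
          have h8 : Real.exp (-(ε / 2)) ≤ (ε / 2 + 1)⁻¹ := by
            rw [Real.exp_neg]
            exact inv_anti₀ (by positivity) h7
          refine h8.trans ?_
          rw [inv_le_iff_one_le_mul₀ (by positivity)]
          rcases le_total ε 2 with h9 | h9
          · have h10 : min (ε / 4) (1 / 2) ≤ ε / 4 := min_le_left _ _
            nlinarith
          · have h10 : min (ε / 4) (1 / 2) ≤ 1 / 2 := min_le_right _ _
            nlinarith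
        refine h5.trans ?_
        rw [mul_comm]
        exact mul_le_mul_of_nonneg_right h6 (Real.exp_pos _).le
      calc Real.exp (e (u + a)) * (CG r l * (u + a) ^ r)
          ≤ Real.exp (e (u + a)) * (CG r l * (Real.exp (ε / 2) * u ^ r)) := by gcongr
        _ = (Real.exp (e (u + a)) * Real.exp (ε / 2)) * (CG r l * u ^ r) := by ring
        _ ≤ ((1 - min (ε / 4) (1 / 2)) * Real.exp (e u) * 1) * (CG r l * u ^ r) :=
            mul_le_mul_of_nonneg_right h4 (by positivity)
        _ = _ := by ring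

/-- Sudden upward jumps of every size if the Riemann hypothesis is false. -/
theorem jump_P_false (k : ℕ) (c : ℤ) (n f i j : ℕ) (L : ℂ → ℂ) (r : ℕ) (l V : ℝ)
    (h : W3283g.SU k c n f i j L r l V) (s : ℂ) (hs1 : 1 < s.re) (hs : L s = 0) (ε c1 : ℝ)
    (hε : 0 < ε) (hc1 : 0 < c1) (X : ℝ) :
    ∃ x y : ℝ, X ≤ x ∧ x < y ∧ y ≤ x * (1 + Real.exp (-(c1 * Real.sqrt (Real.log x)))) ∧
      (1 + ε) * bsdProd (c * k ^ 2) 0 x ≤ bsdProd (c * k ^ 2) 0 y := by
  have hz : LLF n j (1 + (s - 1)) = 0 := by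
    have h1 := h.hzero (s - 1) (by rw [Complex.sub_re, Complex.one_re]; linarith)
    rw [show (1 : ℂ) + (s - 1) = s by ring] at h1 ⊢
    exact h1.1 hs
  obtain ⟨u, a, hu, ha, ha1, hj⟩ := jump_false n j h.hj h.hn h.hs (lGold (l / V) r) r (s - 1)
    (by rw [Complex.sub_re, Complex.one_re]; linarith) hz (Real.log (1 + ε)) (2 * c1)
    (Real.log_pos (by linarith)) (by positivity)
    (max (max (Real.log (max X (k + 2))) ((2 / (2 * c1)) ^ 2)) 1)
  have hu1 : Real.log (max X (k + 2)) ≤ u := ((le_max_left _ _).trans (le_max_left _ _)).trans hu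
  have hu2 : (2 / (2 * c1)) ^ 2 ≤ u := ((le_max_right _ _).trans (le_max_left _ _)).trans hu
  have hu3 : 1 ≤ u := (le_max_right _ _).trans hu
  obtain ⟨h1, h2⟩ := tri_pt (2 * c1) u a (by positivity) hu2 ha ha1
  have hk0 : (0 : ℝ) ≤ k := Nat.cast_nonneg k
  have hX : max X (k + 2) ≤ Real.exp u := by
    rwa [← Real.log_le_iff_le_exp (lt_max_of_lt_right (by positivity))]
  have hkx : (k : ℝ) + 2 ≤ Real.exp u := (le_max_right _ _).trans hX
  refine ⟨Real.exp u, Real.exp (u + a), (le_max_left _ _).trans hX, h1, ?_, ?_⟩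
  · rwa [show 2 * c1 / 2 = c1 by ring] at h2
  · have e1 := h.hP (Real.exp u) (by linarith) (by linarith)
    have e2 := h.hP (Real.exp (u + a)) (by linarith) (by linarith)
    rw [Real.log_exp] at e1 e2
    rw [← e1, ← e2] at hj
    have hP1 := W3283g.bsd_pos (c * k ^ 2) 0 (Real.exp u)
    have hP2 := W3283g.bsd_pos (c * k ^ 2) 0 (Real.exp (u + a))
    have hC : 0 < Real.sqrt 2 * Real.exp (r * Real.eulerMascheroniConstant) / |l| := by
      have := abs_pos.2 h.hl
      positivity
    have hu0 : 0 < u := by linarith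
    have hua : 0 < u + a := by linarith
    rw [Real.log_div hP2.ne' (by positivity), Real.log_div hP1.ne' (by positivity),
      Real.log_mul hC.ne' (by positivity), Real.log_mul hC.ne' (by positivity), Real.log_pow,
      Real.log_pow] at hj
    have h3 : Real.log u ≤ Real.log (u + a) := Real.log_le_log hu0 (by linarith)
    have h4 : (r : ℝ) * Real.log u ≤ r * Real.log (u + a) :=
      mul_le_mul_of_nonneg_left h3 (Nat.cast_nonneg r)
    have h5 : Real.log (1 + ε) + Real.log (bsdProd (c * k ^ 2) 0 (Real.exp u)) ≤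
        Real.log (bsdProd (c * k ^ 2) 0 (Real.exp (u + a))) := by linarith
    rw [← Real.log_mul (by positivity) hP1.ne'] at h5
    exact (Real.log_le_log_iff (by positivity) hP2).1 h5

end W3283v
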