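import Pool.Agent.W_3283e1_v3.TriW
import Pool.Agent.W_3283e1_v3.TriB
import Pool.Agent.W_3283e1_zd.ZFin
import Pool.Agent.W_3283e1_zd.MolD

set_option autoImplicit false

namespace W3283v

open Complex W3283e1 W3283f W3283l W3283q MeasureTheory Filter Topology

theorem tri_dens (n j : ℕ) (hj : j = 0 ∨ j = 1) (hn : Odd n) (hs : Squarefree n) :
    Dens (laF n j) :=
  W3283z.dens_fam n j hj hn hs (W3283z.mol_fam n j)

/-- The wild case: one exponent for all windows. -/
theorem tri_wild (k : ℕ) (c : ℤ) (n f i j : ℕ) (L : ℂ → ℂ) (r : ℕ) (l V : ℝ)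
    (h : W3283g.SU k c n f i j L r l V) (s : ℂ) (hs : L s = 0) (a : ℝ) (ha : a < s.re - 1)
    (lam κ : ℝ) (hlam : 1 < lam) (hκ : 0 < κ) (hs1 : 1 < s.re) :
    ∃ X0 : ℝ, ∀ X : ℝ, X0 ≤ X → ENNReal.ofReal (X ^ (1 - κ)) ≤
      volume {x : ℝ | X ≤ x ∧ x ≤ lam * X ∧ x ^ a < |Real.log (bsdProd (c * k ^ 2) 0 x)|} := by
  obtain ⟨X0, hX01, hX0⟩ := wild_P k c n f i j L r l V h (tri_dens n j h.hj h.hn h.hs) s hs
    (max a ((s.re - 1) / 2)) (lt_max_of_lt_right (by linarith)) (max_lt ha (by linarith)) lam κ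
    hlam hκ
  refine ⟨X0, fun X hX => (hX0 X hX).trans (measure_mono ?_)⟩
  rintro x ⟨h1, h2, h3⟩
  refine ⟨h1, h2, lt_of_le_of_lt ?_ h3⟩
  exact Real.rpow_le_rpow_of_exponent_le (by linarith) (le_max_left _ _)

/-- In the wild case the asymptotic fails (take a window `[X, 2X]`). -/
theorem tri_not (k : ℕ) (c : ℤ) (n f i j : ℕ) (L : ℂ → ℂ) (r : ℕ) (l V : ℝ)
    (h : W3283g.SU k c n f i j L r l V) (s : ℂ) (hs1 : 1 < s.re) (hs : L s = 0) :
    ¬ Tendsto (RR k c r l) atTop (𝓝 1) := by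
  intro ht
  -- jumps by a factor 4 contradict `R → 1`
  obtain ⟨X1, hX1⟩ := ((ht.eventually (lt_mem_nhds (by norm_num : (1 / 2 : ℝ) < 1))).and
    (ht.eventually (gt_mem_nhds (by norm_num : (1 : ℝ) < 5 / 4)))).exists_forall_of_atTop
  -- `(log y / log x)^r ≤ 3/2` for `x < y ≤ 2x`, `x` large
  have hlog : Tendsto (fun x : ℝ => (1 + 1 / Real.log x) ^ r) atTop (𝓝 1) := by
    have h1 : Tendsto (fun x : ℝ => 1 + 1 / Real.log x) atTop (𝓝 (1 + 0)) := by
      refine tendsto_const_nhds.add ?_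
      simp only [one_div]
      exact tendsto_inv_atTop_zero.comp Real.tendsto_log_atTop
    have h2 := h1.pow r
    simpa using h2
  obtain ⟨X2, hX2⟩ := (hlog.eventually (gt_mem_nhds (by norm_num : (1 : ℝ) < 3 / 2))).exists_forall_of_atTop
  obtain ⟨x, y, hx, hxy, hy, hj⟩ := jump_P_false k c n f i j L r l V h s hs1 hs 4 1 (by norm_num)
    one_pos (max (max X1 X2) 3)
  have hx1 : X1 ≤ x := ((le_max_left _ _).trans (le_max_left _ _)).trans hx
  have hx2 : X2 ≤ x := ((le_max_right _ _).trans (le_max_left _ _)).trans hx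
  have hx3 : 3 ≤ x := (le_max_right _ _).trans hx
  have hRx := (hX1 x hx1).1
  have hRy := (hX1 y (by linarith)).2
  have hlx : 0 < Real.log x := Real.log_pos (by linarith)
  have hly : 0 < Real.log y := Real.log_pos (by linarith)
  have hC : 0 < Real.sqrt 2 * Real.exp (r * Real.eulerMascheroniConstant) / |l| := by
    have := abs_pos.2 h.hl
    positivity
  set C := Real.sqrt 2 * Real.exp (r * Real.eulerMascheroniConstant) / |l| with hCd
  have hPx : bsdProd (c * k ^ 2) 0 x = RR k c r l x * (C * (Real.log x) ^ r) := by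
    unfold RR
    rw [← hCd]
    field_simp
  have hPy : bsdProd (c * k ^ 2) 0 y = RR k c r l y * (C * (Real.log y) ^ r) := by
    unfold RR
    rw [← hCd]
    field_simp
  have hy2 : Real.log y ≤ Real.log x * (1 + 1 / Real.log x) := by
    have h1 : y ≤ x * 2 := by
      refine hy.trans (mul_le_mul_of_nonneg_left ?_ (by linarith))
      have : Real.exp (-(1 * Real.sqrt (Real.log x))) ≤ 1 := by
        rw [Real.exp_le_one_iff]
        have := Real.sqrt_nonneg (Real.log x)
        linarith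
      linarith
    have h2 := Real.log_le_log (by linarith) h1
    rw [Real.log_mul (by linarith) (by norm_num)] at h2
    have h3 : Real.log x * (1 + 1 / Real.log x) = Real.log x + 1 := by
      field_simp
    rw [h3]
    linarith [Real.log_two_lt_d9]
  have hpow : (Real.log y) ^ r ≤ (Real.log x) ^ r * (3 / 2) := by
    calc (Real.log y) ^ r ≤ (Real.log x * (1 + 1 / Real.log x)) ^ r :=
          pow_le_pow_left₀ hly.le hy2 r
      _ = (Real.log x) ^ r * (1 + 1 / Real.log x) ^ r := mul_pow _ _ _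
      _ ≤ _ := mul_le_mul_of_nonneg_left (hX2 x hx2).le (by positivity)
  rw [hPx, hPy] at hj
  have hq : 0 < C * (Real.log x) ^ r := by positivity
  have h1 : RR k c r l y * (C * (Real.log y) ^ r) ≤ 5 / 4 * (C * ((Real.log x) ^ r * (3 / 2))) := by
    have h0 : 0 ≤ C * (Real.log y) ^ r := by positivity
    calc RR k c r l y * (C * (Real.log y) ^ r) ≤ 5 / 4 * (C * (Real.log y) ^ r) :=
          mul_le_mul_of_nonneg_right hRy.le h0
      _ ≤ _ := by gcongr
  have h2 : (1 + 4) * (1 / 2 * (C * (Real.log x) ^ r)) < (1 + 4) * (RR k c r l x * (C * (Real.log x) ^ r)) := by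
    have := mul_lt_mul_of_pos_right hRx hq
    linarith
  nlinarith

end W3283v
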