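import Mathlib

set_option autoImplicit false

namespace W3283v

open MeasureTheory Filter Topology

theorem vol_exp (S : Set ℝ) (hS : MeasurableSet S) :
    volume (Real.exp '' S) = ∫⁻ u in S, ENNReal.ofReal (Real.exp u) := by
  have h := lintegral_image_eq_lintegral_abs_deriv_mul (s := S) (f := Real.exp) (f' := Real.exp) hS
    (fun x _ => (Real.hasDerivAt_exp x).hasDerivWithinAt) Real.exp_injective.injOn (fun _ => 1)
  rw [setLIntegral_one] at h
  rw [h]
  refine lintegral_congr fun u => ?_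
  rw [mul_one, abs_of_pos (Real.exp_pos u)]

/-- Lebesgue measure of the image of a bounded set under the exponential function. -/
theorem vol_exp_le (S : Set ℝ) (hS : MeasurableSet S) (b : ℝ) (hb : ∀ u ∈ S, u ≤ b) :
    volume (Real.exp '' S) ≤ ENNReal.ofReal (Real.exp b) * volume S := by
  rw [vol_exp S hS, ← setLIntegral_const]
  refine setLIntegral_mono measurable_const fun u hu => ?_
  exact ENNReal.ofReal_le_ofReal (Real.exp_le_exp.2 (hb u hu))

theorem vol_exp_ge (S : Set ℝ) (hS : MeasurableSet S) (a : ℝ) (ha : ∀ u ∈ S, a ≤ u) :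
    ENNReal.ofReal (Real.exp a) * volume S ≤ volume (Real.exp '' S) := by
  rw [vol_exp S hS, ← setLIntegral_const]
  refine setLIntegral_mono (by fun_prop) fun u hu => ?_
  exact ENNReal.ofReal_le_ofReal (Real.exp_le_exp.2 (ha u hu))

/-- Sets of real numbers `x ∈ [X, lam X]` and sets of `u = log x`. -/
theorem set_log_image (X lam : ℝ) (hX : 0 < X) (p : ℝ → Prop) :
    {x : ℝ | X ≤ x ∧ x ≤ lam * X ∧ p x} =
      Real.exp '' {u : ℝ | Real.log X ≤ u ∧ Real.exp u ≤ lam * X ∧ p (Real.exp u)} := by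
  ext x
  constructor
  · rintro ⟨h1, h2, h3⟩
    have hx : 0 < x := by linarith
    refine ⟨Real.log x, ⟨Real.log_le_log hX h1, ?_, ?_⟩, Real.exp_log hx⟩
    · rw [Real.exp_log hx]; exact h2
    · rw [Real.exp_log hx]; exact h3
  · rintro ⟨u, ⟨h1, h2, h3⟩, rfl⟩
    refine ⟨?_, h2, h3⟩
    rwa [Real.log_le_iff_le_exp hX] at h1

end W3283v
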