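import Pool.Agent.W_3283e1_v3.LocF
import Pool.Agent.W_3283e1_v3.TriM
import Pool.Agent.W_3283e1_h53.Setup

set_option autoImplicit false

namespace W3283v

open Complex W3283e1 W3283f W3283l MeasureTheory Filter Topology

/-- Comparison of `log P` with `er` for large `x`: if `e^{bu} < |er u|` and `a < b`, `u` large, then
`e^{au} < |log P(e^u)|`. -/
theorem tri_cmp (a b C K : ℝ) (r : ℕ) (ha : 0 < a) (hab : a < b) :
    ∃ u0 : ℝ, 1 ≤ u0 ∧ ∀ u : ℝ, u0 ≤ u → ∀ P e : ℝ, |P - e| ≤ C + K * Real.log u →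
      Real.exp (b * u) < |e| → Real.exp (a * u) < |P| := by
  have h1 : Tendsto (fun u : ℝ => (C + K * Real.log u) / Real.exp (a * u)) atTop (𝓝 0) := by
    have h2 : Tendsto (fun u : ℝ => C * Real.exp (-(a * u))) atTop (𝓝 (C * 0)) :=
      (Real.tendsto_exp_neg_atTop_nhds_zero.comp (tendsto_id.const_mul_atTop ha)).const_mul C
    have h3 : Tendsto (fun u : ℝ => K * (Real.log u * Real.exp (-(a * u)))) atTop (𝓝 (K * 0)) := by
      refine Tendsto.const_mul K ?_
      have h4 : Tendsto (fun u : ℝ => u * Real.exp (-(a * u))) atTop (𝓝 0) := by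
        have h5 := Real.tendsto_pow_mul_exp_neg_atTop_nhds_zero 1
        have h6 := (h5.comp (tendsto_id.const_mul_atTop ha)).const_mul a⁻¹
        rw [mul_zero] at h6
        refine h6.congr fun u => ?_
        simp only [Function.comp_apply, id, pow_one]
        field_simp
      refine squeeze_zero_norm' ?_ h4
      filter_upwards [eventually_ge_atTop (1 : ℝ)] with u hu
      rw [norm_mul, Real.norm_of_nonneg (Real.exp_pos _).le, Real.norm_of_nonneg
        (Real.log_nonneg hu)]
      exact mul_le_mul_of_nonneg_right (Real.log_le_self (by linarith)) (Real.exp_pos _).le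
    have h4 := h2.add h3
    simp only [mul_zero, add_zero] at h4
    refine h4.congr fun u => ?_
    rw [Real.exp_neg]
    field_simp
  have h2 : Tendsto (fun u : ℝ => Real.exp ((b - a) * u)) atTop atTop :=
    Real.tendsto_exp_atTop.comp (tendsto_id.const_mul_atTop (by linarith))
  obtain ⟨u0, hu0⟩ := (((h1.eventually (gt_mem_nhds one_pos)).and
    (h2.eventually_ge_atTop 2)).and (eventually_ge_atTop (1 : ℝ))).exists_forall_of_atTop
  refine ⟨max u0 1, le_max_right _ _, fun u hu P e hPe he => ?_⟩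
  obtain ⟨⟨h3, h4⟩, h5⟩ := hu0 u ((le_max_left _ _).trans hu)
  have hE := Real.exp_pos (a * u)
  rw [div_lt_one hE] at h3
  have h6 : Real.exp (b * u) = Real.exp ((b - a) * u) * Real.exp (a * u) := by
    rw [← Real.exp_add]
    congr 1
    ring
  have h7 : |e| ≤ |P| + |P - e| := by
    have := abs_sub_abs_le_abs_sub e P
    rw [abs_sub_comm e P] at this
    linarith
  rw [h6] at he
  nlinarith

/-- The wild case in terms of the product. -/
theorem wild_P (k : ℕ) (c : ℤ) (n f i j : ℕ) (L : ℂ → ℂ) (r : ℕ) (l V : ℝ)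
    (h : W3283g.SU k c n f i j L r l V) (hD : Dens (laF n j)) (s : ℂ) (hs : L s = 0) (a : ℝ)
    (ha : 0 < a) (has : a < s.re - 1) (lam κ : ℝ) (hlam : 1 < lam) (hκ : 0 < κ) :
    ∃ X0 : ℝ, 1 ≤ X0 ∧ ∀ X : ℝ, X0 ≤ X → ENNReal.ofReal (X ^ (1 - κ)) ≤
      volume {x : ℝ | X ≤ x ∧ x ≤ lam * X ∧ x ^ a < |Real.log (bsdProd (c * k ^ 2) 0 x)|} := by
  have hlV : l / V ≠ 0 := div_ne_zero h.hl h.hV.ne'
  obtain ⟨b, hab, hb⟩ := exists_between has
  have hz : LLF n j (1 + (s - 1)) = 0 := by
    have h1 := h.hzero (s - 1) (by rw [Complex.sub_re, Complex.one_re]; linarith)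
    rw [show (1 : ℂ) + (s - 1) = s by ring] at h1 ⊢
    exact h1.1 hs
  have hη : 0 < Real.log lam := Real.log_pos hlam
  obtain ⟨U0, hU01, hU0⟩ := wild_fam n j h.hj h.hn h.hs r (l / V) hlV h.hlim' hD (s - 1) hz b
    (by linarith) (by rw [Complex.sub_re, Complex.one_re]; exact hb) (Real.log lam) hη κ hκ
  set C : ℝ := Real.sqrt 2 * Real.exp (r * Real.eulerMascheroniConstant) / |l| with hC
  have habs : 0 < |l| := abs_pos.2 h.hl
  have hCpos : 0 < C := by
    rw [hC]
    positivity
  obtain ⟨u1, hu11, hu1⟩ := tri_cmp a b |Real.log C| r r ha hab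
  refine ⟨Real.exp (max (max U0 u1) (Real.log (k + 2))), ?_, fun X hX => ?_⟩
  · refine Real.one_le_exp ?_
    exact (by linarith : (0 : ℝ) ≤ U0).trans ((le_max_left _ _).trans (le_max_left _ _))
  have hX0 : 0 < X := (Real.exp_pos _).trans_le hX
  have hlX : max (max U0 u1) (Real.log (k + 2)) ≤ Real.log X := by
    rw [Real.le_log_iff_exp_le hX0]
    exact hX
  have hlU : U0 ≤ Real.log X := ((le_max_left _ _).trans (le_max_left _ _)).trans hlX
  have hlu : u1 ≤ Real.log X := ((le_max_right _ _).trans (le_max_left _ _)).trans hlX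
  have hlk : Real.log (k + 2) ≤ Real.log X := (le_max_right _ _).trans hlX
  have hkX : (k : ℝ) + 2 ≤ X := by
    rwa [Real.log_le_log_iff (by positivity) hX0] at hlk
  rw [set_log_image X lam hX0 (fun x => x ^ a < |Real.log (bsdProd (c * k ^ 2) 0 x)|)]
  have hmS : MeasurableSet {u : ℝ | Real.log X ≤ u ∧ u ≤ Real.log X + Real.log lam ∧
      Real.exp (b * u) < |W3283g.er (alF n j) (lGold (l / V) r) r u|} := by
    refine (measurableSet_le measurable_const measurable_id).inter
      ((measurableSet_le measurable_id measurable_const).inter ?_)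
    exact measurableSet_lt (by fun_prop) (W3283g.er_meas _ _ _).abs
  have hsub : {u : ℝ | Real.log X ≤ u ∧ u ≤ Real.log X + Real.log lam ∧
      Real.exp (b * u) < |W3283g.er (alF n j) (lGold (l / V) r) r u|} ⊆
      {u : ℝ | Real.log X ≤ u ∧ Real.exp u ≤ lam * X ∧
        Real.exp u ^ a < |Real.log (bsdProd (c * k ^ 2) 0 (Real.exp u))|} := by
    rintro u ⟨h1, h2, h3⟩
    have hu0 : 1 ≤ u := by linarith
    refine ⟨h1, ?_, ?_⟩
    · rw [← Real.exp_log (by positivity : 0 < lam * X), Real.log_mul (by positivity) hX0.ne']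
      exact Real.exp_le_exp.2 (by linarith)
    · rw [← Real.exp_mul, mul_comm u a]
      have hXu : X ≤ Real.exp u := by rwa [← Real.log_le_iff_le_exp hX0]
      have hk0 : (0 : ℝ) ≤ k := Nat.cast_nonneg k
      have h4 := h.hP (Real.exp u) (by linarith) (by linarith)
      rw [Real.log_exp] at h4
      have hP := W3283g.bsd_pos (c * k ^ 2) 0 (Real.exp u)
      have hur : 0 < u ^ r := by positivity
      refine hu1 u (hlu.trans h1) _ _ ?_ h3
      rw [← h4, ← hC, Real.log_div hP.ne' (mul_pos hCpos hur).ne', Real.log_mul hCpos.ne' hur.ne',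
        Real.log_pow]
      have h5 : Real.log (bsdProd (c * k ^ 2) 0 (Real.exp u)) -
          (Real.log (bsdProd (c * k ^ 2) 0 (Real.exp u)) - (Real.log C + r * Real.log u)) =
            Real.log C + r * Real.log u := by ring
      rw [h5]
      refine (abs_add_le _ _).trans (add_le_add le_rfl ?_)
      rw [abs_of_nonneg (mul_nonneg (Nat.cast_nonneg r) (Real.log_nonneg hu0))]
  have h1 := hU0 (Real.log X) hlU
  have h2 := vol_exp_ge _ hmS (Real.log X) (fun u hu => hu.1)
  rw [Real.exp_log hX0] at h2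
  have h3 : X ^ (1 - κ) = X * Real.exp (-(κ * Real.log X)) := by
    rw [Real.rpow_sub hX0, Real.rpow_one, div_eq_mul_inv, ← Real.rpow_neg hX0.le,
      Real.rpow_def_of_pos hX0]
    congr 2
    ring
  rw [h3, ENNReal.ofReal_mul hX0.le]
  exact ((mul_le_mul_right h1 _).trans h2).trans (measure_mono (Set.image_mono hsub))

end W3283v
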